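import Mathlib

open Polynomial

namespace Pool.Agent.V11158.Wheel

/-! Data and kernel computations for the arrangement of the wheel with five spokes. -/

/-- The 240 chambers: code of the sign vector, index of its orbit, code of a point inside. -/
def tab : List (ℕ × ℕ × ℕ) :=
  [(512, 0, 484675), (256, 0, 226900), (768, 1, 423508), (128, 0, 276325), (640, 2, 485221),
   (384, 1, 288613), (896, 1, 354148), (64, 0, 344950), (576, 2, 484726), (320, 2, 358006),
   (832, 2, 423541), (192, 1, 345718), (704, 2, 480886), (448, 1, 284278), (960, 0, 284275),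
   (32, 0, 414775), (544, 1, 484678), (288, 2, 423511), (800, 1, 423493), (160, 2, 415591),
   (672, 2, 485206), (416, 2, 354151), (928, 0, 354100), (96, 1, 414823), (608, 1, 484438),
   (352, 2, 423271), (864, 0, 422725), (224, 1, 410983), (736, 0, 472150), (480, 0, 214375),
   (528, 3, 620116), (656, 4, 616293), (592, 5, 620150), (720, 4, 611958), (560, 6, 620119),
   (688, 5, 616295), (624, 6, 619879), (752, 3, 607591), (264, 3, 300901), (776, 6, 497509),
   (328, 4, 366198), (840, 5, 497270), (296, 5, 431975), (808, 6, 497494), (360, 4, 431463),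
   (872, 3, 496726), (536, 7, 694117), (792, 8, 632677), (600, 9, 693878), (856, 9, 632438),
   (568, 10, 694119), (824, 10, 632679), (632, 8, 693607), (888, 7, 632167), (132, 3, 346486),
   (644, 5, 485750), (388, 6, 358774), (900, 6, 424309), (164, 4, 416103), (676, 4, 485718),
   (420, 5, 424295), (932, 3, 424261), (660, 11, 620918), (692, 11, 620903), (268, 7, 371062),
   (780, 10, 502134), (396, 8, 367222), (908, 10, 498294), (300, 9, 436583), (812, 8, 502102),
   (428, 9, 432743), (940, 7, 498262), (540, 7, 764278), (796, 10, 633206), (668, 9, 694902),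
   (924, 8, 633718), (572, 8, 764263), (828, 10, 633191), (700, 9, 694887), (956, 7, 633703),
   (66, 3, 414871), (578, 4, 484758), (322, 5, 423575), (834, 4, 423573), (194, 6, 415639),
   (706, 5, 485270), (450, 6, 354199), (962, 3, 354196), (594, 11, 620183), (722, 11, 616343),
   (330, 11, 432023), (842, 11, 497558), (602, 11, 694167), (858, 11, 632727), (134, 7, 416407),
   (646, 9, 486038), (390, 10, 424599), (902, 8, 424597), (198, 8, 416167), (710, 9, 485798),
   (454, 10, 424359), (966, 7, 424357), (662, 11, 621207), (726, 11, 620967), (270, 7, 440983),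
   (782, 8, 506518), (398, 10, 432791), (910, 10, 498326), (334, 9, 436647), (846, 9, 502182),
   (462, 8, 432823), (974, 7, 498358), (542, 3, 834199), (798, 6, 637591), (670, 5, 694935),
   (926, 6, 633751), (606, 4, 764327), (862, 5, 633255), (734, 4, 694967), (990, 3, 633799),
   (33, 3, 484681), (289, 4, 423513), (161, 5, 485225), (417, 4, 354153), (97, 6, 484729),
   (353, 5, 423545), (225, 6, 480889), (481, 3, 284281), (49, 7, 620122), (561, 8, 685657),
   (177, 9, 616298), (689, 9, 681833), (113, 10, 620154), (625, 10, 685689), (241, 8, 611962),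
   (753, 7, 677497), (297, 11, 497513), (361, 11, 497273), (57, 7, 694123), (569, 10, 694121),
   (313, 9, 632682), (825, 8, 702313), (121, 8, 693883), (633, 10, 693881), (377, 9, 632442),
   (889, 7, 702073), (165, 11, 485753), (421, 11, 424313), (181, 11, 620922), (693, 11, 686457),
   (301, 11, 502137), (429, 11, 498297), (61, 3, 764284), (573, 6, 764281), (317, 5, 633210),
   (829, 6, 702841), (189, 4, 694907), (701, 5, 694905), (445, 4, 633722), (957, 3, 703609),
   (67, 7, 484777), (323, 9, 423593), (195, 10, 485289), (451, 8, 354217), (99, 8, 484762),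
   (355, 9, 423578), (227, 10, 485274), (483, 7, 354202), (83, 7, 620218), (595, 9, 685737),
   (211, 8, 616378), (723, 9, 681897), (115, 10, 620186), (627, 8, 751258), (243, 10, 616346),
   (755, 7, 747418), (331, 11, 497577), (363, 11, 497562), (91, 3, 694219), (603, 5, 694185),
   (347, 4, 632762), (859, 4, 702377), (123, 6, 694171), (635, 6, 759706), (379, 5, 632730),
   (891, 3, 771994), (135, 7, 486313), (391, 8, 424873), (199, 10, 485801), (455, 10, 424361),
   (167, 9, 486042), (423, 9, 424602), (231, 8, 485803), (487, 7, 424363), (151, 3, 621754),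
   (663, 4, 687017), (215, 6, 620986), (727, 5, 686505), (183, 5, 621210), (695, 4, 752282),
   (247, 6, 620971), (759, 3, 817579), (271, 3, 510889), (399, 6, 498601), (335, 5, 502185),
   (463, 6, 498361), (303, 4, 506522), (431, 5, 498330), (367, 4, 502187), (495, 3, 498364),
   (543, 0, 904105), (287, 0, 646330), (799, 1, 707497), (159, 0, 695755), (671, 2, 695209),
   (415, 1, 634042), (927, 1, 703657), (95, 0, 764380), (607, 2, 764329), (351, 2, 633274),
   (863, 2, 702889), (223, 1, 694987), (735, 2, 694969), (479, 1, 633802), (991, 0, 703705),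
   (63, 0, 834205), (575, 1, 834202), (319, 2, 637594), (831, 1, 772762), (191, 2, 694939),
   (703, 2, 760474), (447, 2, 633754), (959, 0, 773530), (127, 1, 764332), (639, 1, 829867),
   (383, 2, 633259), (895, 0, 842155), (255, 1, 694972), (767, 0, 891580), (511, 0, 633805)]

/-- Numerators of the weights of the twelve orbits (coefficient lists). -/
def wpoly : ℕ → List ℤ
  | 0 => [1, 1, 3, 3, 5, 4, 5, 4, 5, 3, 3, 1, 1]
  | 1 => [1, 0, 1, 0, 2, 1, 2, 1, 2, 0, 1, 0, 1]
  | 2 => [1, -1, 0, -3, -1, -4, -2, -4, -1, -3, 0, -1, 1]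
  | 3 => [1, 1, 2, 2, 4, 3, 4, 3, 4, 2, 2, 1, 1]
  | 4 => [1, 1, 2, 2, 5, 4, 5, 4, 5, 2, 2, 1, 1]
  | 5 => [1, 0, 0, -1, 0, -2, -1, -2, 0, -1, 0, 0, 1]
  | 6 => [1, 0, 0, -1, 0, -2, -1, -2, 0, -1, 0, 0, 1]
  | 7 => [1, 1, 1, 1, 2, 1, 1, 1, 2, 1, 1, 1, 1]
  | 8 => [1, 1, 2, 3, 5, 5, 6, 5, 5, 3, 2, 1, 1]
  | 9 => [1, 1, 1, 2, 3, 3, 3, 3, 3, 2, 1, 1, 1]
  | 10 => [1, 0, 0, -1, 0, -2, -1, -2, 0, -1, 0, 0, 1]
  | _ => [1, 1, 0, 0, 1, 0, -1, 0, 1, 0, 0, 1, 1]

/-- The common denominator (coefficient list). -/
def denl : List ℤ := [1, 6, 19, 43, 78, 121, 168, 215, 258, 293, 316, 324, 316, 293, 258, 215, 168, 121, 78, 43, 19, 6, 1]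

/-- Values of the numerators at `2 ^ 16`. -/
def pz : ℕ → ℤ
  | 0 => 6277197520742556697819173770565614520724220490146425929729
  | 1 => 6277101736848182401847262267708544244564257987447809376257
  | 2 => 6277005954415309743206243298382211151099417876564868530177
  | 3 => 6277197519281032759402784762441761782540130706425190088705
  | 4 => 6277197519281032759743072321738788152289664540649715728385
  | 5 => 6277101735386658463090580507911577230362921886783000018945
  | 6 => 6277101735386658463090580507911577230362921886783000018945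
  | 7 => 6277197517819508820646108194941654512092242750885884657665
  | 8 => 6277197519281055060488276044738017594275649953205246296065
  | 9 => 6277197517819531121731599477237910323827761997665940865025
  | 10 => 6277101735386658463090580507911577230362921886783000018945
  | _ => 6277197516357984882229719186738573611393888629571104866305

/-- Value of the denominator at `2 ^ 16`. -/
def dz : ℤ := 9174834408823757925063382988006726063965498494837769322918625806893564883230664979047688850159438678851585

/-- Number of ones among the last ten binary digits. -/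
def pc (x : ℕ) : ℕ :=
  (x &&& 1) + (x >>> 1 &&& 1) + (x >>> 2 &&& 1) + (x >>> 3 &&& 1) + (x >>> 4 &&& 1) +
    (x >>> 5 &&& 1) + (x >>> 6 &&& 1) + (x >>> 7 &&& 1) + (x >>> 8 &&& 1) + (x >>> 9 &&& 1)

/-- Pairs (code, orbit). -/
def L : List (ℕ × ℕ) := tab.map (fun e => (e.1, e.2.1))

/-- A row of the linear system, evaluated at `2 ^ 16`. -/
def rowz (a : ℕ) : List (ℕ × ℕ) → ℤ
  | [] => 0
  | c :: l => ((2 ^ (16 * pc (a ^^^ c.1)) : ℕ) : ℤ) * pz c.2 + rowz a l

theorem rowz_eq : ∀ a ∈ L.map Prod.fst, rowz a L = dz := by decide +kernel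

/-- Horner evaluation. -/
def horner (b : ℤ) : List ℤ → ℤ
  | [] => 0
  | a :: l => a + b * horner b l

theorem horner_wpoly : ∀ o < 12, horner 65536 (wpoly o) = pz o := by decide +kernel

theorem horner_den : horner 65536 denl = dz := by decide +kernel

theorem orb_lt : ∀ c ∈ L, c.2 < 12 := by decide +kernel

/-- The polynomial with given coefficients. -/
noncomputable def lpol : List ℤ → ℤ[X]
  | [] => 0
  | a :: l => C a + X * lpol l

lemma lpol_eval (b : ℤ) (l : List ℤ) : (lpol l).eval b = horner b l := by
  induction l with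
  | nil => simp [lpol, horner]
  | cons a l ih => simp [lpol, horner, ih]

lemma lpol_coeff (M : ℤ) (hM : 0 ≤ M) (l : List ℤ) (h : ∀ a ∈ l, |a| ≤ M) (n : ℕ) :
    |(lpol l).coeff n| ≤ M := by
  induction l generalizing n with
  | nil => simpa [lpol] using hM
  | cons a l ih =>
    rcases n with _ | n
    · simpa [lpol] using h a List.mem_cons_self
    · have := ih (fun a ha => h a (List.mem_cons_of_mem _ ha)) n
      rw [lpol, coeff_add, coeff_C_succ, zero_add, coeff_X_mul]
      exact this

/-- A row of the linear system. -/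
noncomputable def rowP (a : ℕ) : List (ℕ × ℕ) → ℤ[X]
  | [] => 0
  | c :: l => X ^ pc (a ^^^ c.1) * lpol (wpoly c.2) + rowP a l

lemma rowP_eval (a : ℕ) (l : List (ℕ × ℕ)) (h : ∀ c ∈ l, c.2 < 12) :
    (rowP a l).eval 65536 = rowz a l := by
  induction l with
  | nil => simp [rowP, rowz]
  | cons c l ih =>
    simp only [rowP, rowz, eval_add, eval_mul, eval_pow, eval_X, lpol_eval,
      ih (fun c hc => h c (List.mem_cons_of_mem _ hc)), horner_wpoly c.2 (h c List.mem_cons_self)]
    congr 2
    push_cast
    rw [show (65536 : ℤ) = 2 ^ 16 by norm_num, ← pow_mul]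

lemma wpoly_small : ∀ o < 12, ∀ a ∈ wpoly o, |a| ≤ 6 := by decide +kernel

lemma den_small : ∀ a ∈ denl, |a| ≤ 324 := by decide +kernel

lemma rowP_coeff (a : ℕ) (l : List (ℕ × ℕ)) (h : ∀ c ∈ l, c.2 < 12) (n : ℕ) :
    |(rowP a l).coeff n| ≤ 6 * l.length := by
  induction l with
  | nil => simp [rowP]
  | cons c l ih =>
    have h1 := ih (fun c hc => h c (List.mem_cons_of_mem _ hc))
    have h2 : |(X ^ pc (a ^^^ c.1) * lpol (wpoly c.2)).coeff n| ≤ 6 := by
      rw [coeff_X_pow_mul']
      split_ifs
      · exact lpol_coeff 6 (by norm_num) _ (wpoly_small c.2 (h c List.mem_cons_self)) _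
      · simp
    simp only [rowP, coeff_add, List.length_cons]
    push_cast
    calc _ ≤ _ + _ := abs_add_le _ _
      _ ≤ 6 + 6 * (l.length : ℤ) := add_le_add h2 h1
      _ = _ := by ring

lemma eq_zero_of_small (b : ℤ) (f : ℤ[X]) (hf : ∀ n, |f.coeff n| < b) (h : f.eval b = 0) :
    f = 0 := by
  induction hn : f.natDegree using Nat.strong_induction_on generalizing f with
  | _ n ih =>
    have h1 := divX_mul_X_add f
    have h2 : f.coeff 0 = 0 := by
      rw [← h1, eval_add, eval_mul, eval_X, eval_C] at h
      have h3 : b ∣ f.coeff 0 := ⟨-(f.divX.eval b), by linear_combination h⟩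
      exact Int.eq_zero_of_abs_lt_dvd h3 (hf 0)
    by_cases hn0 : n = 0
    · rw [hn0] at hn
      rw [eq_C_of_natDegree_eq_zero hn, h2, C_0]
    · have h4 : f.divX = 0 := by
        apply ih f.divX.natDegree _ f.divX _ _ rfl
        · rw [natDegree_divX_eq_natDegree_tsub_one, hn]
          omega
        · intro m
          rw [coeff_divX]
          exact hf _
        · rw [h2] at h1
          rw [← h1, C_0, add_zero, eval_mul, eval_X] at h
          have hb : b ≠ 0 := by
            have := (abs_nonneg _).trans_lt (hf 0)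
            exact this.ne'
          exact (mul_eq_zero.mp h).resolve_right hb
      rw [← h1, h4, h2]
      simp

/-- **The linear system.** -/
theorem rowP_eq (a : ℕ) (ha : a ∈ L.map Prod.fst) : rowP a L = lpol denl := by
  rw [← sub_eq_zero]
  apply eq_zero_of_small 65536
  · intro n
    rw [coeff_sub]
    have h1 := rowP_coeff a L orb_lt n
    have h2 := lpol_coeff 324 (by norm_num) denl den_small n
    have h3 : (L.length : ℤ) = 240 := by decide +kernel
    rw [h3] at h1
    calc _ ≤ _ + _ := abs_sub _ _
      _ ≤ 6 * 240 + 324 := add_le_add h1 h2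
      _ < _ := by norm_num
  · rw [eval_sub, rowP_eval a L orb_lt, lpol_eval, horner_den, rowz_eq a ha, sub_self]

end Pool.Agent.V11158.Wheel
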