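import Mathlib
import Pool.Agent.V11158.Wheel

open Polynomial Pool.Agent.V11158.Wheel

namespace Pool.Agent.V11158.HouseMag

/-! Data and kernel computations for the magnitude of the arrangement of the house graph. -/

/-- The 42 chambers: code of the sign vector, index of its orbit, code of a point inside. -/
def tab : List (ℕ × ℕ × ℕ) :=
  [(0, 0, 30583), (16, 1, 38775), (48, 0, 51063), (4, 2, 31095), (20, 3, 39270), (52, 2, 43638),
   (12, 4, 23415), (44, 5, 31863), (60, 4, 39799), (2, 2, 30615), (18, 3, 38550), (50, 2, 42918),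
   (10, 4, 22455), (42, 5, 30663), (58, 4, 38839), (6, 4, 22933), (22, 5, 39316), (54, 4, 43413),
   (14, 2, 27286), (46, 3, 31398), (62, 2, 39319), (1, 2, 30585), (17, 3, 38505), (49, 2, 42873),
   (9, 4, 22395), (41, 5, 30588), (57, 4, 38779), (5, 4, 22873), (21, 5, 39241), (53, 4, 43353),
   (13, 2, 27241), (45, 3, 31353), (61, 2, 39289), (3, 4, 21913), (19, 5, 38041), (51, 4, 42393),
   (11, 2, 26521), (43, 3, 30633), (59, 2, 38809), (15, 0, 18841), (47, 1, 31129), (63, 0, 39321)]

/-- Numerators of the weights of the six orbits (coefficient lists). -/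
def wpoly : ℕ → List ℤ
  | 0 => [1, 1, 2, 2, 3, 2, 2, 1, 1]
  | 1 => [1, 0, 1, 0, 2, 0, 1, 0, 1]
  | 2 => [1, 0, -1, -1, 0, -1, -1, 0, 1]
  | 3 => [1, 0, 0, 0, 2, 0, 0, 0, 1]
  | 4 => [1, 1, 1, 2, 3, 2, 1, 1, 1]
  | _ => [1, 1, 1, 1, 2, 1, 1, 1, 1]

/-- The common denominator (coefficient list). -/
def denl : List ℤ := [1, 5, 12, 19, 24, 29, 35, 38, 35, 29, 24, 19, 12, 5, 1]

/-- The sum of the numerators (coefficient list). -/
def suml : List ℤ := [42, 22, 16, 26, 76, 26, 16, 22, 42]

/-- Values of the numerators at `2 ^ 16`. -/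
def pz : ℕ → ℤ
  | 0 => 340287559376255741226511837553206820865
  | 1 => 340282367000166626014532433177026232321
  | 2 => 340282366841709092023290373729777876993
  | 3 => 340282366920938463500268095579187314689
  | 4 => 340287559297027578712247499955367903233
  | _ => 340287559297026369767980859777506934785

/-- Value of the denominator at `2 ^ 16`. -/
def dz : ℤ := 26962003623174332000391342237009108554601142640735869581272486838273

/-- Number of ones among the last six binary digits. -/
def pc (x : ℕ) : ℕ :=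
  (x &&& 1) + (x >>> 1 &&& 1) + (x >>> 2 &&& 1) + (x >>> 3 &&& 1) + (x >>> 4 &&& 1) +
    (x >>> 5 &&& 1)

/-- Pairs (code, orbit). -/
def L : List (ℕ × ℕ) := tab.map (fun e => (e.1, e.2.1))

/-- A row of the linear system, evaluated at `2 ^ 16`. -/
def rowz (a : ℕ) : List (ℕ × ℕ) → ℤ
  | [] => 0
  | c :: l => ((2 ^ (16 * pc (a ^^^ c.1)) : ℕ) : ℤ) * pz c.2 + rowz a l

theorem rowz_eq : ∀ a ∈ L.map Prod.fst, rowz a L = dz := by decide +kernel

theorem horner_wpoly : ∀ o < 6, horner 65536 (wpoly o) = pz o := by decide +kernel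

theorem horner_den : horner 65536 denl = dz := by decide +kernel

theorem orb_lt : ∀ c ∈ L, c.2 < 6 := by decide +kernel

/-- A row of the linear system. -/
noncomputable def rowP (a : ℕ) : List (ℕ × ℕ) → ℤ[X]
  | [] => 0
  | c :: l => X ^ pc (a ^^^ c.1) * lpol (wpoly c.2) + rowP a l

lemma rowP_eval (a : ℕ) (l : List (ℕ × ℕ)) (h : ∀ c ∈ l, c.2 < 6) :
    (rowP a l).eval 65536 = rowz a l := by
  induction l with
  | nil => simp [rowP, rowz]
  | cons c l ih =>
    simp only [rowP, rowz, eval_add, eval_mul, eval_pow, eval_X, lpol_eval,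
      ih (fun c hc => h c (List.mem_cons_of_mem _ hc)), horner_wpoly c.2 (h c List.mem_cons_self)]
    congr 2
    push_cast
    rw [show (65536 : ℤ) = 2 ^ 16 by norm_num, ← pow_mul]

lemma wpoly_small : ∀ o < 6, ∀ a ∈ wpoly o, |a| ≤ 3 := by decide +kernel

lemma den_small : ∀ a ∈ denl, |a| ≤ 38 := by decide +kernel

lemma sum_small : ∀ a ∈ suml, |a| ≤ 76 := by decide +kernel

lemma rowP_coeff (a : ℕ) (l : List (ℕ × ℕ)) (h : ∀ c ∈ l, c.2 < 6) (n : ℕ) :
    |(rowP a l).coeff n| ≤ 3 * l.length := by
  induction l with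
  | nil => simp [rowP]
  | cons c l ih =>
    have h1 := ih (fun c hc => h c (List.mem_cons_of_mem _ hc))
    have h2 : |(X ^ pc (a ^^^ c.1) * lpol (wpoly c.2)).coeff n| ≤ 3 := by
      rw [coeff_X_pow_mul']
      split_ifs
      · exact lpol_coeff 3 (by norm_num) _ (wpoly_small c.2 (h c List.mem_cons_self)) _
      · simp
    simp only [rowP, coeff_add, List.length_cons]
    push_cast
    calc _ ≤ _ + _ := abs_add_le _ _
      _ ≤ 3 + 3 * (l.length : ℤ) := add_le_add h2 h1
      _ = _ := by ring

/-- **The linear system.** -/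
theorem rowP_eq (a : ℕ) (ha : a ∈ L.map Prod.fst) : rowP a L = lpol denl := by
  rw [← sub_eq_zero]
  apply eq_zero_of_small 65536
  · intro n
    rw [coeff_sub]
    have h1 := rowP_coeff a L orb_lt n
    have h2 := lpol_coeff 38 (by norm_num) denl den_small n
    have h3 : (L.length : ℤ) = 42 := by decide +kernel
    rw [h3] at h1
    calc _ ≤ _ + _ := abs_sub _ _
      _ ≤ 3 * 42 + 38 := add_le_add h1 h2
      _ < _ := by norm_num
  · rw [eval_sub, rowP_eval a L orb_lt, lpol_eval, horner_den, rowz_eq a ha, sub_self]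

/-- sum of the numerators -/
noncomputable def numS : List (ℕ × ℕ) → ℤ[X]
  | [] => 0
  | c :: l => lpol (wpoly c.2) + numS l

/-- sum of the values of the numerators at `2 ^ 16` -/
def numz : List (ℕ × ℕ) → ℤ
  | [] => 0
  | c :: l => pz c.2 + numz l

theorem numz_eq : numz L = horner 65536 suml := by decide +kernel

lemma numS_eval (l : List (ℕ × ℕ)) (h : ∀ c ∈ l, c.2 < 6) :
    (numS l).eval 65536 = numz l := by
  induction l with
  | nil => simp [numS, numz]
  | cons c l ih =>
    simp only [numS, numz, eval_add, lpol_eval,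
      ih (fun c hc => h c (List.mem_cons_of_mem _ hc)), horner_wpoly c.2 (h c List.mem_cons_self)]

lemma numS_coeff (l : List (ℕ × ℕ)) (h : ∀ c ∈ l, c.2 < 6) (n : ℕ) :
    |(numS l).coeff n| ≤ 3 * l.length := by
  induction l with
  | nil => simp [numS]
  | cons c l ih =>
    have h1 := ih (fun c hc => h c (List.mem_cons_of_mem _ hc))
    have h2 : |(lpol (wpoly c.2)).coeff n| ≤ 3 :=
      lpol_coeff 3 (by norm_num) _ (wpoly_small c.2 (h c List.mem_cons_self)) _
    simp only [numS, coeff_add, List.length_cons]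
    push_cast
    calc _ ≤ _ + _ := abs_add_le _ _
      _ ≤ 3 + 3 * (l.length : ℤ) := add_le_add h2 h1
      _ = _ := by ring

/-- **The sum of the weights.** -/
theorem numS_eq : numS L = lpol suml := by
  rw [← sub_eq_zero]
  apply eq_zero_of_small 65536
  · intro n
    rw [coeff_sub]
    have h1 := numS_coeff L orb_lt n
    have h2 := lpol_coeff 76 (by norm_num) suml sum_small n
    have h3 : (L.length : ℤ) = 42 := by decide +kernel
    rw [h3] at h1
    calc _ ≤ _ + _ := abs_sub _ _
      _ ≤ 3 * 42 + 76 := add_le_add h1 h2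
      _ < _ := by norm_num
  · rw [eval_sub, numS_eval L orb_lt, lpol_eval, numz_eq, sub_self]

end Pool.Agent.V11158.HouseMag
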