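import Mathlib

open Cardinal

namespace Pool.Agent.V11158

section select

variable {J X : Type} [LinearOrder J] [WellFoundedLT J]

/-- transfinite selection of points -/
lemma select (κ : Cardinal.{0}) (hκ : ℵ₀ < κ) (hJ : ∀ j : J, #(Set.Iio j) < κ)
    (b : J → X → X) (hb : ∀ j, Function.Injective (b j)) (V : J → Set X)
    (hV : ∀ j, κ ≤ #(V j)) (t₀ : Set X) (ht₀ : #t₀ < κ) :
    ∃ x : J → X, (∀ j, x j ∈ V j) ∧ (∀ j, x j ∉ t₀ ∧ b j (x j) ∉ t₀) ∧
      ∀ i j, i ≠ j → x i ≠ x j ∧ x i ≠ b j (x j) := by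
  classical
  have hV' : ∀ j, (V j).Nonempty := by
    intro j
    rw [Set.nonempty_iff_ne_empty]
    intro h
    have := hV j
    rw [h, Cardinal.mk_eq_zero] at this
    exact absurd (lt_of_lt_of_le hκ this) (not_lt.mpr zero_le)
  -- one step
  have step : ∀ (j : J) (x : J → X), ∃ y ∈ V j, (y ∉ t₀ ∧ b j y ∉ t₀) ∧
      ∀ i, i < j → x i ≠ y ∧ x i ≠ b j y ∧ y ≠ b i (x i) := by
    intro j x
    set B : Set X := t₀ ∪ ((x '' Set.Iio j) ∪ ((fun i => b i (x i)) '' Set.Iio j)) with hB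
    have hBc : #B < κ := by
      refine lt_of_le_of_lt (Cardinal.mk_union_le _ _) ?_
      apply Cardinal.add_lt_of_lt hκ.le ht₀
      refine lt_of_le_of_lt (Cardinal.mk_union_le _ _) ?_
      apply Cardinal.add_lt_of_lt hκ.le
      · exact lt_of_le_of_lt Cardinal.mk_image_le (hJ j)
      · exact lt_of_le_of_lt Cardinal.mk_image_le (hJ j)
    have hB2 : #((b j) ⁻¹' B) < κ :=
      lt_of_le_of_lt (Cardinal.mk_preimage_of_injective _ _ (hb j)) hBc
    have hlt : #(B ∪ (b j) ⁻¹' B : Set X) < κ :=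
      lt_of_le_of_lt (Cardinal.mk_union_le _ _) (Cardinal.add_lt_of_lt hκ.le hBc hB2)
    have hex : ∃ y ∈ V j, y ∉ B ∪ (b j) ⁻¹' B := by
      by_contra hcon
      push Not at hcon
      have : V j ⊆ B ∪ (b j) ⁻¹' B := fun y hy => hcon y hy
      exact absurd (lt_of_le_of_lt (Cardinal.mk_le_mk_of_subset this) hlt) (not_lt.mpr (hV j))
    obtain ⟨y, hy, hyB⟩ := hex
    rw [Set.mem_union, not_or] at hyB
    obtain ⟨hy1, hy2⟩ := hyB
    rw [Set.mem_preimage] at hy2
    refine ⟨y, hy, ⟨fun h => hy1 (Or.inl h), fun h => hy2 (Or.inl h)⟩, ?_⟩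
    intro i hi
    refine ⟨?_, ?_, ?_⟩
    · intro h
      exact hy1 (Or.inr (Or.inl ⟨i, hi, h⟩))
    · intro h
      exact hy2 (Or.inr (Or.inl ⟨i, hi, h⟩))
    · intro h
      exact hy1 (Or.inr (Or.inr ⟨i, hi, h.symm⟩))
  let F : ∀ j : J, (∀ i : J, i < j → X) → X := fun j prev =>
    Classical.choose (step j (fun i => if h : i < j then prev i h else (hV' j).some))
  let x : J → X := (wellFounded_lt (α := J)).fix F
  have key : ∀ j, x j ∈ V j ∧ (x j ∉ t₀ ∧ b j (x j) ∉ t₀) ∧
      ∀ i, i < j → x i ≠ x j ∧ x i ≠ b j (x j) ∧ x j ≠ b i (x i) := by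
    intro j
    have hx : x j = F j (fun i _ => x i) := WellFounded.fix_eq _ _ _
    have hg := Classical.choose_spec
      (step j (fun i => if h : i < j then x i else (hV' j).some))
    rw [← show x j = Classical.choose
      (step j (fun i => if h : i < j then x i else (hV' j).some)) from hx] at hg
    refine ⟨hg.1, hg.2.1, ?_⟩
    intro i hi
    have := hg.2.2 i hi
    rw [dif_pos hi] at this
    exact this
  refine ⟨x, fun j => (key j).1, fun j => (key j).2.1, ?_⟩
  intro i j hij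
  rcases lt_or_gt_of_ne hij with h | h
  · exact ⟨((key j).2.2 i h).1, ((key j).2.2 i h).2.1⟩
  · exact ⟨((key i).2.2 j h).1.symm, ((key i).2.2 j h).2.2⟩

end select

/-- **Extension of precolorings.** -/
theorem extension {X G : Type} (W : Set X) (a : G → X → X) (hW : ℵ₀ < #W)
    (hcard : #G < 2 ^ #W) (ha : ∀ γ, Function.Injective (a γ))
    (hmove : ∀ γ, ∃ w ∈ W, a γ w ≠ w)
    (H : Set G) (hH : #H ≤ #W) (hfin : ∀ γ, γ ∉ H → {w ∈ W | a γ w ∈ W}.Finite)
    (hE : ∀ γ γ', #{w ∈ W | a γ w ≠ w} < #W → #{w ∈ W | a γ' w ≠ w} < #W → γ = γ')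
    (c : X → ZMod 2) :
    ∃ c' : X → ZMod 2, (∀ x, x ∉ W → c' x = c x) ∧ ∀ γ, ∃ x, c' (a γ x) ≠ c' x := by
  classical
  set κ := #W with hκdef
  choose w₀ hw₀W hw₀ using hmove
  set E : Set G := {γ | #{w ∈ W | a γ w ≠ w} < κ} with hEdef
  set t₀ : Set X := ⋃ γ ∈ E, {w₀ γ, a γ (w₀ γ)} with ht₀def
  have hEsub : E.Subsingleton := fun γ hγ γ' hγ' => hE γ γ' hγ hγ'
  have ht₀fin : t₀.Finite := by
    apply Set.Finite.biUnion hEsub.finite
    intro γ _
    exact Set.toFinite _
  have ht₀ : #t₀ < κ := lt_trans (Cardinal.lt_aleph0_iff_set_finite.mpr ht₀fin) hW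
  -- the index type
  let J : Type := κ.ord.ToType
  have hJc : #J = κ := Cardinal.mk_ord_toType _
  have hJ : ∀ j : J, #(Set.Iio j) < κ := by
    intro j
    have := Cardinal.mk_Iio_lt j (by rw [hJc]; simp [J])
    rwa [hJc] at this
  have hWne : Nonempty W := by
    rw [← Cardinal.mk_ne_zero_iff]
    exact (lt_of_le_of_lt zero_le hW).ne'
  have hle : #((↥(H \ E)) ⊕ W) ≤ #J := by
    rw [Cardinal.mk_sum, Cardinal.lift_id, Cardinal.lift_id, hJc]
    refine (add_le_add ((Cardinal.mk_le_mk_of_subset Set.sdiff_subset).trans hH) le_rfl).trans ?_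
    rw [Cardinal.add_eq_self hW.le]
  obtain ⟨e, he⟩ : ∃ e : J → (↥(H \ E)) ⊕ W, Function.Surjective e := by
    obtain ⟨f⟩ := (Cardinal.le_def _ _).mp hle
    exact ⟨Function.invFun f, Function.invFun_surjective f.injective⟩
  let b : J → X → X := fun j => Sum.elim (fun γ : ↥(H \ E) => a γ.1) (fun _ => id) (e j)
  let V : J → Set X := fun j => Sum.elim (fun γ : ↥(H \ E) => {w ∈ W | a γ.1 w ≠ w}) (fun _ => W) (e j)
  have hb : ∀ j, Function.Injective (b j) := by
    intro j
    simp only [b]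
    rcases e j with γ | w
    · exact ha γ.1
    · exact Function.injective_id
  have hV : ∀ j, κ ≤ #(V j) := by
    intro j
    simp only [V]
    rcases e j with γ | w
    · exact not_lt.mp (fun h => γ.2.2 h)
    · exact le_rfl
  obtain ⟨x, hxV, hxt, hxx⟩ := select κ hW hJ b hb V hV t₀ ht₀
  have hxW : ∀ j, x j ∈ W := by
    intro j
    have := hxV j
    simp only [V] at this
    rcases hej : e j with γ | w
    · rw [hej] at this
      exact this.1
    · rw [hej] at this
      exact this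
  have hxinj : Function.Injective x := by
    intro i j hij
    by_contra hne
    exact (hxx i j hne).1 hij
  -- the basic coloring
  let g : X → ZMod 2 := fun y => if y ∈ W then 0 else c y
  have hgW : ∀ y ∈ W, g y = 0 := fun y hy => if_pos hy
  have hgW' : ∀ y, y ∉ W → g y = c y := fun y hy => if_neg hy
  let Pj : Set W → J → Prop := fun A j =>
    Sum.elim (fun γ : ↥(H \ E) => g (a γ.1 (x j)) = 0) (fun w => w ∈ A) (e j)
  let M : Set W → Set X := fun A => {y | (∃ j, y = x j ∧ Pj A j) ∨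
    (∃ γ ∈ E, y = w₀ γ ∧ g (a γ (w₀ γ)) = 0)}
  let C : Set W → X → ZMod 2 := fun A y => g y + (if y ∈ M A then 1 else 0)
  have hxM : ∀ A j, x j ∈ M A ↔ Pj A j := by
    intro A j
    constructor
    · rintro (⟨i, hi, hP⟩ | ⟨γ, hγ, hy, -⟩)
      · rw [hxinj hi]; exact hP
      · exfalso
        apply (hxt j).1
        rw [hy, ht₀def]
        simp only [Set.mem_iUnion]
        exact ⟨γ, hγ, Or.inl rfl⟩
    · intro h
      exact Or.inl ⟨j, rfl, h⟩
  have hMW : ∀ A, ∀ y ∈ M A, y ∈ W := by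
    rintro A y (⟨i, hi, -⟩ | ⟨γ, -, hy, -⟩)
    · rw [hi]; exact hxW i
    · rw [hy]; exact hw₀W γ
  have hCoff : ∀ A, ∀ y, y ∉ W → C A y = c y := by
    intro A y hy
    simp only [C]
    rw [if_neg (fun h => hy (hMW A y h)), add_zero, hgW' y hy]
  -- elements of `H \ E` are broken
  have hbreak1 : ∀ A, ∀ γ ∈ H \ E, ∃ y, C A (a γ y) ≠ C A y := by
    intro A γ hγ
    obtain ⟨j, hj⟩ := he (Sum.inl ⟨γ, hγ⟩)
    have hbj : b j (x j) = a γ (x j) := by simp only [b, hj, Sum.elim_inl]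
    have hmv : a γ (x j) ≠ x j := by
      have := hxV j
      simp only [V, hj, Sum.elim_inl] at this
      exact this.2
    have hnotM : a γ (x j) ∉ M A := by
      rintro (⟨i, hi, -⟩ | ⟨γ', hγ', hy, -⟩)
      · by_cases hij : i = j
        · rw [hij] at hi
          exact hmv hi
        · apply (hxx i j hij).2
          rw [hbj, hi]
      · apply (hxt j).2
        rw [hbj, hy, ht₀def]
        simp only [Set.mem_iUnion]
        exact ⟨γ', hγ', Or.inl rfl⟩
    have hP : Pj A j ↔ g (a γ (x j)) = 0 := by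
      simp only [Pj, hj, Sum.elim_inl]
    refine ⟨x j, ?_⟩
    simp only [C]
    rw [if_neg hnotM, add_zero, hgW (x j) (hxW j), zero_add]
    by_cases h0 : g (a γ (x j)) = 0
    · rw [if_pos ((hxM A j).mpr (hP.mpr h0)), h0]
      decide
    · rw [if_neg (fun h => h0 (hP.mp ((hxM A j).mp h)))]
      exact h0
  -- elements of `E` are broken
  have hbreak2 : ∀ A, ∀ γ ∈ E, ∃ y, C A (a γ y) ≠ C A y := by
    intro A γ hγ
    have hnotM : a γ (w₀ γ) ∉ M A := by
      rintro (⟨i, hi, -⟩ | ⟨γ', hγ', hy, -⟩)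
      · apply (hxt i).1
        rw [← hi, ht₀def]
        simp only [Set.mem_iUnion]
        exact ⟨γ, hγ, Or.inr rfl⟩
      · have : γ = γ' := hEsub hγ hγ'
        rw [← this] at hy
        exact hw₀ γ hy
    have hP : w₀ γ ∈ M A ↔ g (a γ (w₀ γ)) = 0 := by
      constructor
      · rintro (⟨i, hi, -⟩ | ⟨γ', hγ', hy, h0⟩)
        · exfalso
          apply (hxt i).1
          rw [← hi, ht₀def]
          simp only [Set.mem_iUnion]
          exact ⟨γ, hγ, Or.inl rfl⟩
        · have : γ = γ' := hEsub hγ hγ'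
          rw [this]
          exact h0
      · intro h
        exact Or.inr ⟨γ, hγ, rfl, h⟩
    refine ⟨w₀ γ, ?_⟩
    simp only [C]
    rw [if_neg hnotM, add_zero, hgW (w₀ γ) (hw₀W γ), zero_add]
    by_cases h0 : g (a γ (w₀ γ)) = 0
    · rw [if_pos (hP.mpr h0), h0]
      decide
    · rw [if_neg (fun h => h0 (hP.mp h))]
      exact h0
  -- injectivity
  have hCinj : Function.Injective C := by
    intro A A' hAA
    ext w
    obtain ⟨j, hj⟩ := he (Sum.inr w)
    have hP : ∀ A, Pj A j ↔ w ∈ A := by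
      intro A
      simp only [Pj, hj, Sum.elim_inr]
    have h1 := congrFun hAA (x j)
    simp only [C] at h1
    have h2 := add_left_cancel h1
    rw [← hP, ← hP, ← hxM, ← hxM]
    by_cases h3 : x j ∈ M A <;> by_cases h4 : x j ∈ M A'
    · simp [h3, h4]
    · rw [if_pos h3, if_neg h4] at h2
      exact absurd h2 (by decide)
    · rw [if_neg h3, if_pos h4] at h2
      exact absurd h2 (by decide)
    · simp [h3, h4]
  -- few colorings are preserved by an element outside `H`
  have hfew : ∀ γ : ↥(Hᶜ), #{A : Set W | ∀ y, C A (a γ.1 y) = C A y} ≤ ℵ₀ := by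
    intro γ
    have hD := hfin γ.1 γ.2
    set D := {w ∈ W | a γ.1 w ∈ W} with hDdef
    have : Finite D := hD
    let φ : {A : Set W | ∀ y, C A (a γ.1 y) = C A y} → (D → ZMod 2) := fun A d => C A.1 d.1
    have hφ : Function.Injective φ := by
      intro A A' hAA
      apply Subtype.ext
      apply hCinj
      funext y
      by_cases hyW : y ∈ W
      · by_cases hyD : a γ.1 y ∈ W
        · exact congrFun hAA ⟨y, hyW, hyD⟩
        · rw [← A.2 y, ← A'.2 y, hCoff _ _ hyD, hCoff _ _ hyD]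
      · rw [hCoff _ _ hyW, hCoff _ _ hyW]
    have : Finite {A : Set W | ∀ y, C A (a γ.1 y) = C A y} := Finite.of_injective φ hφ
    exact (Cardinal.lt_aleph0_of_finite _).le
  have hex : ∃ A : Set W, ∀ γ : ↥(Hᶜ), ¬ ∀ y, C A (a γ.1 y) = C A y := by
    by_contra hcon
    push Not at hcon
    have huniv : (⋃ γ : ↥(Hᶜ), {A : Set W | ∀ y, C A (a γ.1 y) = C A y}) = Set.univ := by
      ext A
      simp only [Set.mem_iUnion, Set.mem_univ, iff_true]
      exact hcon A
    have h1 : #(⋃ γ : ↥(Hᶜ), {A : Set W | ∀ y, C A (a γ.1 y) = C A y} : Set (Set W)) = 2 ^ κ := by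
      rw [huniv, Cardinal.mk_univ, Cardinal.mk_set]
    have h2 : #(⋃ γ : ↥(Hᶜ), {A : Set W | ∀ y, C A (a γ.1 y) = C A y} : Set (Set W)) ≤ #G * ℵ₀ := by
      refine (Cardinal.mk_iUnion_le _).trans ?_
      apply mul_le_mul'
      · exact Cardinal.mk_subtype_le _
      · exact ciSup_le' hfew
    have h3 : #G * ℵ₀ < 2 ^ κ := by
      refine lt_of_le_of_lt (Cardinal.mul_le_max _ _) ?_
      have h4 : ℵ₀ < 2 ^ κ := lt_trans hW (Cardinal.cantor _)
      simp only [max_lt_iff]
      exact ⟨⟨hcard, h4⟩, h4⟩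
    rw [h1] at h2
    exact absurd (lt_of_le_of_lt h2 h3) (lt_irrefl _)
  obtain ⟨A, hA⟩ := hex
  refine ⟨C A, hCoff A, ?_⟩
  intro γ
  by_cases hγE : γ ∈ E
  · exact hbreak2 A γ hγE
  · by_cases hγH : γ ∈ H
    · exact hbreak1 A γ ⟨hγH, hγE⟩
    · have := hA ⟨γ, hγH⟩
      push Not at this
      exact this

end Pool.Agent.V11158
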