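import Pool.Agent.V11158.Generic

open Matrix

namespace Pool.Agent.V11158

section walk

variable {I X : Type} (γ : I → X → X)

/-- action of a word -/
def act (l : List I) (x : X) : X := l.foldr (fun i y => γ i y) x

@[simp] lemma act_nil (x : X) : act γ [] x = x := rfl

@[simp] lemma act_cons (i : I) (l : List I) (x : X) : act γ (i :: l) x = γ i (act γ l x) := rfl

lemma act_append (l l' : List I) (x : X) : act γ (l ++ l') x = act γ l (act γ l' x) := by
  induction l with
  | nil => rfl
  | cons i l ih => simp [ih]

/-- sum of a potential difference along a word -/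
def sg (ε : I → X → ZMod 2) : List I → X → ZMod 2
  | [], _ => 0
  | i :: l, x => sg ε l x + ε i (act γ l x)

variable {γ}

lemma sg_append (ε : I → X → ZMod 2) (l l' : List I) (x : X) :
    sg γ ε (l ++ l') x = sg γ ε l' x + sg γ ε l (act γ l' x) := by
  induction l with
  | nil => simp [sg]
  | cons i l ih => simp only [List.cons_append, sg, ih, act_append]; ring

lemma act_reverse (hγ : ∀ i x, γ i (γ i x) = x) (l : List I) (x : X) :
    act γ l.reverse (act γ l x) = x := by
  induction l with
  | nil => rfl
  | cons i l ih => simp [act_append, hγ, ih]

lemma sg_reverse (hγ : ∀ i x, γ i (γ i x) = x) (ε : I → X → ZMod 2)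
    (hε : ∀ i x, ε i (γ i x) = ε i x) (l : List I) (x : X) :
    sg γ ε l.reverse (act γ l x) = sg γ ε l x := by
  induction l with
  | nil => rfl
  | cons i l ih =>
    simp only [List.reverse_cons, sg_append, sg, act_cons, act_nil, hγ, ih, hε]
    ring

/-- reduction of words -/
lemma reduce [DecidableEq I] (hγ : ∀ i x, γ i (γ i x) = x) (l : List I) :
    ∃ l' : List I, l'.IsChain (· ≠ ·) ∧ ∀ x, act γ l' x = act γ l x := by
  induction l with
  | nil => exact ⟨[], List.isChain_nil, fun _ => rfl⟩
  | cons i l ih =>
    obtain ⟨l', hc, h⟩ := ih
    rcases l' with _ | ⟨j, m⟩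
    · exact ⟨[i], List.isChain_singleton _, fun x => by simp [← h]⟩
    · by_cases hij : i = j
      · subst hij
        refine ⟨m, hc.tail, fun x => ?_⟩
        rw [act_cons, ← h, act_cons, hγ]
      · refine ⟨i :: j :: m, List.isChain_cons_cons.mpr ⟨hij, hc⟩, fun x => ?_⟩
        change γ i (act γ (j :: m) x) = γ i (act γ l x)
        rw [h]

lemma zmod2_add_self (a : ZMod 2) : a + a = 0 := CharTwo.add_self_eq_zero a

lemma sg_eq_zero_of_flips (ε : I → X → ZMod 2) (l : List I) (x : X)
    (h : ∀ l1 i l2, l = l1 ++ i :: l2 → ε i (act γ l2 x) = 0) : sg γ ε l x = 0 := by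
  induction l with
  | nil => rfl
  | cons i l ih =>
    simp only [sg]
    rw [ih (fun l1 j l2 hl => h (i :: l1) j l2 (by rw [hl]; rfl)), h [] i l rfl, add_zero]

/-- indicator of `F i` -/
noncomputable def ind (F : I → Set X) (i : I) (x : X) : ZMod 2 :=
  open Classical in if x ∈ F i then 1 else 0

/-- the sum of a potential difference over a closed walk vanishes -/
lemma balanced [LinearOrder I] (hγ : ∀ i x, γ i (γ i x) = x) (F : I → Set X)
    (hF : ∀ l : List I, l.IsChain (· ≠ ·) → ∀ j ∈ l, ∀ x ∈ F j, act γ l x = x → γ j x = x)
    (n : ℕ) : ∀ l : List I, l.length ≤ n → ∀ x : X, act γ l x = x →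
      sg γ (fun i x => ind F i x + ind F i (γ i x)) l x = 0 := by
  set ε : I → X → ZMod 2 := fun i x => ind F i x + ind F i (γ i x) with hεdef
  have hε : ∀ i x, ε i (γ i x) = ε i x := by
    intro i x
    simp only [hεdef, hγ]
    ring
  induction n with
  | zero =>
    intro l hl x _
    have : l = [] := List.length_eq_zero_iff.mp (Nat.le_zero.mp hl)
    subst this
    rfl
  | succ n ih =>
    intro l hl x hx
    by_cases hc : l.IsChain (· ≠ ·)
    · -- a chain
      rcases List.eq_nil_or_concat l with hnil | ⟨m, k, hmk⟩
      · subst hnil; rfl
      · rw [List.concat_eq_append] at hmk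
        rcases m with _ | ⟨j, m⟩
        · -- a single letter
          rw [List.nil_append] at hmk
          subst hmk
          simp only [act_cons, act_nil] at hx
          simp only [sg, act_nil, hεdef, hx, zero_add]
          exact zmod2_add_self _
        · by_cases hjk : j = k
          · -- conjugation
            subst hjk
            subst hmk
            have h1 : act γ m (γ j x) = γ j x := by
              have := congrArg (γ j) hx
              simpa [act_append, hγ] using this
            have h2 := ih m (by simp at hl; omega) (γ j x) h1
            simp only [List.cons_append, sg, sg_append, act_append, act_cons, act_nil, h1, h2, hε]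
            have := zmod2_add_self (ε j x)
            linear_combination this
          · -- cyclically reduced
            have hhead : ∀ a ∈ l.getLast?, ∀ b ∈ l.head?, a ≠ b := by
              intro a ha b hb
              rw [hmk] at ha hb
              simp only [List.getLast?_append, List.getLast?_singleton, Option.some_or,
                Option.mem_def, Option.some.injEq] at ha
              simp only [List.cons_append, List.head?_cons, Option.mem_def,
                Option.some.injEq] at hb
              rw [← ha, ← hb]
              exact fun h => hjk h.symm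
            apply sg_eq_zero_of_flips
            intro l1 i l2 hsplit
            set y := act γ l2 x with hy
            have hc' := hc
            rw [hsplit] at hc'
            rw [List.isChain_split] at hc'
            obtain ⟨hcl1, hcl2⟩ := hc'
            have hcl2' : l2.IsChain (· ≠ ·) := hcl2.tail
            have hcl1' : l1.IsChain (· ≠ ·) := (List.isChain_append.mp hcl1).1
            have hx' : act γ l1 (γ i y) = x := by
              rw [hsplit, act_append, act_cons] at hx
              exact hx
            by_cases h1 : y ∈ F i
            · have hw : (l2 ++ (l1 ++ [i])).IsChain (· ≠ ·) := by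
                rw [List.isChain_append]
                refine ⟨hcl2', hcl1, ?_⟩
                intro a ha b hb
                apply hhead a _ b _
                · rw [hsplit, List.getLast?_append, List.getLast?_cons]
                  rw [Option.mem_def] at ha ⊢
                  simp [ha]
                · rw [hsplit]
                  rcases l1 with _ | ⟨q, l1⟩
                  · simpa using hb
                  · simpa using hb
              have hfix : act γ (l2 ++ (l1 ++ [i])) y = y := by
                rw [act_append, act_append, act_cons, act_nil, hx']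
              have := hF _ hw i (by simp) y h1 hfix
              simp only [hεdef, this]
              exact zmod2_add_self _
            · by_cases h2 : γ i y ∈ F i
              · have hw : ((i :: l2) ++ l1).IsChain (· ≠ ·) := by
                  rw [List.isChain_append]
                  refine ⟨hcl2, hcl1', ?_⟩
                  intro a ha b hb
                  apply hhead a _ b _
                  · rw [hsplit, List.getLast?_append]
                    rw [Option.mem_def] at ha ⊢
                    rw [ha]; rfl
                  · rw [hsplit]
                    rcases l1 with _ | ⟨q, l1⟩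
                    · simp at hb
                    · simpa using hb
                have hfix : act γ ((i :: l2) ++ l1) (γ i y) = γ i y := by
                  rw [act_append, hx', act_cons]
                have := hF _ hw i (by simp) (γ i y) h2 hfix
                rw [hγ] at this
                simp only [hεdef, ← this]
                exact zmod2_add_self _
              · simp [hεdef, ind, h1, h2]
    · -- not a chain
      rw [List.isChain_iff_forall_rel_of_append_cons_cons] at hc
      push Not at hc
      obtain ⟨a, b, l1, l2, hl', hab⟩ := hc
      subst hab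
      subst hl'
      have h1 : act γ (l1 ++ l2) x = x := by
        simpa [act_append, hγ] using hx
      have h2 := ih (l1 ++ l2) (by simp at hl ⊢; omega) x h1
      simp only [sg_append] at h2
      simp only [sg_append, sg, act_cons, hγ, hε]
      have := zmod2_add_self (ε a (act γ l2 x))
      linear_combination h2 + this

/-- existence of a potential -/
theorem exists_potential [LinearOrder I] (hγ : ∀ i x, γ i (γ i x) = x) (F : I → Set X)
    (hF : ∀ l : List I, l.IsChain (· ≠ ·) → ∀ j ∈ l, ∀ x ∈ F j, act γ l x = x → γ j x = x) :
    ∃ c : X → ZMod 2, ∀ i x, c (γ i x) = c x + (ind F i x + ind F i (γ i x)) := by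
  set ε : I → X → ZMod 2 := fun i x => ind F i x + ind F i (γ i x) with hεdef
  have hε : ∀ i x, ε i (γ i x) = ε i x := by
    intro i x
    simp only [hεdef, hγ]
    ring
  have hbal : ∀ l x, act γ l x = x → sg γ ε l x = 0 := fun l x hx =>
    balanced hγ F hF l.length l le_rfl x hx
  have hind : ∀ l l' x, act γ l x = act γ l' x → sg γ ε l x = sg γ ε l' x := by
    intro l l' x h
    have h1 : act γ (l'.reverse ++ l) x = x := by
      rw [act_append, h, act_reverse hγ]
    have h2 := hbal _ _ h1
    rw [sg_append, h, sg_reverse hγ ε hε] at h2
    have := zmod2_add_self (sg γ ε l' x)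
    linear_combination h2 - this
  let S : Setoid X :=
    { r := fun x y => ∃ l, act γ l x = y
      iseqv :=
        { refl := fun x => ⟨[], rfl⟩
          symm := by
            rintro x y ⟨l, rfl⟩
            exact ⟨l.reverse, act_reverse hγ l x⟩
          trans := by
            rintro x y z ⟨l, rfl⟩ ⟨l', rfl⟩
            exact ⟨l' ++ l, act_append γ l' l x⟩ } }
  have hrep : ∀ x : X, ∃ l, act γ l (Quotient.out (Quotient.mk S x)) = x := fun x =>
    Quotient.exact (Quotient.out_eq (Quotient.mk S x))
  choose L hL using hrep
  refine ⟨fun x => sg γ ε (L x) (Quotient.out (Quotient.mk S x)), ?_⟩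
  intro i x
  have hq : (Quotient.mk S (γ i x)) = Quotient.mk S x := by
    apply Quotient.sound
    exact ⟨[i], by simp [hγ]⟩
  have h1 := hL (γ i x)
  rw [hq] at h1
  have h2 : act γ (i :: L x) (Quotient.out (Quotient.mk S x)) = γ i x := by
    rw [act_cons, hL]
  have h3 := hind _ _ _ (h1.trans h2.symm)
  change sg γ ε (L (γ i x)) (Quotient.out (Quotient.mk S (γ i x))) = _
  rw [hq, h3]
  simp only [sg, hL, hεdef]

end walk

section apply

variable {I X : Type} [LinearOrder I] {γ : I → X → X}

lemma pr_act {v : I → ℝ × ℝ} {pr : X → Fin 3 → ℝ}
    (hpr : ∀ i x, pr (γ i x) = (rm (v i)).mulVec (pr x)) (l : List I) (x : X) :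
    pr (act γ l x) = (mat v l).mulVec (pr x) := by
  induction l with
  | nil => simp
  | cons i l ih => rw [act_cons, hpr, ih, mat_cons, mulVec_mulVec]

/-- the coloring theorem for generic reflections -/
theorem generic_potential (hγ : ∀ i x, γ i (γ i x) = x) {v : I → ℝ × ℝ} {pr : X → Fin 3 → ℝ}
    (hpr : ∀ i x, pr (γ i x) = (rm (v i)).mulVec (pr x))
    (hfix : ∀ i x, pr x = 0 → γ i x = x)
    (P : I → Set (Fin 3 → ℝ)) (hmono : Monotone P)
    (hgen : ∀ i : I, ∀ l : List I, l.IsChain (· ≠ ·) → i ∈ l → (∀ j ∈ l, j ≤ i) →
      ∀ p ∈ P i, ∀ p' ∈ P i, (mat v l).mulVec p ≠ p')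
    (F : I → Set X) (hFP : ∀ i, ∀ x ∈ F i, pr x ≠ 0 → pr x ∈ P i) :
    ∃ c : X → ZMod 2, ∀ i x, c (γ i x) = c x + (ind F i x + ind F i (γ i x)) := by
  apply exists_potential hγ F
  intro l hc j hj x hx hact
  by_cases h0 : pr x = 0
  · exact hfix j x h0
  · exfalso
    obtain ⟨m, hm, hmax⟩ : ∃ m ∈ l, ∀ j ∈ l, j ≤ m := by
      have hne' : l.toFinset.Nonempty := ⟨j, List.mem_toFinset.mpr hj⟩
      refine ⟨l.toFinset.max' hne', ?_, ?_⟩
      · exact List.mem_toFinset.mp (Finset.max'_mem _ _)
      · intro k hk
        exact Finset.le_max' _ _ (List.mem_toFinset.mpr hk)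
    have hmem : pr x ∈ P m := hmono (hmax j hj) (hFP j x hx h0)
    apply hgen m l hc hm hmax (pr x) hmem (pr x) hmem
    rw [← pr_act hpr, hact]

end apply

end Pool.Agent.V11158
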