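import Mathlib

namespace Pool.Agent.V11158.MagHom

/-- Formal integer combinations of `(k+1)`-tuples of vertices. -/
abbrev Chains (V : Type) (k : ℕ) : Type := (Fin (k + 1) → V) →₀ ℤ

section defs

variable {V : Type} (d : V → V → ℕ)

/-- The boundary `∑ i, (-1)^i ∂_i x` of a tuple `x = (x_0, …, x_{k+1})`, where `∂_i` (for
`i = 1, …, k`) deletes `x_i` if `d(x_{i-1}, x_{i+1}) = d(x_{i-1}, x_i) + d(x_i, x_{i+1})` and is
`0` otherwise. -/
noncomputable def bdGen (k : ℕ) (x : Fin (k + 2) → V) : Chains V k :=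
  ∑ i : Fin k,
    if d (x i.castSucc.castSucc) (x i.succ.succ) =
        d (x i.castSucc.castSucc) (x i.succ.castSucc) + d (x i.succ.castSucc) (x i.succ.succ)
    then Finsupp.single (x ∘ i.succ.castSucc.succAbove) ((-1) ^ ((i : ℕ) + 1)) else 0

/-- The differential on `(k+2)`-tuples, extended linearly. -/
noncomputable def bd (k : ℕ) : Chains V (k + 1) →ₗ[ℤ] Chains V k :=
  Finsupp.linearCombination ℤ (bdGen d k)

/-- The differential out of degree `k`. -/
noncomputable def bdFrom : (k : ℕ) → Chains V k →ₗ[ℤ] Chains V (k - 1)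
  | 0 => 0
  | k + 1 => bd d k

/-- `MC_{k,ℓ}`: combinations of tuples with distinct consecutive entries and total length `ℓ`. -/
def MC (k ℓ : ℕ) : Submodule ℤ (Chains V k) :=
  Finsupp.supported ℤ ℤ {x | (∀ i : Fin k, x i.castSucc ≠ x i.succ) ∧
    ∑ i : Fin k, d (x i.castSucc) (x i.succ) = ℓ}

/-- Cycles of bidegree `(k, ℓ)`. -/
noncomputable def cycles (k ℓ : ℕ) : Submodule ℤ (Chains V k) :=
  MC d k ℓ ⊓ LinearMap.ker (bdFrom d k)

/-- Boundaries of bidegree `(k, ℓ)`. -/
noncomputable def boundaries (k ℓ : ℕ) : Submodule ℤ (Chains V k) :=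
  (MC d (k + 1) ℓ).map (bd d k)

/-- Magnitude homology `MH_{k,ℓ}`. -/
abbrev MH (k ℓ : ℕ) : Type := cycles d k ℓ ⧸ (boundaries d k ℓ).submoduleOf (cycles d k ℓ)

/-- The magnitude Betti number `β_{k,ℓ}`: the rank of `MH_{k,ℓ}`. -/
noncomputable def betti (k ℓ : ℕ) : ℕ := Module.finrank ℤ (MH d k ℓ)

end defs

section lower

variable {V : Type} [Finite V] (d : V → V → ℕ)

/-- Lower bound for a Betti number from dual families of cycles and cocycles. -/
theorem card_le_betti (k ℓ : ℕ) {J : Type} [Fintype J] [DecidableEq J]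
    (z : J → Chains V k) (φ : J → (Fin (k + 1) → V) → ℤ) (hz : ∀ j, z j ∈ cycles d k ℓ)
    (hφ : ∀ j, ∀ x : Fin (k + 2) → V, (∀ i : Fin (k + 1), x i.castSucc ≠ x i.succ) →
      ∑ i : Fin (k + 1), d (x i.castSucc) (x i.succ) = ℓ →
      Finsupp.linearCombination ℤ (φ j) (bdGen d k x) = 0)
    (hp : ∀ i j, Finsupp.linearCombination ℤ (φ i) (z j) = if i = j then 1 else 0) :
    Fintype.card J ≤ betti d k ℓ := by
  have hker : ∀ j, (boundaries d k ℓ).submoduleOf (cycles d k ℓ) ≤
      LinearMap.ker ((Finsupp.linearCombination ℤ (φ j)).comp (cycles d k ℓ).subtype) := by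
    intro j x hx
    obtain ⟨y, hy, hyx⟩ := (show x.1 ∈ boundaries d k ℓ from hx)
    rw [LinearMap.mem_ker, LinearMap.comp_apply, Submodule.subtype_apply, ← hyx]
    have hle : MC d (k + 1) ℓ ≤
        LinearMap.ker ((Finsupp.linearCombination ℤ (φ j)).comp (bd d k)) := by
      unfold MC
      rw [Finsupp.supported_eq_span_single, Submodule.span_le]
      rintro _ ⟨w, hw, rfl⟩
      simp only [SetLike.mem_coe, LinearMap.mem_ker, LinearMap.comp_apply, bd,
        Finsupp.linearCombination_single, one_smul]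
      exact hφ j w hw.1 hw.2
    exact hle hy
  let Φ : J → (MH d k ℓ →ₗ[ℤ] ℤ) := fun j => Submodule.liftQ _ _ (hker j)
  let v : J → MH d k ℓ := fun j => Submodule.Quotient.mk ⟨z j, hz j⟩
  have hv : LinearIndependent ℤ v := by
    apply LinearIndependent.of_comp (LinearMap.pi Φ)
    have h1 : (LinearMap.pi Φ) ∘ v = fun j => Pi.single j (1 : ℤ) := by
      funext j i
      change (Finsupp.linearCombination ℤ (φ i)) (z j) = _
      rw [hp i j, Pi.single_apply]
    have h2 : (fun j => (Pi.single j (1 : ℤ) : J → ℤ)) = ⇑(Pi.basisFun ℤ J) := by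
      funext j
      rw [Pi.basisFun_apply]
    rw [h1, h2]
    exact (Pi.basisFun ℤ J).linearIndependent
  have : Module.Finite ℤ (MH d k ℓ) := by
    have : IsNoetherian ℤ (Chains V k) := inferInstance
    infer_instance
  exact hv.fintype_card_le_finrank

omit [Finite V] in
theorem betti_zero (hd : ∀ x y, d x y = 0 → x = y) [Fintype V] :
    betti d 0 0 = Fintype.card V := by
  have hc : cycles d 0 0 = ⊤ := by
    unfold cycles bdFrom MC
    rw [LinearMap.ker_zero, inf_top_eq]
    have : {x : Fin (0 + 1) → V | (∀ i : Fin 0, x i.castSucc ≠ x i.succ) ∧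
        ∑ i : Fin 0, d (x i.castSucc) (x i.succ) = 0} = Set.univ := by
      ext x; simp
    rw [this, Finsupp.supported_univ]
  have hb : boundaries d 0 0 = ⊥ := by
    unfold boundaries MC
    have : {x : Fin (0 + 1 + 1) → V | (∀ i : Fin (0 + 1), x i.castSucc ≠ x i.succ) ∧
        ∑ i : Fin (0 + 1), d (x i.castSucc) (x i.succ) = 0} = ∅ := by
      ext x
      simp only [Set.mem_ofPred_eq, Set.mem_empty_iff_false, iff_false, not_and]
      intro h1 h2
      apply h1 0
      apply hd
      simpa using h2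
    rw [this, Finsupp.supported_empty, Submodule.map_bot]
  have h0 : (boundaries d 0 0).submoduleOf (cycles d 0 0) = ⊥ := by
    rw [hb]
    exact (LinearMap.ker_eq_bot (f := (cycles d 0 0).subtype)).mpr Subtype.val_injective
  have e : MH d 0 0 ≃ₗ[ℤ] ((Fin (0 + 1) → V) →₀ ℤ) :=
    (Submodule.quotEquivOfEqBot _ h0).trans (LinearEquiv.ofTop _ hc)
  unfold betti
  rw [e.finrank_eq, Module.finrank_finsupp_self]
  simp

end lower

end Pool.Agent.V11158.MagHom
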