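import Mathlib
import Pool.Agent.V11158.MagHom

open Pool.Agent.V11158.MagHom

namespace Pool.Agent.V11158.House

/-- number of ones among the last six binary digits -/
def pc (x : ℕ) : ℕ :=
  (x &&& 1) + (x >>> 1 &&& 1) + (x >>> 2 &&& 1) + (x >>> 3 &&& 1) + (x >>> 4 &&& 1) +
    (x >>> 5 &&& 1)

lemma pc_tri : ∀ m < 64, ∀ m' < 64, pc m' ≤ pc m + pc (m ^^^ m') := by decide +kernel

lemma pc_sub : ∀ m < 64, ∀ m' < 64, pc m' = pc m + pc (m ^^^ m') → m &&& m' = m := by
  decide +kernel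

lemma pc_sub' : ∀ m < 64, ∀ m' < 64, m &&& m' = m → pc m' = pc m + pc (m ^^^ m') := by
  decide +kernel

lemma land_trans {a b c : ℕ} (h1 : a &&& b = a) (h2 : b &&& c = b) : a &&& c = a := by
  calc a &&& c = (a &&& b) &&& c := by rw [h1]
    _ = a &&& (b &&& c) := Nat.land_assoc _ _ _
    _ = a := by rw [h2, h1]

lemma land_mono {a b : ℕ} (w : ℕ) (h : a &&& b = a) : (a &&& w) &&& (b &&& w) = a &&& w := by
  calc (a &&& w) &&& (b &&& w) = (a &&& b) &&& w := by
        apply Nat.eq_of_testBit_eq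
        intro i
        simp only [Nat.testBit_and]
        cases a.testBit i <;> cases b.testBit i <;> cases w.testBit i <;> rfl
    _ = a &&& w := by rw [h]

lemma land_self' (a w : ℕ) : (a &&& w) &&& w = a &&& w := by
  apply Nat.eq_of_testBit_eq
  intro i
  simp only [Nat.testBit_and]
  cases a.testBit i <;> cases w.testBit i <;> rfl

lemma xor_xor (a b c : ℕ) : (a ^^^ b) ^^^ (a ^^^ c) = b ^^^ c := by
  apply Nat.eq_of_testBit_eq
  intro i
  simp only [Nat.testBit_xor]
  cases a.testBit i <;> cases b.testBit i <;> cases c.testBit i <;> rfl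

/-- covering relation of masks -/
def cov (p q : ℕ) : Bool :=
  (List.range 64).all fun v => !((p &&& v == p) && (v &&& q == v)) || (v == p || v == q)

lemma cov_spec {p q : ℕ} (h : cov p q = true) {v : ℕ} (hv : v < 64) (h1 : p &&& v = p)
    (h2 : v &&& q = v) : v = p ∨ v = q := by
  unfold cov at h
  rw [List.all_eq_true] at h
  have := h v (List.mem_range.mpr hv)
  simpa [h1, h2] using this

section cocycles

variable {V : Type} [DecidableEq V] (d : V → V → ℕ) (κ : V → ℕ)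

/-- cochain of the second kind -/
def phi2 (a b : V) (w1 w2 w3 wm : ℕ) (y : Fin 5 → V) : ℤ :=
  if y 0 = a ∧ y 4 = b ∧ (κ a ^^^ κ (y 1)) &&& wm = w1 ∧ (κ a ^^^ κ (y 2)) &&& wm = w2 ∧
    (κ a ^^^ κ (y 3)) &&& wm = w3 then 1 else 0

lemma bool_cancel : ∀ a1 a2 b2 b3 c3 c4 : Bool, (a2 → a1) → (b3 → a1 → (a2 ∨ b2)) →
    (c4 → b2 → (b3 ∨ c3)) → (c3 → c4) → ¬ (a2 ∧ b2) → ¬ (b3 ∧ c3) →
    (-(if a2 && b3 && c4 then 1 else 0) + (if a1 && b3 && c4 then 1 else 0)
      - (if a1 && b2 && c4 then 1 else 0) + (if a1 && b2 && c3 then 1 else 0) : ℤ) = 0 := by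
  intro a1 a2 b2 b3 c3 c4
  cases a1 <;> cases a2 <;> cases b2 <;> cases b3 <;> cases c3 <;> cases c4 <;> simp

variable {κ} {d}

omit [DecidableEq V] in
lemma bdGen_four (x : Fin 6 → V) : bdGen d 4 x =
    (if d (x 0) (x 2) = d (x 0) (x 1) + d (x 1) (x 2) then
      Finsupp.single ![x 0, x 2, x 3, x 4, x 5] (-1) else 0) +
    (if d (x 1) (x 3) = d (x 1) (x 2) + d (x 2) (x 3) then
      Finsupp.single ![x 0, x 1, x 3, x 4, x 5] 1 else 0) +
    (if d (x 2) (x 4) = d (x 2) (x 3) + d (x 3) (x 4) then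
      Finsupp.single ![x 0, x 1, x 2, x 4, x 5] (-1) else 0) +
    (if d (x 3) (x 5) = d (x 3) (x 4) + d (x 4) (x 5) then
      Finsupp.single ![x 0, x 1, x 2, x 3, x 5] 1 else 0) := by
  have e1 : x ∘ (0 : Fin 4).succ.castSucc.succAbove = ![x 0, x 2, x 3, x 4, x 5] := by
    funext i; fin_cases i <;> rfl
  have e2 : x ∘ (1 : Fin 4).succ.castSucc.succAbove = ![x 0, x 1, x 3, x 4, x 5] := by
    funext i; fin_cases i <;> rfl
  have e3 : x ∘ (2 : Fin 4).succ.castSucc.succAbove = ![x 0, x 1, x 2, x 4, x 5] := by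
    funext i; fin_cases i <;> rfl
  have e4 : x ∘ (3 : Fin 4).succ.castSucc.succAbove = ![x 0, x 1, x 2, x 3, x 5] := by
    funext i; fin_cases i <;> rfl
  unfold bdGen
  rw [Fin.sum_univ_four, e1, e2, e3, e4]
  congr 1

lemma cocycle2 (hlt : ∀ v, κ v < 64) (hd : ∀ u v, d u v = pc (κ u ^^^ κ v)) {a b : V}
    {w1 w2 w3 wm : ℕ} (hab : κ a ^^^ κ b = 63) (c1 : cov 0 w1 = true) (c2 : cov w1 w2 = true)
    (c3 : cov w2 w3 = true) (c4 : cov w3 wm = true) (n1 : w1 ≠ w2) (n2 : w2 ≠ w3)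
    (hlow : ∀ u, u ≠ a → (κ a ^^^ κ u) &&& wm ≠ 0)
    (hhigh : ∀ u, u ≠ b → (κ a ^^^ κ u) &&& wm ≠ wm)
    (x : Fin 6 → V) (hx : ∀ i : Fin 5, x i.castSucc ≠ x i.succ)
    (hl : ∑ i : Fin 5, d (x i.castSucc) (x i.succ) = 6) :
    Finsupp.linearCombination ℤ (phi2 κ a b w1 w2 w3 wm) (bdGen d 4 x) = 0 := by
  by_cases h0 : x 0 = a ∧ x 5 = b
  · obtain ⟨ha, hb⟩ := h0
    set m : Fin 6 → ℕ := fun i => κ a ^^^ κ (x i) with hm
    have hm0 : m 0 = 0 := by simp only [hm, ha, Nat.xor_self]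
    have hm5 : m 5 = 63 := by simp only [hm, hb, hab]
    have hmlt : ∀ i, m i < 64 := fun i => Nat.xor_lt_two_pow (n := 6) (hlt _) (hlt _)
    have hdm : ∀ i j, d (x i) (x j) = pc (m i ^^^ m j) := by
      intro i j
      rw [hd, hm, xor_xor]
    have hl' : d (x 0) (x 1) + d (x 1) (x 2) + d (x 2) (x 3) + d (x 3) (x 4) + d (x 4) (x 5) = 6 := by
      have := hl
      rw [Fin.sum_univ_five] at this
      exact this
    simp only [hdm] at hl'
    have t0 := pc_tri _ (hmlt 0) _ (hmlt 1)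
    have t1 := pc_tri _ (hmlt 1) _ (hmlt 2)
    have t2 := pc_tri _ (hmlt 2) _ (hmlt 3)
    have t3 := pc_tri _ (hmlt 3) _ (hmlt 4)
    have t4 := pc_tri _ (hmlt 4) _ (hmlt 5)
    have e0 : pc (m 0) = 0 := by rw [hm0]; rfl
    have e5 : pc (m 5) = 6 := by rw [hm5]; rfl
    have u0 := pc_sub _ (hmlt 0) _ (hmlt 1) (by omega)
    have u1 := pc_sub _ (hmlt 1) _ (hmlt 2) (by omega)
    have u2 := pc_sub _ (hmlt 2) _ (hmlt 3) (by omega)
    have u3 := pc_sub _ (hmlt 3) _ (hmlt 4) (by omega)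
    have u4 := pc_sub _ (hmlt 4) _ (hmlt 5) (by omega)
    have v0 := pc_sub' _ (hmlt 0) _ (hmlt 2) (land_trans u0 u1)
    have v1 := pc_sub' _ (hmlt 1) _ (hmlt 3) (land_trans u1 u2)
    have v2 := pc_sub' _ (hmlt 2) _ (hmlt 4) (land_trans u2 u3)
    have v3 := pc_sub' _ (hmlt 3) _ (hmlt 5) (land_trans u3 u4)
    rw [bdGen_four, if_pos (by rw [hdm, hdm, hdm]; omega), if_pos (by rw [hdm, hdm, hdm]; omega),
      if_pos (by rw [hdm, hdm, hdm]; omega), if_pos (by rw [hdm, hdm, hdm]; omega)]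
    simp only [map_add, Finsupp.linearCombination_single]
    have x01 : x 0 ≠ x 1 := hx 0
    have x45 : x 4 ≠ x 5 := hx 4
    have l1 : m 1 &&& wm ≠ 0 := hlow _ (fun h => x01 (ha.trans h.symm))
    have g4 : m 4 &&& wm ≠ wm := hhigh _ (fun h => x45 (h.trans hb.symm))
    have hwlt : ∀ i, m i &&& wm < 64 := fun i => lt_of_le_of_lt Nat.and_le_left (hmlt i)
    have key := bool_cancel (decide (m 1 &&& wm = w1)) (decide (m 2 &&& wm = w1))
      (decide (m 2 &&& wm = w2)) (decide (m 3 &&& wm = w2)) (decide (m 3 &&& wm = w3))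
      (decide (m 4 &&& wm = w3)) (by
        simp only [decide_eq_true_eq]
        intro h
        have := land_mono wm u1
        rw [h] at this
        rcases cov_spec c1 (hwlt 1) (by simp) this with h' | h'
        · exact absurd h' l1
        · exact h') (by
        simp only [decide_eq_true_eq]
        intro h3 h1
        have p1 := land_mono wm u1
        have p2 := land_mono wm u2
        rw [h1] at p1
        rw [h3] at p2
        exact cov_spec c2 (hwlt 2) p1 p2) (by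
        simp only [decide_eq_true_eq]
        intro h4 h2
        have p1 := land_mono wm u2
        have p2 := land_mono wm u3
        rw [h2] at p1
        rw [h4] at p2
        exact cov_spec c3 (hwlt 3) p1 p2) (by
        simp only [decide_eq_true_eq]
        intro h
        have p1 := land_mono wm u3
        rw [h] at p1
        rcases cov_spec c4 (hwlt 4) p1 (land_self' _ _) with h' | h'
        · exact h'
        · exact absurd h' g4) (by
        simp only [decide_eq_true_eq]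
        exact fun h => n1 (h.1.symm.trans h.2)) (by
        simp only [decide_eq_true_eq]
        exact fun h => n2 (h.1.symm.trans h.2))
    simp only [Bool.and_eq_true, decide_eq_true_eq] at key
    simp only [phi2, Matrix.cons_val_zero, Matrix.cons_val_one, Matrix.cons_val, ha, hb, true_and,
      smul_eq_mul]
    refine Eq.trans ?_ key
    simp only [hm, and_assoc]
    ring
  · rw [bdGen_four]
    have hz : ∀ (u v w : V) (c : ℤ), Finsupp.linearCombination ℤ (phi2 κ a b w1 w2 w3 wm)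
        (Finsupp.single ![x 0, u, v, w, x 5] c) = 0 := by
      intro u v w c
      rw [Finsupp.linearCombination_single]
      have : phi2 κ a b w1 w2 w3 wm ![x 0, u, v, w, x 5] = 0 := by
        unfold phi2
        rw [if_neg]
        rintro ⟨h1, h2, -⟩
        exact h0 ⟨h1, h2⟩
      rw [this, smul_zero]
    simp only [map_add, apply_ite (Finsupp.linearCombination ℤ (phi2 κ a b w1 w2 w3 wm)), hz,
      map_zero, ite_self, add_zero]

/-! ### cells of the first kind -/

/-- A two-dimensional cell. -/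
structure Cell1 (κ : V → ℕ) where
  a : V
  b : V
  u : V
  v : V
  bx : ℕ
  wm : ℕ
  hb : κ a ^^^ κ b = 56
  hu : (κ a ^^^ κ u) &&& 56 = κ a ^^^ κ u
  hv : (κ a ^^^ κ v) &&& 56 = κ a ^^^ κ v
  pu : pc (κ a ^^^ κ u) = 1
  pv : pc (κ a ^^^ κ v) = 1
  wu : (κ a ^^^ κ u) &&& wm = bx
  wv : (κ a ^^^ κ v) &&& wm ≠ bx
  huv : pc (κ u ^^^ κ v) = 2
  c1 : cov 0 bx = true
  c2 : cov bx wm = true
  low : ∀ x, (κ a ^^^ κ x) &&& 56 = κ a ^^^ κ x → x ≠ a → (κ a ^^^ κ x) &&& wm ≠ 0
  high : ∀ x, (κ a ^^^ κ x) &&& 56 = κ a ^^^ κ x → x ≠ b → (κ a ^^^ κ x) &&& wm ≠ wm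

/-- The points on the first side of a cell. -/
def Cell1.side (c : Cell1 κ) (x : V) : Prop :=
  (κ c.a ^^^ κ x) &&& 56 = κ c.a ^^^ κ x ∧ (κ c.a ^^^ κ x) &&& c.wm = c.bx

instance (c : Cell1 κ) (x : V) : Decidable (c.side x) := by unfold Cell1.side; infer_instance

/-- cochain of the first kind -/
def phi1 (c : Cell1 κ) (y : Fin 5 → V) : ℤ :=
  if y 0 = c.a ∧ y 2 = c.b ∧ y 4 = c.a ∧ c.side (y 1) ∧ c.side (y 3) then 1 else 0

/-- cycle of the first kind -/
noncomputable def z1 (c : Cell1 κ) : Chains V 4 :=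
  Finsupp.single ![c.a, c.u, c.b, c.u, c.a] 1 + Finsupp.single ![c.a, c.v, c.b, c.u, c.a] (-1) +
    Finsupp.single ![c.a, c.u, c.b, c.v, c.a] (-1) + Finsupp.single ![c.a, c.v, c.b, c.v, c.a] 1

omit [DecidableEq V] in
lemma up (hlt : ∀ v, κ v < 64) (c : Cell1 κ) {x y : V} (hy : c.side y) (hx : x ≠ c.a)
    (h : pc (κ c.a ^^^ κ y) = pc (κ c.a ^^^ κ x) + pc (κ x ^^^ κ y)) : c.side x := by
  have hl : ∀ v, κ c.a ^^^ κ v < 64 := fun v => Nat.xor_lt_two_pow (n := 6) (hlt _) (hlt _)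
  have h1 := pc_sub _ (hl x) _ (hl y) (by rw [xor_xor]; exact h)
  have h2 : (κ c.a ^^^ κ x) &&& 56 = κ c.a ^^^ κ x := land_trans h1 hy.1
  refine ⟨h2, ?_⟩
  have h3 := land_mono c.wm h1
  rw [hy.2] at h3
  rcases cov_spec c.c1 (lt_of_le_of_lt Nat.and_le_left (hl x)) (by simp) h3 with h4 | h4
  · exact absurd h4 (c.low x h2 hx)
  · exact h4

omit [DecidableEq V] in
lemma down (hlt : ∀ v, κ v < 64) (c : Cell1 κ) {x y : V} (hx : c.side x) (hy : y ≠ c.b)
    (h : pc (κ x ^^^ κ c.b) = pc (κ x ^^^ κ y) + pc (κ y ^^^ κ c.b)) :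
    c.side y ∧ pc (κ c.a ^^^ κ y) = pc (κ c.a ^^^ κ x) + pc (κ x ^^^ κ y) := by
  have hl : ∀ v, κ c.a ^^^ κ v < 64 := fun v => Nat.xor_lt_two_pow (n := 6) (hlt _) (hlt _)
  have e : pc (κ c.a ^^^ κ c.b) = 3 := by rw [c.hb]; rfl
  have t1 := pc_tri _ (hl x) _ (hl y)
  have t2 := pc_tri _ (hl y) _ (hl c.b)
  have t3 := pc_sub' _ (hl x) _ (hl c.b) (by rw [c.hb]; exact hx.1)
  rw [xor_xor] at t1 t2 t3
  have h1 := pc_sub _ (hl x) _ (hl y) (by rw [xor_xor]; omega)
  have h2 := pc_sub _ (hl y) _ (hl c.b) (by rw [xor_xor]; omega)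
  rw [c.hb] at h2
  refine ⟨⟨h2, ?_⟩, by omega⟩
  have h3 := land_mono c.wm h1
  rw [hx.2] at h3
  rcases cov_spec c.c2 (lt_of_le_of_lt Nat.and_le_left (hl y)) h3 (land_self' _ _) with h4 | h4
  · exact h4
  · exact absurd h4 (c.high y h2 hy)

omit [DecidableEq V] in
lemma pc_comm (x y : V) : pc (κ x ^^^ κ y) = pc (κ y ^^^ κ x) := by rw [Nat.xor_comm]

lemma cocycle1 (hlt : ∀ v, κ v < 64) (hd : ∀ u v, d u v = pc (κ u ^^^ κ v)) (c : Cell1 κ)
    (x : Fin 6 → V) (hx : ∀ i : Fin 5, x i.castSucc ≠ x i.succ) :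
    Finsupp.linearCombination ℤ (phi1 c) (bdGen d 4 x) = 0 := by
  have hl : ∀ v, κ c.a ^^^ κ v < 64 := fun v => Nat.xor_lt_two_pow (n := 6) (hlt _) (hlt _)
  have hab : pc (κ c.a ^^^ κ c.b) = 3 := by rw [c.hb]; rfl
  have x01 : x 0 ≠ x 1 := hx 0
  have x23 : x 2 ≠ x 3 := hx 2
  have x45 : x 4 ≠ x 5 := hx 4
  have hside : ∀ y, c.side y → pc (κ c.a ^^^ κ c.b) = pc (κ c.a ^^^ κ y) + pc (κ y ^^^ κ c.b) := by
    intro y hy
    have := pc_sub' _ (hl y) _ (hl c.b) (by rw [c.hb]; exact hy.1)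
    rwa [xor_xor] at this
  have h12 : (d (x 0) (x 2) = d (x 0) (x 1) + d (x 1) (x 2) ∧
      (x 0 = c.a ∧ x 3 = c.b ∧ x 5 = c.a ∧ c.side (x 2) ∧ c.side (x 4))) ↔
      (d (x 1) (x 3) = d (x 1) (x 2) + d (x 2) (x 3) ∧
      (x 0 = c.a ∧ x 3 = c.b ∧ x 5 = c.a ∧ c.side (x 1) ∧ c.side (x 4))) := by
    constructor
    · rintro ⟨hs, h0, h3, h5, h2, h4⟩
      rw [h0, hd, hd, hd] at hs
      have h1 : c.side (x 1) := up hlt c h2 (fun h => x01 (h0.trans h.symm)) hs
      refine ⟨?_, h0, h3, h5, h1, h4⟩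
      rw [h3, hd, hd, hd]
      have e1 := hside _ h1
      have e2 := hside _ h2
      omega
    · rintro ⟨hs, h0, h3, h5, h1, h4⟩
      rw [h3, hd, hd, hd] at hs
      obtain ⟨h2, h2'⟩ := down hlt c h1 (fun h => x23 (h.trans h3.symm)) hs
      refine ⟨?_, h0, h3, h5, h2, h4⟩
      rw [h0, hd, hd, hd]
      exact h2'
  have h34 : (d (x 2) (x 4) = d (x 2) (x 3) + d (x 3) (x 4) ∧
      (x 0 = c.a ∧ x 2 = c.b ∧ x 5 = c.a ∧ c.side (x 1) ∧ c.side (x 4))) ↔
      (d (x 3) (x 5) = d (x 3) (x 4) + d (x 4) (x 5) ∧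
      (x 0 = c.a ∧ x 2 = c.b ∧ x 5 = c.a ∧ c.side (x 1) ∧ c.side (x 3))) := by
    constructor
    · rintro ⟨hs, h0, h2, h5, h1, h4⟩
      rw [h2, hd, hd, hd] at hs
      have q1 := pc_comm (κ := κ) c.b (x 4)
      have q2 := pc_comm (κ := κ) c.b (x 3)
      have q3 := pc_comm (κ := κ) (x 3) (x 4)
      have q4 := pc_comm (κ := κ) c.a (x 4)
      have q5 := pc_comm (κ := κ) c.a (x 3)
      obtain ⟨h3, h3'⟩ := down hlt c h4 (fun h => x23 (h2.trans h.symm)) (by omega)
      refine ⟨?_, h0, h2, h5, h1, h3⟩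
      rw [h5, hd, hd, hd]
      omega
    · rintro ⟨hs, h0, h2, h5, h1, h3⟩
      rw [h5, hd, hd, hd] at hs
      have q1 := pc_comm (κ := κ) c.b (x 4)
      have q2 := pc_comm (κ := κ) c.b (x 3)
      have q3 := pc_comm (κ := κ) (x 3) (x 4)
      have q4 := pc_comm (κ := κ) c.a (x 4)
      have q5 := pc_comm (κ := κ) c.a (x 3)
      have h4 : c.side (x 4) := up hlt c h3 (fun h => x45 (h.trans h5.symm)) (by omega)
      refine ⟨?_, h0, h2, h5, h1, h4⟩
      rw [h2, hd, hd, hd]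
      have e1 := hside _ h3
      have e2 := hside _ h4
      omega
  have hlc : ∀ (s : Prop) [Decidable s] (y0 y1 y2 y3 y4 : V) (k : ℤ),
      Finsupp.linearCombination ℤ (phi1 c)
        (if s then Finsupp.single ![y0, y1, y2, y3, y4] k else 0) =
      k * (if s ∧ (y0 = c.a ∧ y2 = c.b ∧ y4 = c.a ∧ c.side y1 ∧ c.side y3) then 1 else 0) := by
    intro s _ y0 y1 y2 y3 y4 k
    by_cases hs : s
    · simp only [hs, if_true, true_and, Finsupp.linearCombination_single, smul_eq_mul]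
      rfl
    · simp [hs]
  rw [bdGen_four, map_add, map_add, map_add, hlc, hlc, hlc, hlc]
  rw [if_congr h12 rfl rfl, if_congr h34 rfl rfl]
  ring

/-! ### cycles -/

omit [DecidableEq V] in
lemma bdGen_three (x : Fin 5 → V) : bdGen d 3 x =
    (if d (x 0) (x 2) = d (x 0) (x 1) + d (x 1) (x 2) then
      Finsupp.single ![x 0, x 2, x 3, x 4] (-1) else 0) +
    (if d (x 1) (x 3) = d (x 1) (x 2) + d (x 2) (x 3) then
      Finsupp.single ![x 0, x 1, x 3, x 4] 1 else 0) +
    (if d (x 2) (x 4) = d (x 2) (x 3) + d (x 3) (x 4) then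
      Finsupp.single ![x 0, x 1, x 2, x 4] (-1) else 0) := by
  have e1 : x ∘ (0 : Fin 3).succ.castSucc.succAbove = ![x 0, x 2, x 3, x 4] := by
    funext i; fin_cases i <;> rfl
  have e2 : x ∘ (1 : Fin 3).succ.castSucc.succAbove = ![x 0, x 1, x 3, x 4] := by
    funext i; fin_cases i <;> rfl
  have e3 : x ∘ (2 : Fin 3).succ.castSucc.succAbove = ![x 0, x 1, x 2, x 4] := by
    funext i; fin_cases i <;> rfl
  unfold bdGen
  rw [Fin.sum_univ_three, e1, e2, e3]
  congr 1

omit [DecidableEq V] in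
lemma bdGen_three' (p0 p1 p2 p3 p4 : V) : bdGen d 3 ![p0, p1, p2, p3, p4] =
    (if d p0 p2 = d p0 p1 + d p1 p2 then Finsupp.single ![p0, p2, p3, p4] (-1) else 0) +
    (if d p1 p3 = d p1 p2 + d p2 p3 then Finsupp.single ![p0, p1, p3, p4] 1 else 0) +
    (if d p2 p4 = d p2 p3 + d p3 p4 then Finsupp.single ![p0, p1, p2, p4] (-1) else 0) :=
  bdGen_three _

omit [DecidableEq V] in
lemma mem_MC {p0 p1 p2 p3 p4 : V} (k : ℤ) (h0 : p0 ≠ p1) (h1 : p1 ≠ p2) (h2 : p2 ≠ p3)
    (h3 : p3 ≠ p4) (h : d p0 p1 + d p1 p2 + d p2 p3 + d p3 p4 = 6) :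
    Finsupp.single ![p0, p1, p2, p3, p4] k ∈ MC d 4 6 := by
  unfold MC
  apply Finsupp.single_mem_supported
  refine ⟨?_, ?_⟩
  · intro i
    fin_cases i
    · exact h0
    · exact h1
    · exact h2
    · exact h3
  · rw [Fin.sum_univ_four]
    exact h

omit [DecidableEq V] in
lemma z1_mem (hd : ∀ u v, d u v = pc (κ u ^^^ κ v)) (hlt : ∀ v, κ v < 64) (c : Cell1 κ) :
    z1 c ∈ cycles d 4 6 := by
  have hl : ∀ v, κ c.a ^^^ κ v < 64 := fun v => Nat.xor_lt_two_pow (n := 6) (hlt _) (hlt _)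
  have hab : pc (κ c.a ^^^ κ c.b) = 3 := by rw [c.hb]; rfl
  have hub : pc (κ c.a ^^^ κ c.b) = pc (κ c.a ^^^ κ c.u) + pc (κ c.u ^^^ κ c.b) := by
    have := pc_sub' _ (hl c.u) _ (hl c.b) (by rw [c.hb]; exact c.hu)
    rwa [xor_xor] at this
  have hvb : pc (κ c.a ^^^ κ c.b) = pc (κ c.a ^^^ κ c.v) + pc (κ c.v ^^^ κ c.b) := by
    have := pc_sub' _ (hl c.v) _ (hl c.b) (by rw [c.hb]; exact c.hv)
    rwa [xor_xor] at this
  have pu := c.pu
  have pv := c.pv
  have dau : d c.a c.u = 1 := by rw [hd, pu]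
  have dua : d c.u c.a = 1 := by rw [hd, pc_comm, pu]
  have dav : d c.a c.v = 1 := by rw [hd, pv]
  have dva : d c.v c.a = 1 := by rw [hd, pc_comm, pv]
  have dub : d c.u c.b = 2 := by rw [hd]; omega
  have dbu : d c.b c.u = 2 := by rw [hd, pc_comm]; omega
  have dvb : d c.v c.b = 2 := by rw [hd]; omega
  have dbv : d c.b c.v = 2 := by rw [hd, pc_comm]; omega
  have dab : d c.a c.b = 3 := by rw [hd, hab]
  have dba : d c.b c.a = 3 := by rw [hd, pc_comm, hab]
  have duv : d c.u c.v = 2 := by rw [hd, c.huv]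
  have dvu : d c.v c.u = 2 := by rw [hd, pc_comm, c.huv]
  have duu : ∀ x, d x x = 0 := by intro x; rw [hd, Nat.xor_self]; rfl
  have hne : ∀ {x y : V}, d x y ≠ 0 → x ≠ y := by
    intro x y h h'
    rw [h', duu] at h
    exact h rfl
  refine ⟨?_, ?_⟩
  · unfold z1
    refine add_mem (add_mem (add_mem ?_ ?_) ?_) ?_
    · exact mem_MC _ (hne (by omega)) (hne (by omega)) (hne (by omega)) (hne (by omega)) (by omega)
    · exact mem_MC _ (hne (by omega)) (hne (by omega)) (hne (by omega)) (hne (by omega)) (by omega)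
    · exact mem_MC _ (hne (by omega)) (hne (by omega)) (hne (by omega)) (hne (by omega)) (by omega)
    · exact mem_MC _ (hne (by omega)) (hne (by omega)) (hne (by omega)) (hne (by omega)) (by omega)
  · rw [SetLike.mem_coe, LinearMap.mem_ker]
    change bd d 3 (z1 c) = 0
    unfold z1 bd
    simp only [map_add, Finsupp.linearCombination_single, bdGen_three', dau, dua, dav, dva, dub,
      dbu, dvb, dbv, dab, dba, duv, dvu, duu]
    simp
    abel

lemma phi1_z1 (c : Cell1 κ) : Finsupp.linearCombination ℤ (phi1 c) (z1 c) = 1 := by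
  have su : c.side c.u := ⟨c.hu, c.wu⟩
  have sv : ¬ c.side c.v := fun h => c.wv h.2
  unfold z1 phi1
  simp only [map_add, Finsupp.linearCombination_single, Matrix.cons_val_zero,
      Matrix.cons_val_one, Matrix.cons_val, su, sv]
  simp

lemma phi1_z1_ne (c c' : Cell1 κ) (h : c.a ≠ c'.a) :
    Finsupp.linearCombination ℤ (phi1 c) (z1 c') = 0 := by
  unfold z1 phi1
  simp only [map_add, Finsupp.linearCombination_single, Matrix.cons_val_zero,
      Matrix.cons_val_one, Matrix.cons_val, h.symm]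
  simp

/-! ### cells of the second kind -/

/-- A four-dimensional simplicial cell. -/
structure Cell2 (κ : V → ℕ) where
  P : ℕ → V
  w1 : ℕ
  w2 : ℕ
  w3 : ℕ
  wm : ℕ
  hab : κ (P 0) ^^^ κ (P 15) = 63
  sub : ∀ T < 16, ∀ T' < 16, T &&& T' = T →
    (κ (P 0) ^^^ κ (P T)) &&& (κ (P 0) ^^^ κ (P T')) = κ (P 0) ^^^ κ (P T)
  ne : ∀ T < 16, ∀ T' < 16, T ≠ T' → P T ≠ P T'
  c1 : cov 0 w1 = true
  c2 : cov w1 w2 = true
  c3 : cov w2 w3 = true
  c4 : cov w3 wm = true
  n1 : w1 ≠ w2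
  n2 : w2 ≠ w3
  low : ∀ x, x ≠ P 0 → (κ (P 0) ^^^ κ x) &&& wm ≠ 0
  high : ∀ x, x ≠ P 15 → (κ (P 0) ^^^ κ x) &&& wm ≠ wm
  W1 : ∀ T < 16, ((κ (P 0) ^^^ κ (P T)) &&& wm = w1 ↔ T = 1)
  W2 : ∀ T < 16, ((κ (P 0) ^^^ κ (P T)) &&& wm = w2 ↔ T = 3)
  W3 : ∀ T < 16, ((κ (P 0) ^^^ κ (P T)) &&& wm = w3 ↔ T = 7)

/-- cycle of the second kind -/
noncomputable def z2 (P : ℕ → V) : Chains V 4 :=
    Finsupp.single ![P 0, P 1, P 3, P 7, P 15] (1) +
    Finsupp.single ![P 0, P 1, P 3, P 11, P 15] (-1) +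
    Finsupp.single ![P 0, P 1, P 5, P 7, P 15] (-1) +
    Finsupp.single ![P 0, P 1, P 5, P 13, P 15] (1) +
    Finsupp.single ![P 0, P 1, P 9, P 11, P 15] (1) +
    Finsupp.single ![P 0, P 1, P 9, P 13, P 15] (-1) +
    Finsupp.single ![P 0, P 2, P 3, P 7, P 15] (-1) +
    Finsupp.single ![P 0, P 2, P 3, P 11, P 15] (1) +
    Finsupp.single ![P 0, P 2, P 6, P 7, P 15] (1) +
    Finsupp.single ![P 0, P 2, P 6, P 14, P 15] (-1) +
    Finsupp.single ![P 0, P 2, P 10, P 11, P 15] (-1) +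
    Finsupp.single ![P 0, P 2, P 10, P 14, P 15] (1) +
    Finsupp.single ![P 0, P 4, P 5, P 7, P 15] (1) +
    Finsupp.single ![P 0, P 4, P 5, P 13, P 15] (-1) +
    Finsupp.single ![P 0, P 4, P 6, P 7, P 15] (-1) +
    Finsupp.single ![P 0, P 4, P 6, P 14, P 15] (1) +
    Finsupp.single ![P 0, P 4, P 12, P 13, P 15] (1) +
    Finsupp.single ![P 0, P 4, P 12, P 14, P 15] (-1) +
    Finsupp.single ![P 0, P 8, P 9, P 11, P 15] (-1) +
    Finsupp.single ![P 0, P 8, P 9, P 13, P 15] (1) +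
    Finsupp.single ![P 0, P 8, P 10, P 11, P 15] (1) +
    Finsupp.single ![P 0, P 8, P 10, P 14, P 15] (-1) +
    Finsupp.single ![P 0, P 8, P 12, P 13, P 15] (-1) +
    Finsupp.single ![P 0, P 8, P 12, P 14, P 15] (1)

/-- a maximal flag -/
structure Flag (T1 T2 T3 : ℕ) : Prop where
  l1 : T1 < 16
  l2 : T2 < 16
  l3 : T3 < 16
  h12 : T1 &&& T2 = T1
  h23 : T2 &&& T3 = T2
  n0 : 0 ≠ T1
  n1 : T1 ≠ T2
  n2 : T2 ≠ T3
  n3 : T3 ≠ 15

omit [DecidableEq V] in
lemma flag_dist (hd : ∀ u v, d u v = pc (κ u ^^^ κ v)) (hlt : ∀ v, κ v < 64) (c : Cell2 κ)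
    {T T' : ℕ} (h1 : T < 16) (h2 : T' < 16) (h : T &&& T' = T) :
    d (c.P 0) (c.P T') = d (c.P 0) (c.P T) + d (c.P T) (c.P T') := by
  have hl : ∀ v, κ (c.P 0) ^^^ κ v < 64 := fun v => Nat.xor_lt_two_pow (n := 6) (hlt _) (hlt _)
  have := pc_sub' _ (hl (c.P T)) _ (hl (c.P T')) (c.sub T h1 T' h2 h)
  rw [xor_xor] at this
  rw [hd, hd, hd, this]

lemma land15 : ∀ T < 16, T &&& 15 = T := by decide

omit [DecidableEq V] in
lemma flag_bd (hd : ∀ u v, d u v = pc (κ u ^^^ κ v)) (hlt : ∀ v, κ v < 64) (c : Cell2 κ)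
    {T1 T2 T3 : ℕ} (h : Flag T1 T2 T3) :
    bdGen d 3 ![c.P 0, c.P T1, c.P T2, c.P T3, c.P 15] =
      Finsupp.single ![c.P 0, c.P T2, c.P T3, c.P 15] (-1) +
      Finsupp.single ![c.P 0, c.P T1, c.P T3, c.P 15] 1 +
      Finsupp.single ![c.P 0, c.P T1, c.P T2, c.P 15] (-1) := by
  have e1 := flag_dist hd hlt c h.l1 h.l2 h.h12
  have e2 := flag_dist hd hlt c h.l2 h.l3 h.h23
  have e3 := flag_dist hd hlt c h.l1 h.l3 (land_trans h.h12 h.h23)
  have e4 := flag_dist hd hlt c h.l3 (by norm_num : 15 < 16) (land15 _ h.l3)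
  have e5 := flag_dist hd hlt c h.l2 (by norm_num : 15 < 16) (land15 _ h.l2)
  rw [bdGen_three', if_pos e1, if_pos (by omega), if_pos (by omega)]

omit [DecidableEq V] in
lemma flag_mem (hd : ∀ u v, d u v = pc (κ u ^^^ κ v)) (hlt : ∀ v, κ v < 64) (c : Cell2 κ)
    {T1 T2 T3 : ℕ} (h : Flag T1 T2 T3) (k : ℤ) :
    Finsupp.single ![c.P 0, c.P T1, c.P T2, c.P T3, c.P 15] k ∈ MC d 4 6 := by
  have e1 := flag_dist hd hlt c h.l1 h.l2 h.h12
  have e2 := flag_dist hd hlt c h.l2 h.l3 h.h23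
  have e4 := flag_dist hd hlt c h.l3 (by norm_num : 15 < 16) (land15 _ h.l3)
  have e6 : d (c.P 0) (c.P 15) = 6 := by rw [hd, c.hab]; rfl
  apply mem_MC
  · exact c.ne _ (by norm_num) _ h.l1 h.n0
  · exact c.ne _ h.l1 _ h.l2 h.n1
  · exact c.ne _ h.l2 _ h.l3 h.n2
  · exact c.ne _ h.l3 _ (by norm_num) h.n3
  · omega

omit [DecidableEq V] in
lemma z2_mem (hd : ∀ u v, d u v = pc (κ u ^^^ κ v)) (hlt : ∀ v, κ v < 64) (c : Cell2 κ) :
    z2 c.P ∈ cycles d 4 6 := by
  refine ⟨?_, ?_⟩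
  · unfold z2
    have m0 := flag_mem hd hlt c (show Flag 1 3 7 from by constructor <;> decide) (1)
    have m1 := flag_mem hd hlt c (show Flag 1 3 11 from by constructor <;> decide) (-1)
    have m2 := flag_mem hd hlt c (show Flag 1 5 7 from by constructor <;> decide) (-1)
    have m3 := flag_mem hd hlt c (show Flag 1 5 13 from by constructor <;> decide) (1)
    have m4 := flag_mem hd hlt c (show Flag 1 9 11 from by constructor <;> decide) (1)
    have m5 := flag_mem hd hlt c (show Flag 1 9 13 from by constructor <;> decide) (-1)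
    have m6 := flag_mem hd hlt c (show Flag 2 3 7 from by constructor <;> decide) (-1)
    have m7 := flag_mem hd hlt c (show Flag 2 3 11 from by constructor <;> decide) (1)
    have m8 := flag_mem hd hlt c (show Flag 2 6 7 from by constructor <;> decide) (1)
    have m9 := flag_mem hd hlt c (show Flag 2 6 14 from by constructor <;> decide) (-1)
    have m10 := flag_mem hd hlt c (show Flag 2 10 11 from by constructor <;> decide) (-1)
    have m11 := flag_mem hd hlt c (show Flag 2 10 14 from by constructor <;> decide) (1)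
    have m12 := flag_mem hd hlt c (show Flag 4 5 7 from by constructor <;> decide) (1)
    have m13 := flag_mem hd hlt c (show Flag 4 5 13 from by constructor <;> decide) (-1)
    have m14 := flag_mem hd hlt c (show Flag 4 6 7 from by constructor <;> decide) (-1)
    have m15 := flag_mem hd hlt c (show Flag 4 6 14 from by constructor <;> decide) (1)
    have m16 := flag_mem hd hlt c (show Flag 4 12 13 from by constructor <;> decide) (1)
    have m17 := flag_mem hd hlt c (show Flag 4 12 14 from by constructor <;> decide) (-1)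
    have m18 := flag_mem hd hlt c (show Flag 8 9 11 from by constructor <;> decide) (-1)
    have m19 := flag_mem hd hlt c (show Flag 8 9 13 from by constructor <;> decide) (1)
    have m20 := flag_mem hd hlt c (show Flag 8 10 11 from by constructor <;> decide) (1)
    have m21 := flag_mem hd hlt c (show Flag 8 10 14 from by constructor <;> decide) (-1)
    have m22 := flag_mem hd hlt c (show Flag 8 12 13 from by constructor <;> decide) (-1)
    have m23 := flag_mem hd hlt c (show Flag 8 12 14 from by constructor <;> decide) (1)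
    exact add_mem (add_mem (add_mem (add_mem (add_mem (add_mem (add_mem (add_mem (add_mem (add_mem (add_mem (add_mem (add_mem (add_mem (add_mem (add_mem (add_mem (add_mem (add_mem (add_mem (add_mem (add_mem (add_mem (m0) m1) m2) m3) m4) m5) m6) m7) m8) m9) m10) m11) m12) m13) m14) m15) m16) m17) m18) m19) m20) m21) m22) m23
  · rw [SetLike.mem_coe, LinearMap.mem_ker]
    change bd d 3 (z2 c.P) = 0
    unfold z2 bd
    simp only [map_add, Finsupp.linearCombination_single,
      flag_bd hd hlt c (show Flag 1 3 7 from by constructor <;> decide),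
      flag_bd hd hlt c (show Flag 1 3 11 from by constructor <;> decide),
      flag_bd hd hlt c (show Flag 1 5 7 from by constructor <;> decide),
      flag_bd hd hlt c (show Flag 1 5 13 from by constructor <;> decide),
      flag_bd hd hlt c (show Flag 1 9 11 from by constructor <;> decide),
      flag_bd hd hlt c (show Flag 1 9 13 from by constructor <;> decide),
      flag_bd hd hlt c (show Flag 2 3 7 from by constructor <;> decide),
      flag_bd hd hlt c (show Flag 2 3 11 from by constructor <;> decide),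
      flag_bd hd hlt c (show Flag 2 6 7 from by constructor <;> decide),
      flag_bd hd hlt c (show Flag 2 6 14 from by constructor <;> decide),
      flag_bd hd hlt c (show Flag 2 10 11 from by constructor <;> decide),
      flag_bd hd hlt c (show Flag 2 10 14 from by constructor <;> decide),
      flag_bd hd hlt c (show Flag 4 5 7 from by constructor <;> decide),
      flag_bd hd hlt c (show Flag 4 5 13 from by constructor <;> decide),
      flag_bd hd hlt c (show Flag 4 6 7 from by constructor <;> decide),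
      flag_bd hd hlt c (show Flag 4 6 14 from by constructor <;> decide),
      flag_bd hd hlt c (show Flag 4 12 13 from by constructor <;> decide),
      flag_bd hd hlt c (show Flag 4 12 14 from by constructor <;> decide),
      flag_bd hd hlt c (show Flag 8 9 11 from by constructor <;> decide),
      flag_bd hd hlt c (show Flag 8 9 13 from by constructor <;> decide),
      flag_bd hd hlt c (show Flag 8 10 11 from by constructor <;> decide),
      flag_bd hd hlt c (show Flag 8 10 14 from by constructor <;> decide),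
      flag_bd hd hlt c (show Flag 8 12 13 from by constructor <;> decide),
      flag_bd hd hlt c (show Flag 8 12 14 from by constructor <;> decide)]
    simp only [smul_add, Finsupp.smul_single, smul_eq_mul, mul_one, Finsupp.single_neg]
    abel

lemma phi2_z2 (c : Cell2 κ) :
    Finsupp.linearCombination ℤ (phi2 κ (c.P 0) (c.P 15) c.w1 c.w2 c.w3 c.wm) (z2 c.P) = 1 := by
  have hφ : ∀ (T1 T2 T3 : ℕ), T1 < 16 → T2 < 16 → T3 < 16 → ∀ k : ℤ,
      Finsupp.linearCombination ℤ (phi2 κ (c.P 0) (c.P 15) c.w1 c.w2 c.w3 c.wm)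
        (Finsupp.single ![c.P 0, c.P T1, c.P T2, c.P T3, c.P 15] k) =
      k * (if T1 = 1 ∧ T2 = 3 ∧ T3 = 7 then 1 else 0) := by
    intro T1 T2 T3 h1 h2 h3 k
    rw [Finsupp.linearCombination_single, smul_eq_mul]
    congr 1
    change (if c.P 0 = c.P 0 ∧ c.P 15 = c.P 15 ∧ (κ (c.P 0) ^^^ κ (c.P T1)) &&& c.wm = c.w1 ∧
      (κ (c.P 0) ^^^ κ (c.P T2)) &&& c.wm = c.w2 ∧
      (κ (c.P 0) ^^^ κ (c.P T3)) &&& c.wm = c.w3 then (1 : ℤ) else 0) = _
    rw [if_congr (by rw [c.W1 T1 h1, c.W2 T2 h2, c.W3 T3 h3]) rfl rfl]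
    simp
  unfold z2
  simp only [map_add]
  rw [hφ 1 3 7 (by norm_num) (by norm_num) (by norm_num), hφ 1 3 11 (by norm_num) (by norm_num) (by norm_num), hφ 1 5 7 (by norm_num) (by norm_num) (by norm_num), hφ 1 5 13 (by norm_num) (by norm_num) (by norm_num), hφ 1 9 11 (by norm_num) (by norm_num) (by norm_num), hφ 1 9 13 (by norm_num) (by norm_num) (by norm_num), hφ 2 3 7 (by norm_num) (by norm_num) (by norm_num), hφ 2 3 11 (by norm_num) (by norm_num) (by norm_num), hφ 2 6 7 (by norm_num) (by norm_num) (by norm_num), hφ 2 6 14 (by norm_num) (by norm_num) (by norm_num), hφ 2 10 11 (by norm_num) (by norm_num) (by norm_num), hφ 2 10 14 (by norm_num) (by norm_num) (by norm_num), hφ 4 5 7 (by norm_num) (by norm_num) (by norm_num), hφ 4 5 13 (by norm_num) (by norm_num) (by norm_num), hφ 4 6 7 (by norm_num) (by norm_num) (by norm_num), hφ 4 6 14 (by norm_num) (by norm_num) (by norm_num), hφ 4 12 13 (by norm_num) (by norm_num) (by norm_num), hφ 4 12 14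 (by norm_num) (by norm_num) (by norm_num), hφ 8 9 11 (by norm_num) (by norm_num) (by norm_num), hφ 8 9 13 (by norm_num) (by norm_num) (by norm_num), hφ 8 10 11 (by norm_num) (by norm_num) (by norm_num), hφ 8 10 14 (by norm_num) (by norm_num) (by norm_num), hφ 8 12 13 (by norm_num) (by norm_num) (by norm_num), hφ 8 12 14 (by norm_num) (by norm_num) (by norm_num)]
  norm_num

lemma phi2_z_ne (a b : V) (w1 w2 w3 wm : ℕ) (y : Fin 5 → V) (h : y 0 ≠ a ∨ y 4 ≠ b) :
    phi2 κ a b w1 w2 w3 wm y = 0 := by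
  unfold phi2
  rw [if_neg]
  rintro ⟨h1, h2, -⟩
  rcases h with h | h
  · exact h h1
  · exact h h2

lemma phi1_z_ne (c : Cell1 κ) (y : Fin 5 → V) (h : y 0 ≠ c.a ∨ y 4 ≠ c.a) :
    phi1 c y = 0 := by
  unfold phi1
  rw [if_neg]
  rintro ⟨h1, -, h2, -⟩
  rcases h with h | h
  · exact h h1
  · exact h h2

omit [DecidableEq V] in
lemma lc_z2_zero (P : ℕ → V) (φ : (Fin 5 → V) → ℤ)
    (h : ∀ u v w, φ ![P 0, u, v, w, P 15] = 0) :
    Finsupp.linearCombination ℤ φ (z2 P) = 0 := by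
  unfold z2
  simp only [map_add, Finsupp.linearCombination_single, h, smul_zero, add_zero]

omit [DecidableEq V] in
lemma lc_z1_zero (c : Cell1 κ) (φ : (Fin 5 → V) → ℤ)
    (h : ∀ u v w, φ ![c.a, u, v, w, c.a] = 0) :
    Finsupp.linearCombination ℤ φ (z1 c) = 0 := by
  unfold z1
  simp only [map_add, Finsupp.linearCombination_single, h, smul_zero, add_zero]

/-- **Lower bound.** -/
theorem lower_bound [Finite V] (hd : ∀ u v, d u v = pc (κ u ^^^ κ v)) (hlt : ∀ v, κ v < 64)
    {m n : ℕ} (c : Fin m → Cell1 κ) (e : Fin n → Cell2 κ)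
    (hc : Function.Injective fun i => (c i).a) (he : Function.Injective fun i => (e i).P 0) :
    m + n ≤ betti d 4 6 := by
  have hab : ∀ i, (e i).P 0 ≠ (e i).P 15 := fun i =>
    (e i).ne 0 (by norm_num) 15 (by norm_num) (by norm_num)
  have := card_le_betti d 4 6 (J := Fin m ⊕ Fin n)
    (Sum.elim (fun i => z1 (c i)) (fun i => z2 (e i).P))
    (Sum.elim (fun i => phi1 (c i))
      (fun i => phi2 κ ((e i).P 0) ((e i).P 15) (e i).w1 (e i).w2 (e i).w3 (e i).wm))
    (by
      rintro (i | i)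
      · exact z1_mem hd hlt (c i)
      · exact z2_mem hd hlt (e i))
    (by
      rintro (i | i) x hx hl
      · exact cocycle1 hlt hd (c i) x hx
      · exact cocycle2 hlt hd (e i).hab (e i).c1 (e i).c2 (e i).c3 (e i).c4 (e i).n1 (e i).n2
          (e i).low (e i).high x hx hl)
    (by
      rintro (i | i) (j | j)
      · simp only [Sum.elim_inl, Sum.inl.injEq]
        by_cases hij : i = j
        · rw [if_pos hij, hij, phi1_z1]
        · rw [if_neg hij]
          exact phi1_z1_ne _ _ (fun h => hij (hc h))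
      · simp only [Sum.elim_inl, Sum.elim_inr, reduceCtorEq, if_false]
        apply lc_z2_zero
        intro u v w
        apply phi1_z_ne
        by_contra hcon
        push Not at hcon
        exact hab j (hcon.1.trans hcon.2.symm)
      · simp only [Sum.elim_inl, Sum.elim_inr, reduceCtorEq, if_false]
        apply lc_z1_zero
        intro u v w
        apply phi2_z_ne
        by_contra hcon
        push Not at hcon
        exact hab i (hcon.1.symm.trans hcon.2)
      · simp only [Sum.elim_inr, Sum.inr.injEq]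
        by_cases hij : i = j
        · rw [if_pos hij, hij, phi2_z2]
        · rw [if_neg hij]
          apply lc_z2_zero
          intro u v w
          apply phi2_z_ne
          left
          exact fun h => hij (he h.symm))
  simpa using this

end cocycles

end Pool.Agent.V11158.House
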