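import Mathlib

open scoped Pointwise

namespace Pool.Agent.V11158.HeisSetup

/-! Elementary analysis of approximate homomorphisms from small approximate groups onto a grid of
the Heisenberg group. -/

structure Setup (G : Type*) [Group G] (κ C N : ℕ) where
  B : Set G
  X : G → ℝ
  Y : G → ℝ
  Z : G → ℝ
  one_mem : (1 : G) ∈ B
  inv : B⁻¹ = B
  fin : B.Finite
  card : B.ncard ≤ C * N ^ 3
  T : Finset G
  cardT : T.card ≤ κ
  cover : B * B ⊆ (T : Set G) * B
  Npos : 1 ≤ N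
  gp : ℤ → ℤ → G
  gp_mem : ∀ i j : ℤ, |i| ≤ N → |j| ≤ N → gp i j ∈ B
  gp_X : ∀ i j : ℤ, |i| ≤ N → |j| ≤ N → X (gp i j) = i / N
  gp_Y : ∀ i j : ℤ, |i| ≤ N → |j| ≤ N → Y (gp i j) = j / N
  int : ∀ b ∈ B, (∃ i : ℤ, X b = i / N) ∧ ∃ j : ℤ, Y b = j / N
  bX : ∀ b ∈ B, |X b| ≤ 10
  bY : ∀ b ∈ B, |Y b| ≤ 10
  bZ : ∀ b ∈ B, |Z b| ≤ 10
  hX : ∀ g ∈ B ^ 27, ∀ h ∈ B ^ 27, g * h ∈ B ^ 27 → X (g * h) = X g + X h
  hY : ∀ g ∈ B ^ 27, ∀ h ∈ B ^ 27, g * h ∈ B ^ 27 → Y (g * h) = Y g + Y h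
  hZ : ∀ g ∈ B ^ 27, ∀ h ∈ B ^ 27, g * h ∈ B ^ 27 → |Z (g * h) - (Z g + Z h + X g * Y h)| ≤ 10 / N

namespace Setup

variable {G : Type*} [Group G] {κ C N : ℕ} (S : Setup G κ C N)

include S in
lemma NposR : (0 : ℝ) < N := by exact_mod_cast S.Npos

lemma mono {k l : ℕ} (h : k ≤ l) : S.B ^ k ⊆ S.B ^ l := Set.pow_subset_pow_right S.one_mem h

lemma mul_mem {k l : ℕ} {g h : G} (hg : g ∈ S.B ^ k) (hh : h ∈ S.B ^ l) :
    g * h ∈ S.B ^ (k + l) := by
  rw [pow_add]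
  exact Set.mul_mem_mul hg hh

lemma inv_mem {k : ℕ} {g : G} (hg : g ∈ S.B ^ k) : g⁻¹ ∈ S.B ^ k := by
  have h : (S.B ^ k)⁻¹ = S.B ^ k := by rw [← inv_pow, S.inv]
  rw [← h]
  simpa using hg

lemma mem_one_pow {b : G} (hb : b ∈ S.B) : b ∈ S.B ^ 1 := by rwa [pow_one]

lemma pow_fin (k : ℕ) : (S.B ^ k).Finite := by
  induction k with
  | zero => rw [pow_zero]; exact Set.finite_one
  | succ k ih => rw [pow_succ]; exact ih.mul S.fin

section mulform

variable {k l : ℕ} {g h : G}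

lemma X_mul (hg : g ∈ S.B ^ k) (hh : h ∈ S.B ^ l) (hkl : k + l ≤ 27) : S.X (g * h) = S.X g + S.X h :=
  S.hX g (S.mono (by omega) hg) h (S.mono (by omega) hh) (S.mono hkl (S.mul_mem hg hh))

lemma Y_mul (hg : g ∈ S.B ^ k) (hh : h ∈ S.B ^ l) (hkl : k + l ≤ 27) : S.Y (g * h) = S.Y g + S.Y h :=
  S.hY g (S.mono (by omega) hg) h (S.mono (by omega) hh) (S.mono hkl (S.mul_mem hg hh))

lemma Z_mul (hg : g ∈ S.B ^ k) (hh : h ∈ S.B ^ l) (hkl : k + l ≤ 27) :
    |S.Z (g * h) - (S.Z g + S.Z h + S.X g * S.Y h)| ≤ 10 / N :=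
  S.hZ g (S.mono (by omega) hg) h (S.mono (by omega) hh) (S.mono hkl (S.mul_mem hg hh))

end mulform

lemma one_mem_pow (k : ℕ) : (1 : G) ∈ S.B ^ k := by
  have h := S.mono (Nat.zero_le k)
  rw [pow_zero] at h
  exact h (Set.mem_one.mpr rfl)

lemma X_one : S.X 1 = 0 := by
  have h := S.X_mul (S.one_mem_pow 1) (S.one_mem_pow 1) (by norm_num)
  rw [mul_one] at h
  linarith

lemma Y_one : S.Y 1 = 0 := by
  have h := S.Y_mul (S.one_mem_pow 1) (S.one_mem_pow 1) (by norm_num)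
  rw [mul_one] at h
  linarith

lemma X_inv {k : ℕ} {g : G} (hg : g ∈ S.B ^ k) (hk : k + k ≤ 27) : S.X g⁻¹ = - S.X g := by
  have h := S.X_mul hg (S.inv_mem hg) hk
  rw [mul_inv_cancel, S.X_one] at h
  linarith

lemma Y_inv {k : ℕ} {g : G} (hg : g ∈ S.B ^ k) (hk : k + k ≤ 27) : S.Y g⁻¹ = - S.Y g := by
  have h := S.Y_mul hg (S.inv_mem hg) hk
  rw [mul_inv_cancel, S.Y_one] at h
  linarith

/-- the commutator -/
def cm (g h : G) : G := g * h * g⁻¹ * h⁻¹

section comm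

variable {k l : ℕ} {g h : G}

lemma cm_mem (hg : g ∈ S.B ^ k) (hh : h ∈ S.B ^ l) : cm g h ∈ S.B ^ (2 * k + 2 * l) := by
  have h1 := S.mul_mem (S.mul_mem (S.mul_mem hg hh) (S.inv_mem hg)) (S.inv_mem hh)
  rw [show k + l + k + l = 2 * k + 2 * l by ring] at h1
  exact h1

lemma cm_mul (g h : G) : cm g h * (h * g) = g * h := by
  unfold cm
  group

lemma cm_X (hg : g ∈ S.B ^ k) (hh : h ∈ S.B ^ l) (hkl : 2 * k + 2 * l ≤ 27) :
    S.X (cm g h) = 0 := by
  have h1 := S.hX (cm g h) (S.mono hkl (S.cm_mem hg hh)) (h * g)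
    (S.mono (by omega) (S.mul_mem hh hg)) (by
      rw [cm_mul]
      exact S.mono (by omega) (S.mul_mem hg hh))
  rw [cm_mul, S.X_mul hg hh (by omega), S.X_mul hh hg (by omega)] at h1
  linarith

lemma cm_Y (hg : g ∈ S.B ^ k) (hh : h ∈ S.B ^ l) (hkl : 2 * k + 2 * l ≤ 27) :
    S.Y (cm g h) = 0 := by
  have h1 := S.hY (cm g h) (S.mono hkl (S.cm_mem hg hh)) (h * g)
    (S.mono (by omega) (S.mul_mem hh hg)) (by
      rw [cm_mul]
      exact S.mono (by omega) (S.mul_mem hg hh))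
  rw [cm_mul, S.Y_mul hg hh (by omega), S.Y_mul hh hg (by omega)] at h1
  linarith

lemma cm_Z (hg : g ∈ S.B ^ k) (hh : h ∈ S.B ^ l) (hkl : 2 * k + 2 * l ≤ 27) :
    |S.Z (cm g h) - (S.X g * S.Y h - S.X h * S.Y g)| ≤ 30 / N := by
  have h1 := S.hZ (cm g h) (S.mono hkl (S.cm_mem hg hh)) (h * g)
    (S.mono (by omega) (S.mul_mem hh hg)) (by
      rw [cm_mul]
      exact S.mono (by omega) (S.mul_mem hg hh))
  rw [cm_mul, S.cm_X hg hh hkl, zero_mul, add_zero] at h1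
  have h2 := S.Z_mul hg hh (by omega)
  have h3 := S.Z_mul hh hg (by omega)
  have h4 : (30 : ℝ) / N = 3 * (10 / N) := by ring
  rw [h4]
  rw [abs_le] at *
  constructor <;> linarith [h1.1, h1.2, h2.1, h2.2, h3.1, h3.2]

/-- commuting elements -/
lemma comm_det (hg : g ∈ S.B ^ k) (hh : h ∈ S.B ^ l) (hkl : k + l ≤ 27) (hc : g * h = h * g) :
    |S.X g * S.Y h - S.X h * S.Y g| ≤ 20 / N := by
  have h2 := S.Z_mul hg hh hkl
  have h3 := S.Z_mul hh hg (by omega)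
  rw [hc] at h2
  have h4 : (20 : ℝ) / N = 2 * (10 / N) := by ring
  rw [h4]
  rw [abs_le] at *
  constructor <;> linarith [h2.1, h2.2, h3.1, h3.2]

end comm

/-- the elements `z_j` -/
def zz (j : ℤ) : G := cm (S.gp N 0) (S.gp 0 j)

section zz

variable {j : ℤ}

lemma abs_N_le : |(N : ℤ)| ≤ N := by simp

lemma gpN : S.gp N 0 ∈ S.B ^ 1 := S.mem_one_pow (S.gp_mem _ _ (by simp) (by simp))

lemma gpj (hj : |j| ≤ N) : S.gp 0 j ∈ S.B ^ 1 := S.mem_one_pow (S.gp_mem _ _ (by simp) hj)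

lemma zz_mem (hj : |j| ≤ N) : S.zz j ∈ S.B ^ 4 := S.cm_mem S.gpN (S.gpj hj)

lemma zz_X (hj : |j| ≤ N) : S.X (S.zz j) = 0 := S.cm_X S.gpN (S.gpj hj) (by norm_num)

lemma zz_Y (hj : |j| ≤ N) : S.Y (S.zz j) = 0 := S.cm_Y S.gpN (S.gpj hj) (by norm_num)

lemma zz_Z (hj : |j| ≤ N) : |S.Z (S.zz j) - j / N| ≤ 30 / N := by
  have h := S.cm_Z S.gpN (S.gpj hj) (by norm_num)
  rw [S.gp_X N 0 (by simp) (by simp), S.gp_Y N 0 (by simp) (by simp),
    S.gp_X 0 j (by simp) hj, S.gp_Y 0 j (by simp) hj] at h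
  have hN := S.NposR.ne'
  have h2 : (((N : ℤ) : ℝ) / N * (j / N) - ((0 : ℤ) : ℝ) / N * (((0 : ℤ) : ℝ) / N)) = j / N := by
    push_cast
    field_simp
    ring
  rw [h2] at h
  exact h

end zz

/-- growth of powers -/
lemma pow_card (k : ℕ) : (S.B ^ (k + 1)).ncard ≤ κ ^ k * S.B.ncard := by
  have hsub : S.B ^ (k + 1) ⊆ (S.T : Set G) ^ k * S.B := by
    induction k with
    | zero => simp
    | succ k ih =>
      calc S.B ^ (k + 1 + 1) = S.B ^ (k + 1) * S.B := pow_succ _ _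
        _ ⊆ (S.T : Set G) ^ k * S.B * S.B := Set.mul_subset_mul_right ih
        _ = (S.T : Set G) ^ k * (S.B * S.B) := mul_assoc _ _ _
        _ ⊆ (S.T : Set G) ^ k * ((S.T : Set G) * S.B) := Set.mul_subset_mul_left S.cover
        _ = (S.T : Set G) ^ (k + 1) * S.B := by rw [pow_succ, mul_assoc]
  have hfinT : ∀ k : ℕ, ((S.T : Set G) ^ k).Finite ∧ ((S.T : Set G) ^ k).ncard ≤ κ ^ k := by
    intro k
    induction k with
    | zero =>
      rw [pow_zero, pow_zero]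
      exact ⟨Set.finite_one, by rw [← Set.singleton_one, Set.ncard_singleton]⟩
    | succ k ih =>
      refine ⟨?_, ?_⟩
      · rw [pow_succ]
        exact ih.1.mul S.T.finite_toSet
      · rw [pow_succ, pow_succ]
        calc ((S.T : Set G) ^ k * (S.T : Set G)).ncard
            ≤ ((S.T : Set G) ^ k).ncard * (S.T : Set G).ncard := Set.natCard_mul_le
          _ ≤ κ ^ k * κ := Nat.mul_le_mul ih.2 (by rw [Set.ncard_coe_finset]; exact S.cardT)
  calc (S.B ^ (k + 1)).ncard ≤ ((S.T : Set G) ^ k * S.B).ncard :=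
        Set.ncard_le_ncard hsub ((hfinT k).1.mul S.fin)
    _ ≤ ((S.T : Set G) ^ k).ncard * S.B.ncard := Set.natCard_mul_le
    _ ≤ κ ^ k * S.B.ncard := Nat.mul_le_mul_right _ (hfinT k).2

/-- central-type elements in a power -/
def ker (k : ℕ) : Set G := {g | g ∈ S.B ^ k ∧ S.X g = 0 ∧ S.Y g = 0}

/-- those with small third coordinate -/
def E (k M : ℕ) : Set G := {g | g ∈ S.B ^ k ∧ S.X g = 0 ∧ S.Y g = 0 ∧ |S.Z g| ≤ M / N}

lemma ker_fin (k : ℕ) : (S.ker k).Finite := (S.pow_fin k).subset fun _ h => h.1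

lemma E_fin (k M : ℕ) : (S.E k M).Finite := (S.pow_fin k).subset fun _ h => h.1

/-- the index set of the grid -/
noncomputable def idx (N : ℕ) : Finset (ℤ × ℤ) := Finset.Icc (-(N : ℤ)) N ×ˢ Finset.Icc (-(N : ℤ)) N

lemma card_idx (N : ℕ) : (idx N).card = (2 * N + 1) ^ 2 := by
  unfold idx
  rw [Finset.card_product, Int.card_Icc]
  have : ((N : ℤ) + 1 - -(N : ℤ)).toNat = 2 * N + 1 := by omega
  rw [this]
  ring

lemma mem_idx {N : ℕ} {p : ℤ × ℤ} : p ∈ idx N ↔ |p.1| ≤ N ∧ |p.2| ≤ N := by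
  unfold idx
  rw [Finset.mem_product, Finset.mem_Icc, Finset.mem_Icc, abs_le, abs_le]

lemma grid_inj {k : ℕ} (hk : k + 1 ≤ 27) {p q : ℤ × ℤ} (hp : p ∈ idx N) (hq : q ∈ idx N) {s t : G}
    (hs : s ∈ S.ker k) (ht : t ∈ S.ker k) (h : S.gp p.1 p.2 * s = S.gp q.1 q.2 * t) :
    p = q ∧ s = t := by
  rw [mem_idx] at hp hq
  have mp := S.mem_one_pow (S.gp_mem _ _ hp.1 hp.2)
  have mq := S.mem_one_pow (S.gp_mem _ _ hq.1 hq.2)
  have hN := S.NposR.ne'
  have hx := congrArg S.X h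
  rw [S.X_mul mp hs.1 (by omega), S.X_mul mq ht.1 (by omega), hs.2.1, ht.2.1,
    S.gp_X _ _ hp.1 hp.2, S.gp_X _ _ hq.1 hq.2, add_zero, add_zero, div_left_inj' hN] at hx
  have hy := congrArg S.Y h
  rw [S.Y_mul mp hs.1 (by omega), S.Y_mul mq ht.1 (by omega), hs.2.2, ht.2.2,
    S.gp_Y _ _ hp.1 hp.2, S.gp_Y _ _ hq.1 hq.2, add_zero, add_zero, div_left_inj' hN] at hy
  have hpq : p = q := Prod.ext (by exact_mod_cast hx) (by exact_mod_cast hy)
  refine ⟨hpq, ?_⟩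
  rw [hpq] at h
  exact mul_left_cancel h

/-- the fibres over the grid are disjoint -/
lemma ker_card {k : ℕ} (hk : k + 1 ≤ 27) :
    (2 * N + 1) ^ 2 * (S.ker k).ncard ≤ κ ^ k * S.B.ncard := by
  classical
  set K : Finset G := (S.ker_fin k).toFinset with hK
  have hKc : K.card = (S.ker k).ncard := (Set.ncard_eq_toFinset_card _ (S.ker_fin k)).symm
  have h1 : (idx N ×ˢ K).card ≤ ((S.pow_fin (k + 1)).toFinset).card := by
    apply Finset.card_le_card_of_injOn (fun p => S.gp p.1.1 p.1.2 * p.2)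
    · rintro ⟨p, s⟩ hp
      have hp' := Finset.mem_product.mp (Finset.mem_coe.mp hp)
      have hp1 := mem_idx.mp hp'.1
      have hs : s ∈ S.ker k := (Set.Finite.mem_toFinset _).mp hp'.2
      simp only [Set.Finite.coe_toFinset]
      have := S.mul_mem (S.mem_one_pow (S.gp_mem _ _ hp1.1 hp1.2)) hs.1
      rwa [add_comm] at this
    · rintro ⟨p, s⟩ hp ⟨q, t⟩ hq h
      have hp' := Finset.mem_product.mp (Finset.mem_coe.mp hp)
      have hq' := Finset.mem_product.mp (Finset.mem_coe.mp hq)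
      obtain ⟨h1, h2⟩ := S.grid_inj hk hp'.1 hq'.1 ((Set.Finite.mem_toFinset _).mp hp'.2)
        ((Set.Finite.mem_toFinset _).mp hq'.2) h
      exact Prod.ext h1 h2
  rw [Finset.card_product, card_idx, hKc, ← Set.ncard_eq_toFinset_card _ (S.pow_fin (k + 1))] at h1
  exact h1.trans (S.pow_card k)

/-- **Bounded sets.** -/
lemma E_card {k M : ℕ} (hk : k ≤ 22) : (S.E k M).ncard ≤ κ ^ (k + 4) * C * (2 * M + 81) := by
  classical
  set R : ℕ := 2 * M + 81 with hR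
  set J : Finset ℕ := Finset.range (N / R + 1) with hJ
  set K : Finset G := (S.E_fin k M).toFinset with hK
  have hKc : K.card = (S.E k M).ncard := (Set.ncard_eq_toFinset_card _ (S.E_fin k M)).symm
  have hRpos : 0 < R := by omega
  have hN := S.NposR
  have hj : ∀ t ∈ J, |((t * R : ℕ) : ℤ)| ≤ N := by
    intro t ht
    rw [hJ, Finset.mem_range] at ht
    have h1 : t ≤ N / R := by omega
    have h2 : t * R ≤ N := (Nat.mul_le_mul_right R h1).trans (Nat.div_mul_le_self N R)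
    rw [abs_of_nonneg (by positivity)]
    exact_mod_cast h2
  have h1 : (J ×ˢ K).card ≤ (S.ker_fin (4 + k)).toFinset.card := by
    apply Finset.card_le_card_of_injOn (fun p => S.zz ((p.1 * R : ℕ) : ℤ) * p.2)
    · rintro ⟨t, s⟩ hp
      have hp' := Finset.mem_product.mp (Finset.mem_coe.mp hp)
      have hs : s ∈ S.E k M := (Set.Finite.mem_toFinset _).mp hp'.2
      simp only [Set.Finite.coe_toFinset]
      refine ⟨S.mul_mem (S.zz_mem (hj t hp'.1)) hs.1, ?_, ?_⟩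
      · rw [S.X_mul (S.zz_mem (hj t hp'.1)) hs.1 (by omega), S.zz_X (hj t hp'.1), hs.2.1, add_zero]
      · rw [S.Y_mul (S.zz_mem (hj t hp'.1)) hs.1 (by omega), S.zz_Y (hj t hp'.1), hs.2.2.1,
          add_zero]
    · rintro ⟨t, s⟩ hp ⟨t', s'⟩ hq h
      have hp' := Finset.mem_product.mp (Finset.mem_coe.mp hp)
      have hq' := Finset.mem_product.mp (Finset.mem_coe.mp hq)
      have hs : s ∈ S.E k M := (Set.Finite.mem_toFinset _).mp hp'.2
      have hs' : s' ∈ S.E k M := (Set.Finite.mem_toFinset _).mp hq'.2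
      simp only at h
      have z1 := S.Z_mul (S.zz_mem (hj t hp'.1)) hs.1 (by omega)
      have z2 := S.Z_mul (S.zz_mem (hj t' hq'.1)) hs'.1 (by omega)
      rw [S.zz_X (hj t hp'.1), zero_mul, add_zero] at z1
      rw [S.zz_X (hj t' hq'.1), zero_mul, add_zero, ← h] at z2
      have z3 := S.zz_Z (hj t hp'.1)
      have z4 := S.zz_Z (hj t' hq'.1)
      have z5 := hs.2.2.2
      have z6 := hs'.2.2.2
      have key : |(((t * R : ℕ) : ℤ) : ℝ) / N - (((t' * R : ℕ) : ℤ) : ℝ) / N| ≤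
          (2 * M + 80) / N := by
        have e : (2 * (M : ℝ) + 80) / N = 2 * (10 / N) + 2 * (30 / N) + 2 * (M / N) := by
          ring
        rw [e]
        rw [abs_le] at *
        constructor <;> linarith [z1.1, z1.2, z2.1, z2.2, z3.1, z3.2, z4.1, z4.2, z5.1, z5.2,
          z6.1, z6.2]
      have htt : t = t' := by
        by_contra hne
        rw [← sub_div, abs_div, abs_of_pos hN, div_le_div_iff_of_pos_right hN] at key
        have h3 : (1 : ℝ) ≤ |((t : ℤ) : ℝ) - ((t' : ℤ) : ℝ)| := by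
          have : (1 : ℤ) ≤ |(t : ℤ) - t'| := Int.one_le_abs (by omega)
          exact_mod_cast this
        have h4 : (((t * R : ℕ) : ℤ) : ℝ) - (((t' * R : ℕ) : ℤ) : ℝ) =
            (((t : ℤ) : ℝ) - ((t' : ℤ) : ℝ)) * R := by
          push_cast
          ring
        rw [h4, abs_mul, abs_of_pos (by exact_mod_cast hRpos : (0 : ℝ) < R)] at key
        have h5 : (R : ℝ) = 2 * M + 81 := by rw [hR]; push_cast; ring
        nlinarith
      rw [htt] at h ⊢
      rw [mul_left_cancel h]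
  rw [Finset.card_product, hKc, ← Set.ncard_eq_toFinset_card _ (S.ker_fin (4 + k)), hJ,
    Finset.card_range] at h1
  have h2 := S.ker_card (k := 4 + k) (by omega)
  have h3 := S.card
  have h4 : N ≤ (N / R + 1) * R := by
    have := Nat.lt_div_mul_add (a := N) hRpos
    nlinarith
  -- combine
  have h5 : N ^ 3 * (S.E k M).ncard ≤ N ^ 3 * (κ ^ (k + 4) * C * R) := by
    calc N ^ 3 * (S.E k M).ncard = N ^ 2 * (N * (S.E k M).ncard) := by ring
      _ ≤ (2 * N + 1) ^ 2 * (((N / R + 1) * R) * (S.E k M).ncard) := by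
          apply Nat.mul_le_mul
          · exact Nat.pow_le_pow_left (by omega) 2
          · exact Nat.mul_le_mul_right _ h4
      _ = ((2 * N + 1) ^ 2 * ((N / R + 1) * (S.E k M).ncard)) * R := by ring
      _ ≤ ((2 * N + 1) ^ 2 * (S.ker (4 + k)).ncard) * R :=
          Nat.mul_le_mul_right _ (Nat.mul_le_mul_left _ h1)
      _ ≤ (κ ^ (4 + k) * S.B.ncard) * R := Nat.mul_le_mul_right _ h2
      _ ≤ (κ ^ (4 + k) * (C * N ^ 3)) * R :=
          Nat.mul_le_mul_right _ (Nat.mul_le_mul_left _ h3)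
      _ = N ^ 3 * (κ ^ (k + 4) * C * R) := by rw [add_comm 4 k]; ring
  exact Nat.le_of_mul_le_mul_left h5 (Nat.pow_pos S.Npos)

/-- two central-type elements of `B ^ 3` with close third coordinates -/
lemma link {w w' : G} (hw : w ∈ S.ker 3) (hw' : w' ∈ S.ker 3) (h0 : S.Z w ≤ S.Z w')
    (h1 : S.Z w' ≤ S.Z w + 1) : ∃ j : ℤ, 0 ≤ j ∧ j ≤ N ∧ ∃ e ∈ S.E 10 71, w' = w * S.zz j * e := by
  have hN := S.NposR
  set d : ℝ := S.Z w' - S.Z w with hd
  have hd0 : 0 ≤ d := by linarith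
  have hd1 : d ≤ 1 := by linarith
  set j : ℤ := ⌊(N : ℝ) * d⌋ with hj
  have hj0 : 0 ≤ j := Int.floor_nonneg.mpr (by positivity)
  have hjN : j ≤ N := by
    have h2 : (j : ℝ) ≤ N := (Int.floor_le _).trans (by nlinarith)
    exact_mod_cast h2
  have hjabs : |j| ≤ N := by rw [abs_of_nonneg hj0]; exact hjN
  refine ⟨j, hj0, hjN, (S.zz j)⁻¹ * (w⁻¹ * w'), ?_, by group⟩
  have hu : w⁻¹ * w' ∈ S.B ^ 6 := S.mul_mem (S.inv_mem hw.1) hw'.1
  have hz := S.inv_mem (S.zz_mem hjabs)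
  have he : (S.zz j)⁻¹ * (w⁻¹ * w') ∈ S.B ^ 10 := S.mul_mem hz hu
  have Xu : S.X (w⁻¹ * w') = 0 := by
    rw [S.X_mul (S.inv_mem hw.1) hw'.1 (by norm_num), S.X_inv hw.1 (by norm_num), hw.2.1, hw'.2.1]
    ring
  have Yu : S.Y (w⁻¹ * w') = 0 := by
    rw [S.Y_mul (S.inv_mem hw.1) hw'.1 (by norm_num), S.Y_inv hw.1 (by norm_num), hw.2.2, hw'.2.2]
    ring
  refine ⟨he, ?_, ?_, ?_⟩
  · rw [S.X_mul hz hu (by norm_num), S.X_inv (S.zz_mem hjabs) (by norm_num), S.zz_X hjabs, Xu]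
    ring
  · rw [S.Y_mul hz hu (by norm_num), S.Y_inv (S.zz_mem hjabs) (by norm_num), S.zz_Y hjabs, Yu]
    ring
  · have z1 := S.Z_mul hw.1 hu (by norm_num)
    rw [mul_inv_cancel_left, hw.2.1, zero_mul, add_zero] at z1
    have z2 := S.Z_mul (S.zz_mem hjabs) he (by norm_num)
    rw [mul_inv_cancel_left, S.zz_X hjabs, zero_mul, add_zero] at z2
    have z3 := S.zz_Z hjabs
    have z4 : |d - j / N| ≤ 1 / N := by
      have h3 := Int.floor_le ((N : ℝ) * d)
      have h4 := Int.lt_floor_add_one ((N : ℝ) * d)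
      rw [← hj] at h3 h4
      have h5 : d - j / N = (N * d - j) / N := by field_simp
      rw [h5, abs_div, abs_of_pos hN]
      apply div_le_div_of_nonneg_right _ hN.le
      rw [abs_le]
      constructor <;> linarith
    have e1 : (((71 : ℕ) : ℝ)) / N = 2 * (10 / N) + 30 / N + 1 / N + 20 / N := by
      push_cast
      ring
    have e2 : (0 : ℝ) ≤ 20 / N := by positivity
    rw [e1]
    rw [abs_le] at *
    constructor <;> linarith [z1.1, z1.2, z2.1, z2.2, z3.1, z3.2, z4.1, z4.2]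

/-- commuting with all small central-type elements implies commuting with the `z_j` -/
lemma comm_zz {h : G} (hc : ∀ e ∈ S.E 10 71, h * e = e * h) (j : ℕ) (hj : j ≤ N) :
    h * S.zz j = S.zz j * h := by
  have hN := S.NposR
  induction j with
  | zero =>
    apply hc
    have h0 : |((0 : ℕ) : ℤ)| ≤ (N : ℤ) := by simp
    refine ⟨S.mono (by norm_num) (S.zz_mem h0), S.zz_X h0, S.zz_Y h0, ?_⟩
    have z3 := S.zz_Z h0
    have e1 : (((71 : ℕ) : ℝ)) / N = 30 / N + 41 / N := by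
      push_cast
      ring
    have e2 : (0 : ℝ) ≤ 41 / N := by positivity
    rw [e1]
    simp only [Nat.cast_zero, Int.cast_zero, zero_div, sub_zero] at z3
    simp only [Nat.cast_zero]
    linarith
  | succ j ih =>
    have ih := ih (by omega)
    have h0 : |((j : ℕ) : ℤ)| ≤ (N : ℤ) := by rw [abs_of_nonneg (by positivity)]; omega
    have h1 : |((j + 1 : ℕ) : ℤ)| ≤ (N : ℤ) := by rw [abs_of_nonneg (by positivity)]; omega
    have he : (S.zz j)⁻¹ * S.zz ((j + 1 : ℕ) : ℤ) ∈ S.E 10 71 := by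
      have m0 := S.zz_mem h0
      have m1 := S.zz_mem h1
      have he8 : (S.zz j)⁻¹ * S.zz ((j + 1 : ℕ) : ℤ) ∈ S.B ^ 8 := S.mul_mem (S.inv_mem m0) m1
      refine ⟨S.mono (by norm_num) he8, ?_, ?_, ?_⟩
      · rw [S.X_mul (S.inv_mem m0) m1 (by norm_num), S.X_inv m0 (by norm_num), S.zz_X h0,
          S.zz_X h1]
        ring
      · rw [S.Y_mul (S.inv_mem m0) m1 (by norm_num), S.Y_inv m0 (by norm_num), S.zz_Y h0,
          S.zz_Y h1]
        ring
      · have z1 := S.Z_mul m0 he8 (by norm_num)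
        rw [mul_inv_cancel_left, S.zz_X h0, zero_mul, add_zero] at z1
        have z2 := S.zz_Z h0
        have z3 := S.zz_Z h1
        have e1 : (((71 : ℕ) : ℝ)) / N = 10 / N + 30 / N + 30 / N + 1 / N := by
          push_cast
          ring
        have e2 : ((((j + 1 : ℕ) : ℤ)) : ℝ) / N = (((j : ℕ) : ℤ) : ℝ) / N + 1 / N := by
          push_cast
          ring
        have e3 : (0 : ℝ) ≤ 1 / N := by positivity
        rw [e1]
        rw [e2] at z3
        rw [abs_le] at *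
        constructor <;> linarith [z1.1, z1.2, z2.1, z2.2, z3.1, z3.2]
    have hce := hc _ he
    have : S.zz ((j + 1 : ℕ) : ℤ) = S.zz j * ((S.zz j)⁻¹ * S.zz ((j + 1 : ℕ) : ℤ)) := by group
    rw [this, ← mul_assoc, ih, mul_assoc, hce, ← mul_assoc]

/-- representatives of the classes of central-type elements of `B ^ 3` -/
noncomputable def rep (n : ℤ) : G :=
  open Classical in if h : ∃ w, w ∈ S.ker 3 ∧ ⌊S.Z w⌋ = n then h.choose else 1

lemma rep_spec {w : G} (hw : w ∈ S.ker 3) : S.rep ⌊S.Z w⌋ ∈ S.ker 3 ∧ ⌊S.Z (S.rep ⌊S.Z w⌋)⌋ = ⌊S.Z w⌋ := by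
  have h : ∃ w', w' ∈ S.ker 3 ∧ ⌊S.Z w'⌋ = ⌊S.Z w⌋ := ⟨w, hw, rfl⟩
  unfold rep
  rw [dif_pos h]
  exact h.choose_spec

lemma one_mem_ker (k : ℕ) : (1 : G) ∈ S.ker k := ⟨S.one_mem_pow k, S.X_one, S.Y_one⟩

lemma rep_mem (n : ℤ) : S.rep n ∈ S.ker 3 := by
  unfold rep
  split_ifs with h
  · exact h.choose_spec.1
  · exact S.one_mem_ker 3

/-- the finite set of elements with which we want to commute -/
def F : Set G := {S.gp 1 0, S.gp 0 1} ∪ S.E 10 71 ∪ S.rep '' (Set.Icc (-50) 50)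

lemma F_fin : S.F.Finite :=
  ((Set.toFinite _).union (S.E_fin 10 71)).union ((Set.finite_Icc _ _).image _)

lemma F_card : S.F.ncard ≤ 2 + κ ^ 14 * C * 223 + 101 := by
  unfold F
  calc _ ≤ ({S.gp 1 0, S.gp 0 1} ∪ S.E 10 71 : Set G).ncard + (S.rep '' (Set.Icc (-50) 50)).ncard :=
        Set.ncard_union_le _ _
    _ ≤ (({S.gp 1 0, S.gp 0 1} : Set G).ncard + (S.E 10 71).ncard) +
          (Set.Icc (-50 : ℤ) 50).ncard :=
        Nat.add_le_add (Set.ncard_union_le _ _) (Set.ncard_image_le (Set.finite_Icc _ _))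
    _ ≤ (2 + κ ^ 14 * C * 223) + 101 := by
        apply Nat.add_le_add
        · exact Nat.add_le_add ((Set.ncard_insert_le _ _).trans (by rw [Set.ncard_singleton]))
            (S.E_card (by norm_num))
        · rw [← Finset.coe_Icc, Set.ncard_coe_finset, Int.card_Icc]
          norm_num

/-- commuting with `F` implies commuting with all central-type elements of `B ^ 3` of bounded
third coordinate -/
lemma comm_ker {h : G} (hc : ∀ f ∈ S.F, h * f = f * h) {w : G} (hw : w ∈ S.ker 3)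
    (hb : |S.Z w| ≤ 50) : h * w = w * h := by
  have hE : ∀ e ∈ S.E 10 71, h * e = e * h := fun e he => hc e (Or.inl (Or.inr he))
  have hz : ∀ j : ℤ, 0 ≤ j → j ≤ N → h * S.zz j = S.zz j * h := by
    intro j h0 h1
    obtain ⟨m, rfl⟩ := Int.eq_ofNat_of_zero_le h0
    exact S.comm_zz hE m (by exact_mod_cast h1)
  obtain ⟨hv, hvf⟩ := S.rep_spec hw
  set v := S.rep ⌊S.Z w⌋ with hvdef
  have hvc : h * v = v * h := by
    apply hc
    refine Or.inr ⟨⌊S.Z w⌋, ?_, rfl⟩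
    rw [abs_le] at hb
    constructor
    · rw [Int.le_floor]
      push_cast
      exact hb.1
    · have : (⌊S.Z w⌋ : ℝ) ≤ 50 := (Int.floor_le _).trans hb.2
      exact_mod_cast this
  have f1 := Int.floor_le (S.Z w)
  have f2 := Int.lt_floor_add_one (S.Z w)
  have f3 := Int.floor_le (S.Z v)
  have f4 := Int.lt_floor_add_one (S.Z v)
  rw [hvf] at f3 f4
  rcases le_total (S.Z v) (S.Z w) with hle | hle
  · obtain ⟨j, hj0, hjN, e, he, heq⟩ := S.link hv hw hle (by linarith)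
    rw [heq, ← mul_assoc, ← mul_assoc, hvc, mul_assoc v h, hz j hj0 hjN]
    simp only [mul_assoc]
    rw [hE e he]
  · obtain ⟨j, hj0, hjN, e, he, heq⟩ := S.link hw hv hle (by linarith)
    have h1 : w = v * e⁻¹ * (S.zz j)⁻¹ := by rw [heq]; group
    have hEi : h * e⁻¹ = e⁻¹ * h := by
      have := hE e he
      calc h * e⁻¹ = e⁻¹ * (e * h) * e⁻¹ := by group
        _ = e⁻¹ * (h * e) * e⁻¹ := by rw [this]
        _ = e⁻¹ * h := by group
    have hzi : h * (S.zz j)⁻¹ = (S.zz j)⁻¹ * h := by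
      have := hz j hj0 hjN
      calc h * (S.zz j)⁻¹ = (S.zz j)⁻¹ * (S.zz j * h) * (S.zz j)⁻¹ := by group
        _ = (S.zz j)⁻¹ * (h * S.zz j) * (S.zz j)⁻¹ := by rw [this]
        _ = (S.zz j)⁻¹ * h := by group
    rw [h1, ← mul_assoc, ← mul_assoc, hvc, mul_assoc v h, hEi]
    simp only [mul_assoc]
    rw [hzi]

/-- one step of a chain in the grid -/
lemma step {h : G} (hc : ∀ f ∈ S.F, h * f = f * h) {P a R : G} (hP : P ∈ S.B) (ha : a ∈ S.B)
    (hR : R ∈ S.B) (hx : S.X R = S.X P + S.X a) (hy : S.Y R = S.Y P + S.Y a)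
    (hpa : S.X P * S.Y a = 0) (hhP : h * P = P * h) (hha : h * a = a * h) : h * R = R * h := by
  have mP := S.mem_one_pow hP
  have ma := S.mem_one_pow ha
  have mR := S.mem_one_pow hR
  have mw : a⁻¹ * (P⁻¹ * R) ∈ S.B ^ 3 := S.mul_mem (S.inv_mem ma) (S.mul_mem (S.inv_mem mP) mR)
  have mPR : P⁻¹ * R ∈ S.B ^ 2 := S.mul_mem (S.inv_mem mP) mR
  have Xw : S.X (a⁻¹ * (P⁻¹ * R)) = 0 := by
    rw [S.X_mul (S.inv_mem ma) mPR (by norm_num), S.X_mul (S.inv_mem mP) mR (by norm_num),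
      S.X_inv ma (by norm_num), S.X_inv mP (by norm_num), hx]
    ring
  have Yw : S.Y (a⁻¹ * (P⁻¹ * R)) = 0 := by
    rw [S.Y_mul (S.inv_mem ma) mPR (by norm_num), S.Y_mul (S.inv_mem mP) mR (by norm_num),
      S.Y_inv ma (by norm_num), S.Y_inv mP (by norm_num), hy]
    ring
  have hZw : |S.Z (a⁻¹ * (P⁻¹ * R))| ≤ 50 := by
    have z1 := S.Z_mul ma mw (by norm_num)
    rw [mul_inv_cancel_left, Yw, mul_zero, add_zero] at z1
    have z2 := S.Z_mul mP mPR (by norm_num)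
    have YPR : S.Y (P⁻¹ * R) = S.Y a := by
      rw [S.Y_mul (S.inv_mem mP) mR (by norm_num), S.Y_inv mP (by norm_num), hy]
      ring
    rw [mul_inv_cancel_left, YPR, hpa, add_zero] at z2
    have b1 := S.bZ P hP
    have b2 := S.bZ a ha
    have b3 := S.bZ R hR
    have h10 : (10 : ℝ) / N ≤ 10 := by
      apply div_le_self (by norm_num)
      exact_mod_cast S.Npos
    rw [abs_le] at *
    constructor <;> linarith [z1.1, z1.2, z2.1, z2.2, b1.1, b1.2, b2.1, b2.2, b3.1, b3.2]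
  have hcw := S.comm_ker hc ⟨mw, Xw, Yw⟩ hZw
  have hR' : R = P * (a * (a⁻¹ * (P⁻¹ * R))) := by group
  rw [hR', ← mul_assoc, hhP, mul_assoc, ← mul_assoc h, hha, mul_assoc a, hcw]
  simp only [mul_assoc]

lemma comm_rows {h : G} (hc : ∀ f ∈ S.F, h * f = f * h) (i : ℕ) (hi : i ≤ N) :
    h * S.gp i 0 = S.gp i 0 * h := by
  have hN := S.Npos
  have h1 : |(1 : ℤ)| ≤ (N : ℤ) := by rw [abs_one]; exact_mod_cast hN
  have h00 : |(0 : ℤ)| ≤ (N : ℤ) := by simp
  induction i with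
  | zero =>
    have m := S.mem_one_pow (S.gp_mem 0 0 h00 h00)
    have hb := S.bZ _ (S.gp_mem 0 0 h00 h00)
    apply S.comm_ker hc
    · refine ⟨S.mono (by norm_num) m, ?_, ?_⟩
      · simp [S.gp_X 0 0 h00 h00]
      · simp [S.gp_Y 0 0 h00 h00]
    · simp only [Nat.cast_zero]
      linarith
  | succ i ih =>
    have ih := ih (by omega)
    have hi0 : |((i : ℕ) : ℤ)| ≤ (N : ℤ) := by rw [abs_of_nonneg (by positivity)]; omega
    have hi1 : |((i + 1 : ℕ) : ℤ)| ≤ (N : ℤ) := by rw [abs_of_nonneg (by positivity)]; omega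
    apply S.step hc (S.gp_mem _ _ hi0 h00) (S.gp_mem 1 0 h1 h00) (S.gp_mem _ _ hi1 h00) _ _ _ ih
      (hc _ (Or.inl (Or.inl (Or.inl rfl))))
    · rw [S.gp_X _ _ hi1 h00, S.gp_X _ _ hi0 h00, S.gp_X _ _ h1 h00]
      push_cast
      ring
    · rw [S.gp_Y _ _ hi1 h00, S.gp_Y _ _ hi0 h00, S.gp_Y _ _ h1 h00]
      push_cast
      ring
    · rw [S.gp_Y _ _ h1 h00]
      push_cast
      ring

lemma comm_cols {h : G} (hc : ∀ f ∈ S.F, h * f = f * h) (i : ℕ) (hi : i ≤ N) :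
    h * S.gp 0 i = S.gp 0 i * h := by
  have hN := S.Npos
  have h1 : |(1 : ℤ)| ≤ (N : ℤ) := by rw [abs_one]; exact_mod_cast hN
  have h00 : |(0 : ℤ)| ≤ (N : ℤ) := by simp
  induction i with
  | zero =>
    have := S.comm_rows hc 0 (by omega)
    simpa using this
  | succ i ih =>
    have ih := ih (by omega)
    have hi0 : |((i : ℕ) : ℤ)| ≤ (N : ℤ) := by rw [abs_of_nonneg (by positivity)]; omega
    have hi1 : |((i + 1 : ℕ) : ℤ)| ≤ (N : ℤ) := by rw [abs_of_nonneg (by positivity)]; omega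
    apply S.step hc (S.gp_mem _ _ h00 hi0) (S.gp_mem 0 1 h00 h1) (S.gp_mem _ _ h00 hi1) _ _ _ ih
      (hc _ (Or.inl (Or.inl (Or.inr rfl))))
    · rw [S.gp_X _ _ h00 hi1, S.gp_X _ _ h00 hi0, S.gp_X _ _ h00 h1]
      push_cast
      ring
    · rw [S.gp_Y _ _ h00 hi1, S.gp_Y _ _ h00 hi0, S.gp_Y _ _ h00 h1]
      push_cast
      ring
    · rw [S.gp_X _ _ h00 hi0]
      push_cast
      ring

/-- an element of `B ^ 2` commuting with `F` lies over one of `41 ^ 2` grid points -/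
lemma small_image {h : G} (hc : ∀ f ∈ S.F, h * f = f * h) (hh : h ∈ S.B ^ 2) :
    |S.Y h| ≤ 20 / N ∧ |S.X h| ≤ 20 / N := by
  have hNN : |((N : ℕ) : ℤ)| ≤ (N : ℤ) := by simp
  have h00 : |(0 : ℤ)| ≤ (N : ℤ) := by simp
  have hN := S.NposR.ne'
  constructor
  · have h1 := S.comm_det S.gpN hh (by norm_num) (S.comm_rows hc N le_rfl).symm
    rw [S.gp_X _ _ hNN h00, S.gp_Y _ _ hNN h00] at h1
    simpa [hN] using h1
  · have h1 := S.comm_det (S.gpj hNN) hh (by norm_num) (S.comm_cols hc N le_rfl).symm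
    rw [S.gp_X _ _ h00 hNN, S.gp_Y _ _ h00 hNN] at h1
    simpa [hN] using h1

/-- the elements of `B ^ 2` commuting with `F` -/
def Hs : Set G := {h | h ∈ S.B ^ 2 ∧ ∀ f ∈ S.F, h * f = f * h}

lemma Hs_fin : S.Hs.Finite := (S.pow_fin 2).subset fun _ h => h.1

lemma int_two {h : G} (hh : h ∈ S.B ^ 2) : (∃ i : ℤ, S.X h = i / N) ∧ ∃ j : ℤ, S.Y h = j / N := by
  rw [pow_two] at hh
  obtain ⟨a, ha, b, hb, rfl⟩ := Set.mem_mul.mp hh
  obtain ⟨⟨i, hi⟩, ⟨j, hj⟩⟩ := S.int a ha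
  obtain ⟨⟨i', hi'⟩, ⟨j', hj'⟩⟩ := S.int b hb
  refine ⟨⟨i + i', ?_⟩, ⟨j + j', ?_⟩⟩
  · rw [S.X_mul (S.mem_one_pow ha) (S.mem_one_pow hb) (by norm_num), hi, hi']
    push_cast
    ring
  · rw [S.Y_mul (S.mem_one_pow ha) (S.mem_one_pow hb) (by norm_num), hj, hj']
    push_cast
    ring

/-- integer coordinates -/
noncomputable def co (h : G) : ℤ × ℤ := (⌊(N : ℝ) * S.X h⌋, ⌊(N : ℝ) * S.Y h⌋)

lemma co_spec {h : G} (hh : h ∈ S.B ^ 2) :
    S.X h = (S.co h).1 / N ∧ S.Y h = (S.co h).2 / N := by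
  have hN := S.NposR.ne'
  obtain ⟨⟨i, hi⟩, ⟨j, hj⟩⟩ := S.int_two hh
  have h1 : (N : ℝ) * S.X h = i := by rw [hi]; field_simp
  have h2 : (N : ℝ) * S.Y h = j := by rw [hj]; field_simp
  unfold co
  rw [h1, h2, Int.floor_intCast, Int.floor_intCast]
  exact ⟨hi, hj⟩

lemma co_small {h : G} (hh : h ∈ S.Hs) :
    S.co h ∈ Finset.Icc (-20 : ℤ) 20 ×ˢ Finset.Icc (-20 : ℤ) 20 := by
  have hN := S.NposR
  obtain ⟨h1, h2⟩ := S.small_image hh.2 hh.1
  obtain ⟨h3, h4⟩ := S.co_spec hh.1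
  rw [h4, abs_div, abs_of_pos hN, div_le_div_iff_of_pos_right hN] at h1
  rw [h3, abs_div, abs_of_pos hN, div_le_div_iff_of_pos_right hN] at h2
  rw [Finset.mem_product, Finset.mem_Icc, Finset.mem_Icc]
  have h5 : |(S.co h).1| ≤ 20 := by exact_mod_cast h2
  have h6 : |(S.co h).2| ≤ 20 := by exact_mod_cast h1
  rw [abs_le] at h5 h6
  exact ⟨h5, h6⟩

lemma Hs_card : S.Hs.ncard ≤ 1681 * (S.ker 4).ncard := by
  classical
  have h1 := Finset.card_le_mul_card_image_of_maps_to (s := S.Hs_fin.toFinset)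
    (t := Finset.Icc (-20 : ℤ) 20 ×ˢ Finset.Icc (-20 : ℤ) 20) (f := S.co)
    (fun a ha => S.co_small ((Set.Finite.mem_toFinset _).mp ha)) (S.ker 4).ncard (by
      intro p _
      rcases Finset.eq_empty_or_nonempty (S.Hs_fin.toFinset.filter fun a => S.co a = p) with h | h
      · rw [h, Finset.card_empty]
        exact Nat.zero_le _
      · obtain ⟨h0, hh0⟩ := h
        rw [Finset.mem_filter, Set.Finite.mem_toFinset] at hh0
        rw [Set.ncard_eq_toFinset_card _ (S.ker_fin 4)]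
        apply Finset.card_le_card_of_injOn (fun a => a * h0⁻¹)
        · intro a ha
          have ha := Finset.mem_filter.mp (Finset.mem_coe.mp ha)
          rw [Set.Finite.mem_toFinset] at ha
          simp only [Set.Finite.coe_toFinset]
          have c1 := S.co_spec ha.1.1
          have c2 := S.co_spec hh0.1.1
          rw [ha.2] at c1
          rw [hh0.2] at c2
          refine ⟨S.mul_mem ha.1.1 (S.inv_mem hh0.1.1), ?_, ?_⟩
          · rw [S.X_mul ha.1.1 (S.inv_mem hh0.1.1) (by norm_num), S.X_inv hh0.1.1 (by norm_num),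
              c1.1, c2.1]
            ring
          · rw [S.Y_mul ha.1.1 (S.inv_mem hh0.1.1) (by norm_num), S.Y_inv hh0.1.1 (by norm_num),
              c1.2, c2.2]
            ring
        · intro a _ b _ hab
          exact mul_right_cancel hab)
  rw [← Set.ncard_eq_toFinset_card _ S.Hs_fin, Finset.card_product, Int.card_Icc,
    show ((20 : ℤ) + 1 - -20).toNat = 41 from rfl] at h1
  linarith

lemma F_det {f b : G} (hf : f ∈ S.F) (hb : b ∈ S.B) :
    f ∈ S.B ^ 10 ∧ |S.X f * S.Y b - S.X b * S.Y f| ≤ 10 / N := by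
  have hN := S.NposR
  have h1 : |(1 : ℤ)| ≤ (N : ℤ) := by rw [abs_one]; exact_mod_cast S.Npos
  have h00 : |(0 : ℤ)| ≤ (N : ℤ) := by simp
  have hpos : (0 : ℝ) ≤ 10 / N := by positivity
  rcases hf with ((hf | hf) | hf) | ⟨n, _, hf⟩
  · rw [hf]
    refine ⟨S.mono (by norm_num) (S.mem_one_pow (S.gp_mem _ _ h1 h00)), ?_⟩
    rw [S.gp_X _ _ h1 h00, S.gp_Y _ _ h1 h00]
    have := S.bY b hb
    have e : ((1 : ℤ) : ℝ) / N * S.Y b - S.X b * (((0 : ℤ) : ℝ) / N) = S.Y b / N := by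
      push_cast
      ring
    rw [e, abs_div, abs_of_pos hN]
    exact div_le_div_of_nonneg_right this hN.le
  · have hf : f = S.gp 0 1 := hf
    rw [hf]
    refine ⟨S.mono (by norm_num) (S.mem_one_pow (S.gp_mem _ _ h00 h1)), ?_⟩
    rw [S.gp_X _ _ h00 h1, S.gp_Y _ _ h00 h1]
    have := S.bX b hb
    have e : ((0 : ℤ) : ℝ) / N * S.Y b - S.X b * (((1 : ℤ) : ℝ) / N) = - (S.X b / N) := by
      push_cast
      ring
    rw [e, abs_neg, abs_div, abs_of_pos hN]
    exact div_le_div_of_nonneg_right this hN.le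
  · refine ⟨hf.1, ?_⟩
    rw [hf.2.1, hf.2.2.1]
    simpa using hpos
  · rw [← hf]
    have := S.rep_mem n
    refine ⟨S.mono (by norm_num) this.1, ?_⟩
    rw [this.2.1, this.2.2]
    simpa using hpos

/-- conjugation data -/
def cj (f b : G) : G := cm f⁻¹ b⁻¹

lemma cj_mem {f b : G} (hf : f ∈ S.F) (hb : b ∈ S.B) : cj f b ∈ S.E 22 40 := by
  have hN := S.NposR
  obtain ⟨h1, h2⟩ := S.F_det hf hb
  have mb := S.mem_one_pow hb
  refine ⟨S.cm_mem (S.inv_mem h1) (S.inv_mem mb), S.cm_X (S.inv_mem h1) (S.inv_mem mb) (by norm_num),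
    S.cm_Y (S.inv_mem h1) (S.inv_mem mb) (by norm_num), ?_⟩
  have h3 := S.cm_Z (S.inv_mem h1) (S.inv_mem mb) (by norm_num)
  rw [S.X_inv h1 (by norm_num), S.Y_inv h1 (by norm_num), S.X_inv mb (by norm_num),
    S.Y_inv mb (by norm_num)] at h3
  have e1 : (((40 : ℕ) : ℝ)) / N = 10 / N + 30 / N := by
    push_cast
    ring
  rw [e1]
  unfold cj
  rw [abs_le] at *
  constructor <;> nlinarith [h3.1, h3.2, h2.1, h2.2]

lemma comm_of_cj {f b b' : G} (h : cj f b = cj f b') : b * b'⁻¹ * f = f * (b * b'⁻¹) := by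
  unfold cj cm at h
  simp only [inv_inv] at h
  have h1 : b⁻¹ * f * b = b'⁻¹ * f * b' := by
    calc b⁻¹ * f * b = f * (f⁻¹ * b⁻¹ * f * b) := by group
      _ = f * (f⁻¹ * b'⁻¹ * f * b') := by rw [h]
      _ = b'⁻¹ * f * b' := by group
  calc b * b'⁻¹ * f = b * (b'⁻¹ * f * b') * b'⁻¹ := by group
    _ = b * (b⁻¹ * f * b) * b'⁻¹ := by rw [h1]
    _ = f * (b * b'⁻¹) := by group

lemma B_card : S.B.ncard ≤ (1681 * (S.ker 4).ncard) * (S.E 22 40).ncard ^ S.F.ncard := by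
  classical
  set FF := S.F_fin.toFinset with hFF
  have h1 := Finset.card_le_mul_card_image_of_maps_to (s := S.fin.toFinset)
    (t := Fintype.piFinset fun _ : FF => (S.E_fin 22 40).toFinset)
    (f := fun b (f : FF) => cj f.1 b) (by
      intro b hb
      rw [Fintype.mem_piFinset]
      intro f
      rw [Set.Finite.mem_toFinset]
      exact S.cj_mem ((Set.Finite.mem_toFinset _).mp f.2) ((Set.Finite.mem_toFinset _).mp hb))
    (1681 * (S.ker 4).ncard) (by
      intro p _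
      rcases Finset.eq_empty_or_nonempty
        (S.fin.toFinset.filter fun b => (fun f : FF => cj f.1 b) = p) with h | h
      · rw [h, Finset.card_empty]
        exact Nat.zero_le _
      · obtain ⟨b0, hb0⟩ := h
        rw [Finset.mem_filter, Set.Finite.mem_toFinset] at hb0
        refine le_trans ?_ S.Hs_card
        rw [Set.ncard_eq_toFinset_card _ S.Hs_fin]
        apply Finset.card_le_card_of_injOn (fun a => a * b0⁻¹)
        · intro a ha
          have ha := Finset.mem_filter.mp (Finset.mem_coe.mp ha)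
          rw [Set.Finite.mem_toFinset] at ha
          simp only [Set.Finite.coe_toFinset]
          refine ⟨S.mul_mem (S.mem_one_pow ha.1) (S.inv_mem (S.mem_one_pow hb0.1)), ?_⟩
          intro f hf
          apply comm_of_cj
          have := congrFun (ha.2.trans hb0.2.symm) ⟨f, (Set.Finite.mem_toFinset _).mpr hf⟩
          exact this
        · intro a _ b _ hab
          exact mul_right_cancel hab)
  rw [← Set.ncard_eq_toFinset_card _ S.fin, Fintype.card_piFinset, Finset.prod_const,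
    Finset.card_univ, Fintype.card_coe, ← Set.ncard_eq_toFinset_card _ (S.E_fin 22 40), hFF,
    ← Set.ncard_eq_toFinset_card _ S.F_fin] at h1
  exact h1

include S in
/-- **Conclusion**: `N` is bounded in terms of `κ` and `C`. -/
theorem bound : (2 * N + 1) ^ 2 ≤
    1681 * κ ^ 4 * (κ ^ 26 * C * 161 + 1) ^ (2 + κ ^ 14 * C * 223 + 101) := by
  have h1 := S.B_card
  have h2 := S.ker_card (k := 4) (by norm_num)
  have h3 : (S.E 22 40).ncard ≤ κ ^ 26 * C * 161 + 1 := (S.E_card (by norm_num)).trans (by norm_num)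
  have h4 := S.F_card
  have hB : 0 < S.B.ncard := (Set.ncard_pos S.fin).mpr ⟨1, S.one_mem⟩
  have h5 : (S.E 22 40).ncard ^ S.F.ncard ≤
      (κ ^ 26 * C * 161 + 1) ^ (2 + κ ^ 14 * C * 223 + 101) :=
    (Nat.pow_le_pow_left h3 _).trans (Nat.pow_le_pow_right (Nat.succ_pos _) h4)
  apply Nat.le_of_mul_le_mul_right _ hB
  calc (2 * N + 1) ^ 2 * S.B.ncard
      ≤ (2 * N + 1) ^ 2 * ((1681 * (S.ker 4).ncard) * (S.E 22 40).ncard ^ S.F.ncard) :=
        Nat.mul_le_mul_left _ h1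
    _ = 1681 * ((2 * N + 1) ^ 2 * (S.ker 4).ncard) * (S.E 22 40).ncard ^ S.F.ncard := by ring
    _ ≤ 1681 * (κ ^ 4 * S.B.ncard) * (κ ^ 26 * C * 161 + 1) ^ (2 + κ ^ 14 * C * 223 + 101) :=
        Nat.mul_le_mul (Nat.mul_le_mul_left _ h2) h5
    _ = _ := by ring

end Setup

end Pool.Agent.V11158.HeisSetup
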