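import Mathlib

/-!
# Binary codes of length five and covering radius one have at least seven words
-/

set_option autoImplicit false

namespace Pool.Agent.V11158.Code5

/-- the number of a binary word of length five -/
def enc (w : Fin 5 → Bool) : ℕ :=
  (w 0).toNat + 2 * (w 1).toNat + 4 * (w 2).toNat + 8 * (w 3).toNat + 16 * (w 4).toNat

/-- the word with a given number -/
def dec (n : ℕ) : Fin 5 → Bool := fun j => n.testBit j

/-- the numbers of the words at distance at most one -/
def nbs (n : ℕ) : List ℕ := [n, n ^^^ 1, n ^^^ 2, n ^^^ 4, n ^^^ 8, n ^^^ 16]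

/-- the set of the words at distance at most one, as a bit mask -/
def ball (n : ℕ) : ℕ := (nbs n).foldl (fun a m => a ||| 2 ^ m) 0

/-- the least word from `w` on that is not covered -/
def unc (cov : ℕ) : ℕ → ℕ → Option ℕ
  | 0, _ => none
  | f + 1, w => if cov.testBit w then unc cov f (w + 1) else some w

/-- the number of words that are not covered -/
def cnt (cov : ℕ) : ℕ := ((List.range 32).filter (fun n => !cov.testBit n)).length

/-- the search for codes -/
def search : ℕ → ℕ → Bool
  | 0, cov => (unc cov 32 0).isNone
  | k + 1, cov =>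
    match unc cov 32 0 with
    | none => true
    | some w => (nbs w).any (fun c =>
        (cnt (cov ||| ball c)).ble (6 * k) && search k (cov ||| ball c))

theorem unc_spec (cov : ℕ) : ∀ f w v : ℕ, unc cov f w = some v →
    w ≤ v ∧ v < w + f ∧ cov.testBit v = false := by
  intro f
  induction f with
  | zero => intro w v h; simp [unc] at h
  | succ f ih =>
    intro w v h
    unfold unc at h
    split_ifs at h with hw
    · obtain ⟨h1, h2, h3⟩ := ih _ _ h
      exact ⟨by omega, by omega, h3⟩
    · have : w = v := by simpa using h
      subst this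
      refine ⟨le_refl _, by omega, by simpa using hw⟩

theorem enc_dec : ∀ n < 32, enc (dec n) = n := by decide +kernel

theorem mem_nbs : ∀ n < 32, ∀ c : Fin 5 → Bool, hammingDist (dec n) c ≤ 1 →
    enc c ∈ nbs n ∧ n ∈ nbs (enc c) := by
  decide +kernel

theorem ball_spec : ∀ w c : Fin 5 → Bool, hammingDist w c ≤ 1 →
    (ball (enc c)).testBit (enc w) = true := by
  decide +kernel

theorem cnt_le (k cov : ℕ) (E : Finset (Fin 5 → Bool)) (hE : E.card ≤ k)
    (h : ∀ w, cov.testBit (enc w) = true ∨ ∃ c ∈ E, hammingDist w c ≤ 1) : cnt cov ≤ 6 * k := by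
  have h1 : ((List.range 32).filter (fun n => !cov.testBit n)).toFinset ⊆
      E.biUnion (fun c => (nbs (enc c)).toFinset) := by
    intro n hn
    rw [List.mem_toFinset, List.mem_filter, List.mem_range] at hn
    obtain ⟨hn1, hn2⟩ := hn
    have h2 := h (dec n)
    rw [enc_dec n hn1] at h2
    rcases h2 with h2 | ⟨c, hc, hd⟩
    · simp [h2] at hn2
    · rw [Finset.mem_biUnion]
      exact ⟨c, hc, List.mem_toFinset.2 (mem_nbs n hn1 c hd).2⟩
  have h2 := Finset.card_le_card h1
  rw [List.toFinset_card_of_nodup (List.Nodup.filter _ List.nodup_range)] at h2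
  have h3 : (E.biUnion (fun c => (nbs (enc c)).toFinset)).card ≤ E.card * 6 := by
    apply Finset.card_biUnion_le_card_mul
    intro c _
    exact le_trans (List.toFinset_card_le _) (le_of_eq rfl)
  unfold cnt
  omega

theorem search_true : ∀ (k cov : ℕ) (E : Finset (Fin 5 → Bool)), E.card ≤ k →
    (∀ w, cov.testBit (enc w) = true ∨ ∃ c ∈ E, hammingDist w c ≤ 1) → search k cov = true := by
  intro k
  induction k with
  | zero =>
    intro cov E hE h
    have hE0 : E = ∅ := by simpa using hE
    subst hE0
    unfold search
    rcases hu : unc cov 32 0 with _ | v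
    · rfl
    · exfalso
      obtain ⟨h1, h2, h3⟩ := unc_spec cov 32 0 v hu
      have h4 := h (dec v)
      rw [enc_dec v (by omega)] at h4
      simp [h3] at h4
  | succ k ih =>
    intro cov E hE h
    unfold search
    rcases hu : unc cov 32 0 with _ | v
    · rfl
    · obtain ⟨h1, h2, h3⟩ := unc_spec cov 32 0 v hu
      have h4 := h (dec v)
      rw [enc_dec v (by omega)] at h4
      rcases h4 with h4 | ⟨c, hc, hd⟩
      · simp [h3] at h4
      · have hm := (mem_nbs v (by omega) c hd).1
        have hcard : (E.erase c).card ≤ k := by
          rw [Finset.card_erase_of_mem hc]; omega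
        have hcov : ∀ w, (cov ||| ball (enc c)).testBit (enc w) = true ∨
            ∃ c' ∈ E.erase c, hammingDist w c' ≤ 1 := by
          intro w
          rw [Nat.testBit_or]
          rcases h w with hw | ⟨c', hc', hd'⟩
          · left; simp [hw]
          · by_cases hcc : c' = c
            · left
              subst hcc
              rw [ball_spec w c' hd']
              simp
            · right
              exact ⟨c', Finset.mem_erase.2 ⟨hcc, hc'⟩, hd'⟩
        simp only [List.any_eq_true, Bool.and_eq_true]
        refine ⟨enc c, hm, ?_, ih _ _ hcard hcov⟩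
        exact Nat.ble_eq_true_of_le (cnt_le k _ _ hcard hcov)

theorem search_six : search 6 0 = false := by decide +kernel

/-- A binary code of length five and covering radius at most one has at least seven words. -/
theorem seven_le (C : Finset (Fin 5 → Bool))
    (hC : ∀ w : Fin 5 → Bool, ∃ c ∈ C, hammingDist w c ≤ 1) : 7 ≤ C.card := by
  by_contra hlt
  push Not at hlt
  have := search_true 6 0 C (by omega) (fun w => Or.inr (hC w))
  rw [search_six] at this
  exact Bool.false_ne_true this

end Pool.Agent.V11158.Code5
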