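import Mathlib

/-!
# The number of complex points of a finite fibre is at most the number of points of a generic fibre

For a dominant morphism to a normal variety of the same dimension; by Zariski's main theorem.
-/

set_option autoImplicit false

namespace Pool.Agent.V11158.FibreCount

open TensorProduct

/-! ### Algebras of finite type over a field with finitely many complex points -/

/-- A point of an algebra of finite type, defined by a maximal ideal. -/
theorem exists_hom {κ F : Type} [Field κ] [CommRing F] [Algebra κ F] [Algebra.FiniteType κ F]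
    (ι : κ →+* ℂ) (J : Ideal F) (hJ : J.IsMaximal) :
    ∃ θ : F →+* ℂ, RingHom.ker θ = J ∧ ∀ a : κ, θ (algebraMap κ F a) = ι a := by
  let _ : Algebra κ ℂ := ι.toAlgebra
  let _ := Ideal.Quotient.field J
  have : Algebra.FiniteType κ (F ⧸ J) :=
    Algebra.FiniteType.of_surjective (Ideal.Quotient.mkₐ κ J)
      (Ideal.Quotient.mkₐ_surjective _ _)
  have : Module.Finite κ (F ⧸ J) := finite_of_finite_type_of_isJacobsonRing _ _
  have : Algebra.IsAlgebraic κ (F ⧸ J) := Algebra.IsAlgebraic.of_finite _ _
  let g : (F ⧸ J) →ₐ[κ] ℂ := IsAlgClosed.lift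
  refine ⟨g.toRingHom.comp (Ideal.Quotient.mk J), ?_, ?_⟩
  · ext x
    rw [RingHom.mem_ker, RingHom.comp_apply]
    constructor
    · intro h
      have h2 : Ideal.Quotient.mk J x = 0 := by
        apply g.toRingHom.injective
        rw [h, map_zero]
      exact Ideal.Quotient.eq_zero_iff_mem.1 h2
    · intro h
      rw [Ideal.Quotient.eq_zero_iff_mem.2 h, map_zero]
  · intro a
    exact g.commutes a

/-- If there are finitely many complex points then the algebra is artinian. -/
theorem isArtinianRing_of_finite {κ F : Type} [Field κ] [CommRing F] [Algebra κ F]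
    [Algebra.FiniteType κ F] (ι : κ →+* ℂ)
    (h : {θ : F →+* ℂ | ∀ a : κ, θ (algebraMap κ F a) = ι a}.Finite) : IsArtinianRing F := by
  have hJac : IsJacobsonRing F := isJacobsonRing_of_finiteType (A := κ)
  have hN : IsNoetherianRing F := Algebra.FiniteType.isNoetherianRing κ F
  have hmax : {J : Ideal F | J.IsMaximal}.Finite := by
    refine (h.image RingHom.ker).subset ?_
    intro J hJ
    obtain ⟨θ, h1, h2⟩ := exists_hom ι J hJ
    exact ⟨θ, h2, h1⟩
  have hprime : ∀ Q : Ideal F, Q.IsPrime → Q.IsMaximal := by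
    intro Q hQ
    have h1 : Q.jacobson = Q := hJac.out hQ.isRadical
    have hT : {J : Ideal F | Q ≤ J ∧ J.IsMaximal}.Finite := hmax.subset fun J hJ => hJ.2
    have h2 : hT.toFinset.inf id ≤ Q := by
      rw [Finset.inf_id_eq_sInf, Set.Finite.coe_toFinset]
      exact le_of_eq h1
    rw [Ideal.IsPrime.inf_le' hQ] at h2
    obtain ⟨J, hJ, hJQ⟩ := h2
    rw [Set.Finite.mem_toFinset] at hJ
    have : J = Q := le_antisymm hJQ hJ.1
    rw [← this]
    exact hJ.2
  rw [isArtinianRing_iff_isNoetherianRing_krullDimLE_zero]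
  exact ⟨hN, Ring.KrullDimLE.mk₀ hprime⟩

/-- The complex points of `S` over the point of `R` below `χ₀`. -/
def fibreHoms (R : Type) {S : Type} [CommRing R] [CommRing S] [Algebra R S] (χ₀ : S →+* ℂ) :
    Set (S →+* ℂ) :=
  {χ | ∀ x : R, χ (algebraMap R S x) = χ₀ (algebraMap R S x)}

section

variable {R S : Type} [CommRing R] [CommRing S] [Algebra R S]

theorem fibreHoms_eq {χ₀ χ : S →+* ℂ} (h : χ ∈ fibreHoms R χ₀) :
    fibreHoms R χ = fibreHoms R χ₀ := by
  ext ψ
  constructor
  · intro hψ x
    rw [hψ x, h x]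
  · intro hψ x
    rw [hψ x, h x]

attribute [local instance] RingHom.ker_isPrime

/-- the kernel of the restriction to `R` -/
abbrev below (R : Type) {S : Type} [CommRing R] [CommRing S] [Algebra R S] (χ₀ : S →+* ℂ) :
    Ideal R := (RingHom.ker χ₀).comap (algebraMap R S)

theorem below_le (χ₀ : S →+* ℂ) :
    below R χ₀ ≤ RingHom.ker (χ₀.comp (algebraMap R S)) := fun _ hx => hx

theorem below_compl_le (χ₀ : S →+* ℂ) : (below R χ₀).primeCompl ≤
    (IsUnit.submonoid ℂ).comap (χ₀.comp (algebraMap R S)) := by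
  intro x hx
  rw [Submonoid.mem_comap]
  show IsUnit _
  rw [isUnit_iff_ne_zero]
  exact hx

/-- the residue field is embedded into the complex numbers -/
noncomputable def resEmb (R : Type) {S : Type} [CommRing R] [CommRing S] [Algebra R S]
    (χ₀ : S →+* ℂ) : (below R χ₀).ResidueField →+* ℂ :=
  Ideal.ResidueField.lift (below R χ₀) (χ₀.comp (algebraMap R S)) (below_le χ₀)
    (below_compl_le χ₀)

theorem resEmb_algebraMap (χ₀ : S →+* ℂ) (x : R) :
    resEmb R χ₀ (algebraMap R (below R χ₀).ResidueField x) = χ₀ (algebraMap R S x) := by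
  exact Ideal.ResidueField.lift_algebraMap _ _ (below_le χ₀) (below_compl_le χ₀) x

/-- If the fibre has finitely many complex points then `S` is quasi-finite at these points. -/
theorem quasiFiniteAt_of_finite [Algebra.FiniteType R S] (χ₀ : S →+* ℂ)
    (h : (fibreHoms R χ₀).Finite) : Algebra.QuasiFiniteAt R (RingHom.ker χ₀) := by
  have hA : IsArtinianRing ((below R χ₀).Fiber S) := by
    apply isArtinianRing_of_finite (κ := (below R χ₀).ResidueField) (resEmb R χ₀)
    apply Set.Finite.of_finite_image (f := fun θ : (below R χ₀).Fiber S →+* ℂ =>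
      θ.comp (Algebra.TensorProduct.includeRight : S →ₐ[R] (below R χ₀).Fiber S).toRingHom)
    · refine h.subset ?_
      rintro _ ⟨θ, hθ, rfl⟩ x
      simp only [RingHom.comp_apply, AlgHom.toRingHom_eq_coe, RingHom.coe_coe]
      rw [AlgHom.commutes, ← resEmb_algebraMap χ₀ x, ← hθ, ← IsScalarTower.algebraMap_apply]
    · intro θ₁ h₁ θ₂ h₂ he
      refine RingHom.ext fun x => ?_
      induction x using TensorProduct.induction_on with
      | zero => rw [map_zero, map_zero]
      | tmul a s =>
        have h3 : (a ⊗ₜ[R] s : (below R χ₀).Fiber S) =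
            algebraMap (below R χ₀).ResidueField _ a *
              (Algebra.TensorProduct.includeRight : S →ₐ[R] (below R χ₀).Fiber S) s := by
          simp [Algebra.TensorProduct.algebraMap_apply]
        rw [h3, map_mul, map_mul, h₁ a, h₂ a]
        congr 1
        exact congrArg (fun f : S →+* ℂ => f s) he
      | add x y hx hy => rw [map_add, map_add, hx, hy]
  have hN : IsNoetherianRing ((below R χ₀).Fiber S) := inferInstance
  let q : PrimeSpectrum S := ⟨RingHom.ker χ₀, inferInstance⟩
  have hd : DiscreteTopology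
      (PrimeSpectrum ((q.comap (algebraMap R S)).asIdeal.Fiber S)) := by
    change DiscreteTopology (PrimeSpectrum ((below R χ₀).Fiber S))
    infer_instance
  refine Algebra.QuasiFiniteAt.of_isOpen_singleton_fiber (R := R) q ?_
  have hd2 : DiscreteTopology
      (PrimeSpectrum.comap (algebraMap R S) ⁻¹' {q.comap (algebraMap R S)}) :=
    (PrimeSpectrum.preimageHomeomorphFiber R S (q.comap (algebraMap R S))).symm.discreteTopology
  exact isOpen_discrete _

/-- Zariski's main theorem at a complex point of a finite fibre. -/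
theorem zmt [Algebra.FiniteType R S] (χ₀ : S →+* ℂ) (h : (fibreHoms R χ₀).Finite) :
    ∃ r : S, χ₀ r ≠ 0 ∧ IsIntegral R r ∧ ∀ x : S, ∃ m : ℕ, IsIntegral R (r ^ m * x) := by
  have := quasiFiniteAt_of_finite χ₀ h
  have h2 := Algebra.ZariskisMainProperty.of_finiteType (R := R) (RingHom.ker χ₀)
  rw [Algebra.zariskisMainProperty_iff] at h2
  obtain ⟨r, hr, h3, h4⟩ := h2
  exact ⟨r, fun h => hr h, h3, h4⟩

/-- If a generic fibre has finitely many complex points then the extension is algebraic. -/
theorem isAlgebraic_of_finite [IsDomain R] [IsDomain S] [Algebra.FiniteType R S] (χp : S →+* ℂ)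
    (hp : Function.Injective χp) (h : (fibreHoms R χp).Finite) : Algebra.IsAlgebraic R S := by
  obtain ⟨r, hr, h3, h4⟩ := zmt χp h
  have hr0 : r ≠ 0 := by
    rintro rfl
    exact hr (map_zero _)
  refine ⟨fun x => ?_⟩
  obtain ⟨m, hm⟩ := h4 x
  exact IsAlgebraic.of_mul (mem_nonZeroDivisors_of_ne_zero (pow_ne_zero m hr0))
    (h3.pow m).isAlgebraic hm.isAlgebraic

theorem eq_of_eq_on_integral [Algebra.FiniteType R S] (χ₁ χ₂ : S →+* ℂ)
    (hfin : (fibreHoms R χ₁).Finite)
    (he : ∀ a : S, IsIntegral R a → χ₁ a = χ₂ a) : χ₁ = χ₂ := by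
  obtain ⟨r, hr, h3, h4⟩ := zmt χ₁ hfin
  refine RingHom.ext fun x => ?_
  obtain ⟨m, hm⟩ := h4 x
  have e1 := he _ hm
  rw [map_mul, map_mul, map_pow, map_pow, ← he r h3] at e1
  exact mul_left_cancel₀ (pow_ne_zero _ hr) e1

/-- There is an integral element that separates the complex points of a finite fibre. -/
theorem exists_sep [Algebra.FiniteType R S] [Algebra ℚ R] [Algebra ℚ S] [IsScalarTower ℚ R S]
    (χ₀ : S →+* ℂ) (hfin : (fibreHoms R χ₀).Finite) :
    ∃ a : S, IsIntegral R a ∧ Set.InjOn (fun χ : S →+* ℂ => χ a) (fibreHoms R χ₀) := by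
  classical
  let W := integralClosure R S
  let f : (S →+* ℂ) → (W →+ ℂ) := fun χ => (χ.toAddMonoidHom).comp (W.toSubring.subtype.toAddMonoidHom)
  let P := {π : (S →+* ℂ) × (S →+* ℂ) // π.1 ∈ fibreHoms R χ₀ ∧ π.2 ∈ fibreHoms R χ₀ ∧ π.1 ≠ π.2}
  have hP : Finite P := by
    have h1 : (fibreHoms R χ₀ ×ˢ fibreHoms R χ₀).Finite := hfin.prod hfin
    exact (h1.subset (fun π (hπ : π.1 ∈ fibreHoms R χ₀ ∧ π.2 ∈ fibreHoms R χ₀ ∧ π.1 ≠ π.2) =>
      ⟨hπ.1, hπ.2.1⟩)).to_subtype
  let V : P → Submodule ℚ W := fun π =>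
    LinearMap.ker ((f π.1.1 - f π.1.2).toRatLinearMap)
  have hV : ∀ π, V π ≠ ⊤ := by
    intro π htop
    apply π.2.2.2
    have hfin1 : (fibreHoms R π.1.1).Finite := by
      rw [fibreHoms_eq π.2.1]; exact hfin
    apply eq_of_eq_on_integral _ _ hfin1
    intro a ha
    have h1 : (⟨a, ha⟩ : W) ∈ V π := by rw [htop]; exact Submodule.mem_top
    have h2 : (f π.1.1 - f π.1.2) ⟨a, ha⟩ = 0 := h1
    exact sub_eq_zero.1 h2
  have hcov : (⋃ π, (V π : Set W)) ≠ Set.univ := by
    intro hc
    obtain ⟨π, hπ⟩ := Subspace.exists_eq_top_of_iUnion_eq_univ hc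
    exact hV π hπ
  obtain ⟨a, ha⟩ := (Set.ne_univ_iff_exists_notMem _).1 hcov
  refine ⟨a.1, a.2, ?_⟩
  intro χ₁ h₁ χ₂ h₂ he
  by_contra hne
  apply ha
  rw [Set.mem_iUnion]
  refine ⟨⟨(χ₁, χ₂), h₁, h₂, hne⟩, ?_⟩
  show (f χ₁ - f χ₂) a = 0
  exact sub_eq_zero.2 he

/-- The number of complex points of a finite fibre is at most the number of complex points of the
generic fibre. -/
theorem encard_le [IsDomain R] [IsDomain S] [IsIntegrallyClosed R] [Algebra.FiniteType R S]
    [Algebra.IsAlgebraic R S] [Algebra ℚ R] [Algebra ℚ S] [IsScalarTower ℚ R S]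
    (hRS : Function.Injective (algebraMap R S)) (χ₀ χp : S →+* ℂ)
    (hfin : (fibreHoms R χ₀).Finite) (hp : Function.Injective χp) :
    (fibreHoms R χ₀).encard ≤ (fibreHoms R χp).encard := by
  classical
  obtain ⟨a, ha, hinj⟩ := exists_sep (R := R) χ₀ hfin
  have : FaithfulSMul R S := (faithfulSMul_iff_algebraMap_injective R S).2 hRS
  let m := minpoly R a
  have hm : m.Monic := minpoly.monic ha
  -- the upper bound
  have h1 : (fibreHoms R χ₀).encard ≤ m.natDegree := by
    rw [← hinj.encard_image]
    have hsub : (fun χ : S →+* ℂ => χ a) '' fibreHoms R χ₀ ⊆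
        ((m.map (χ₀.comp (algebraMap R S))).roots.toFinset : Set ℂ) := by
      rintro _ ⟨χ, hχ, rfl⟩
      rw [Finset.mem_coe, Multiset.mem_toFinset, Polynomial.mem_roots (hm.map _).ne_zero,
        Polynomial.IsRoot.def, Polynomial.eval_map]
      have hc : χ₀.comp (algebraMap R S) = χ.comp (algebraMap R S) := by
        ext x
        exact (hχ x).symm
      rw [hc, ← Polynomial.hom_eval₂]
      have h2 : Polynomial.eval₂ (algebraMap R S) a m = 0 := minpoly.aeval R a
      rw [h2, map_zero]
    refine (Set.encard_le_encard hsub).trans ?_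
    rw [Set.encard_coe_eq_coe_finsetCard]
    have h3 := (Multiset.toFinset_card_le (m.map (χ₀.comp (algebraMap R S))).roots).trans
      (Polynomial.card_roots' _)
    rw [hm.natDegree_map] at h3
    exact_mod_cast h3
  -- the generic fibre
  let K := FractionRing R
  let L := FractionRing S
  have hRL : Function.Injective (algebraMap R L) := by
    rw [IsScalarTower.algebraMap_eq R S L]
    exact (IsFractionRing.injective S L).comp hRS
  have : FaithfulSMul R L := (faithfulSMul_iff_algebraMap_injective R L).2 hRL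
  let _ : Algebra K L := FractionRing.liftAlgebra R L
  have : IsScalarTower R K L := FractionRing.isScalarTower_liftAlgebra R L
  have hg : Function.Injective (χp.comp (algebraMap R S)) := hp.comp hRS
  let ιK : K →+* ℂ := IsFractionRing.lift hg
  have : CharZero K := ιK.charZero
  let _ : Algebra K ℂ := ιK.toAlgebra
  let _ : Algebra R ℂ := (χp.comp (algebraMap R S)).toAlgebra
  have : IsScalarTower R K ℂ := IsScalarTower.of_algebraMap_eq fun x =>
    (IsFractionRing.lift_algebraMap hg x).symm
  have hmin : minpoly K (algebraMap S L a) = m.map (algebraMap R K) :=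
    minpoly.isIntegrallyClosed_eq_field_fractions K L ha
  have : Module.IsTorsionFree R L := inferInstance
  have hRLalg : Algebra.IsAlgebraic R L := (IsFractionRing.isAlgebraic_iff' R S L).1 inferInstance
  have : Algebra.IsAlgebraic K L := Algebra.IsAlgebraic.extendScalars (IsFractionRing.injective R K)
  have hrange := Algebra.IsAlgebraic.range_eval_eq_rootSet_minpoly (F := K) (A := ℂ)
    (algebraMap S L a)
  have hcard : Fintype.card ((minpoly K (algebraMap S L a)).rootSet ℂ) = m.natDegree := by
    rw [Polynomial.card_rootSet_eq_natDegree, hmin, hm.natDegree_map]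
    · exact (minpoly.irreducible (Algebra.IsAlgebraic.isAlgebraic (R := K)
        (algebraMap S L a)).isIntegral).separable
    · exact IsAlgClosed.splits _
  have h4 : (m.natDegree : ℕ∞) ≤ (fibreHoms R χp).encard := by
    have h5 : (minpoly K (algebraMap S L a)).rootSet ℂ ⊆
        (fun χ : S →+* ℂ => χ a) '' fibreHoms R χp := by
      rw [← hrange]
      rintro _ ⟨ψ, rfl⟩
      refine ⟨ψ.toRingHom.comp (algebraMap S L), ?_, rfl⟩
      intro x
      have h6 : algebraMap S L (algebraMap R S x) = algebraMap K L (algebraMap R K x) := by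
        rw [← IsScalarTower.algebraMap_apply, ← IsScalarTower.algebraMap_apply]
      rw [RingHom.comp_apply, h6]
      show ψ (algebraMap K L (algebraMap R K x)) = _
      rw [ψ.commutes]
      exact IsFractionRing.lift_algebraMap hg x
    have h7 := (Set.encard_le_encard h5).trans (Set.encard_image_le _ _)
    refine le_trans (le_of_eq ?_) h7
    rw [← hcard, ← Set.toFinset_card, Set.encard_eq_coe_toFinset_card]
  exact h1.trans h4

end

end Pool.Agent.V11158.FibreCount
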