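import Mathlib

/-!
# Complex symmetric matrices of rank at most two are Gram matrices
-/

set_option autoImplicit false

namespace Pool.Agent.V11158.GramTwo

theorem exists_sq (z : ℂ) : ∃ s : ℂ, s ^ 2 = z := IsAlgClosed.exists_pow_nat_eq z two_pos

/-- A symmetric matrix whose `3 × 3` minors vanish is the Gram matrix of vectors in `ℂ²`. -/
theorem gram {W : Type} (g : W → W → ℂ) (hs : ∀ u v, g u v = g v u)
    (hdet : ∀ a b c d e f, g a d * (g b e * g c f - g b f * g c e) -
      g a e * (g b d * g c f - g b f * g c d) + g a f * (g b d * g c e - g b e * g c d) = 0) :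
    ∃ x : W → Fin 2 → ℂ, ∀ u v, g u v = x u 0 * x v 0 + x u 1 * x v 1 := by
  by_cases hdiag : ∃ a, g a a ≠ 0
  · obtain ⟨a, ha⟩ := hdiag
    obtain ⟨s, hs2⟩ := exists_sq (g a a)
    have hs0 : s ≠ 0 := by
      rintro rfl
      apply ha
      rw [← hs2]
      norm_num
    -- the Schur complement, multiplied by `g a a`
    let h : W → W → ℂ := fun u v => g u v - g a u * g a v / g a a
    have hsym : ∀ u v, h u v = h v u := by
      intro u v
      simp only [h]
      rw [hs u v]
      ring
    have hminor : ∀ u u' v v', h u v * h u' v' = h u v' * h u' v := by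
      intro u u' v v'
      have h1 := hdet a u u' a v v'
      have h2 : g a a * (h u v * h u' v' - h u v' * h u' v) = 0 := by
        simp only [h]
        rw [hs u a, hs u' a] at h1
        field_simp
        linear_combination (g a a) * h1
      rcases mul_eq_zero.1 h2 with h3 | h3
      · exact absurd h3 ha
      · linear_combination h3
    by_cases hh : ∃ b, h b b ≠ 0
    · obtain ⟨b, hb⟩ := hh
      obtain ⟨t, ht2⟩ := exists_sq (h b b)
      have ht0 : t ≠ 0 := by
        rintro rfl
        apply hb
        rw [← ht2]
        norm_num
      refine ⟨fun u => ![g a u / s, h b u / t], fun u v => ?_⟩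
      simp only [Matrix.cons_val_zero, Matrix.cons_val_one]
      have h1 := hminor u b v b
      have h2 : h u v = h b u * h b v / h b b := by
        rw [eq_div_iff hb, h1, hsym u b]
      have h3 : g u v = h u v + g a u * g a v / g a a := by
        simp only [h]
        ring
      rw [h3, h2, ← hs2, ← ht2]
      field_simp
      ring
    · push Not at hh
      refine ⟨fun u => ![g a u / s, 0], fun u v => ?_⟩
      simp only [Matrix.cons_val_zero, Matrix.cons_val_one]
      have h1 := hminor u v v u
      have h2 : h u v = 0 := by
        rw [hh u, zero_mul, hsym v u] at h1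
        exact mul_self_eq_zero.1 h1
      have h3 : g u v = h u v + g a u * g a v / g a a := by
        simp only [h]
        ring
      rw [h3, h2, ← hs2]
      field_simp
      ring
  · push Not at hdiag
    by_cases hoff : ∃ a b, g a b ≠ 0
    · obtain ⟨a, b, hab⟩ := hoff
      obtain ⟨s, hs2⟩ := exists_sq (2 * g a b)
      have hs0 : s ≠ 0 := by
        rintro rfl
        apply hab
        have : (2 : ℂ) * g a b = 0 := by rw [← hs2]; norm_num
        rcases mul_eq_zero.1 this with h | h
        · norm_num at h
        · exact h
      refine ⟨fun u => ![(g a u + g b u) / s, Complex.I * (g a u - g b u) / s], fun u v => ?_⟩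
      simp only [Matrix.cons_val_zero, Matrix.cons_val_one]
      have h1 := hdet a b u a b v
      rw [hdiag a, hdiag b, hs b a, hs u a, hs u b] at h1
      have h2 : g a b * g u v = g a u * g b v + g b u * g a v := by
        have h3 : g a b * (g a b * g u v - (g a u * g b v + g b u * g a v)) = 0 := by
          linear_combination -h1
        rcases mul_eq_zero.1 h3 with h4 | h4
        · exact absurd h4 hab
        · linear_combination h4
      have hI : Complex.I ^ 2 = -1 := Complex.I_sq
      have h5 : s ^ 2 * g u v = 2 * (g a u * g b v + g b u * g a v) := by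
        rw [hs2]
        linear_combination 2 * h2
      have h6 : g u v = 2 * (g a u * g b v + g b u * g a v) / s ^ 2 := by
        rw [eq_div_iff (pow_ne_zero 2 hs0)]
        linear_combination h5
      rw [h6]
      field_simp
      linear_combination -((g a u - g b u) * (g a v - g b v)) * hI
    · push Not at hoff
      refine ⟨fun _ _ => 0, fun u v => ?_⟩
      rw [hoff u v]
      ring

end Pool.Agent.V11158.GramTwo
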