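import Mathlib
import Pool.Agent.V11158.GramTwo
import Pool.Agent.V11158.FibreCount

/-!
# Squared distances of planar complex frameworks
-/

set_option autoImplicit false

namespace Pool.Agent.V11158.Frameworks

open MvPolynomial Pool.Agent.V11158.FibreCount

variable {V : Type}

/-- the coordinate ring of the realisations -/
abbrev Co (V : Type) : Type := MvPolynomial (V × Fin 2) ℚ

/-- the squared distance of two vertices, as a polynomial in the coordinates -/
noncomputable def D (u v : V) : Co V := (X (u, 0) - X (v, 0)) ^ 2 + (X (u, 1) - X (v, 1)) ^ 2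

theorem D_symm (u v : V) : D u v = D v u := by
  unfold D
  ring

/-- the squared distance of two vertices in a realisation -/
noncomputable def dist2 (r : V → Fin 2 → ℂ) (u v : V) : ℂ := ∑ k : Fin 2, (r u k - r v k) ^ 2

/-- evaluation at a realisation -/
noncomputable def ev (r : V → Fin 2 → ℂ) : Co V →+* ℂ :=
  (MvPolynomial.aeval (R := ℚ) (fun x : V × Fin 2 => r x.1 x.2)).toRingHom

theorem ev_X (r : V → Fin 2 → ℂ) (v : V) (k : Fin 2) : ev r (X (v, k)) = r v k := by
  unfold ev
  exact MvPolynomial.aeval_X _ _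

theorem ev_D (r : V → Fin 2 → ℂ) (u v : V) : ev r (D u v) = dist2 r u v := by
  unfold D dist2
  rw [Fin.sum_univ_two, map_add, map_pow, map_pow, map_sub, map_sub, ev_X, ev_X, ev_X, ev_X]

/-- the algebra of all squared distances -/
noncomputable def SS (V : Type) : Subalgebra ℚ (Co V) :=
  Algebra.adjoin ℚ (Set.range fun π : V × V => D π.1 π.2)

theorem D_mem (u v : V) : D u v ∈ SS V := Algebra.subset_adjoin ⟨(u, v), rfl⟩

/-- the squared distance as an element of the algebra of all squared distances -/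
noncomputable def DS (u v : V) : SS V := ⟨D u v, D_mem u v⟩

/-- evaluation of squared distances at a realisation -/
noncomputable def evS (r : V → Fin 2 → ℂ) : SS V →+* ℂ := (ev r).comp (SS V).val.toRingHom

theorem evS_apply (r : V → Fin 2 → ℂ) (x : SS V) : evS r x = ev r x.1 := rfl

theorem evS_DS (r : V → Fin 2 → ℂ) (u v : V) : evS r (DS u v) = dist2 r u v := ev_D r u v

/-- Ring homomorphisms on the algebra generated by elements that agree on the generators. -/
theorem hom_ext_of_adjoin {A : Type} [CommRing A] [Algebra ℚ A] {s : Set A}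
    (φ ψ : Algebra.adjoin ℚ s →+* ℂ)
    (h : ∀ (x : A) (hx : x ∈ s), φ ⟨x, Algebra.subset_adjoin hx⟩ =
      ψ ⟨x, Algebra.subset_adjoin hx⟩) : φ = ψ := by
  refine RingHom.ext fun x => ?_
  obtain ⟨x, hx⟩ := x
  induction hx using Algebra.adjoin_induction with
  | mem x hx => exact h x hx
  | algebraMap q =>
    have h1 : (⟨algebraMap ℚ A q, Subalgebra.algebraMap_mem _ q⟩ : Algebra.adjoin ℚ s) =
        algebraMap ℚ _ q := rfl
    rw [h1, ← RingHom.comp_apply, ← RingHom.comp_apply]
    exact congrArg (fun f : ℚ →+* ℂ => f q) (RingHom.ext_rat _ _)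
  | add x y hx hy h1 h2 =>
    have h3 : (⟨x + y, Subalgebra.add_mem _ hx hy⟩ : Algebra.adjoin ℚ s) =
        ⟨x, hx⟩ + ⟨y, hy⟩ := rfl
    rw [h3, map_add, map_add, h1, h2]
  | mul x y hx hy h1 h2 =>
    have h3 : (⟨x * y, Subalgebra.mul_mem _ hx hy⟩ : Algebra.adjoin ℚ s) =
        ⟨x, hx⟩ * ⟨y, hy⟩ := rfl
    rw [h3, map_mul, map_mul, h1, h2]

theorem hom_ext_SS (φ ψ : SS V →+* ℂ) (h : ∀ u v, φ (DS u v) = ψ (DS u v)) : φ = ψ := by
  apply hom_ext_of_adjoin
  rintro _ ⟨⟨u, v⟩, rfl⟩
  exact h u v

theorem evS_eq_iff (r s : V → Fin 2 → ℂ) :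
    evS r = evS s ↔ ∀ u v, dist2 r u v = dist2 s u v := by
  constructor
  · intro h u v
    rw [← evS_DS r u v, ← evS_DS s u v, h]
  · intro h
    apply hom_ext_SS
    intro u v
    rw [evS_DS, evS_DS, h u v]

/-- Every complex point of the algebra of squared distances is a realisation. -/
theorem evS_surjective (χ : SS V →+* ℂ) : ∃ r : V → Fin 2 → ℂ, evS r = χ := by
  classical
  rcases isEmpty_or_nonempty V with hV | ⟨⟨o⟩⟩
  · refine ⟨fun v => (hV.false v).elim, ?_⟩
    apply hom_ext_SS
    intro u v
    exact (hV.false u).elim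
  -- twice the Gram matrix
  let G : V → V → SS V := fun u v => DS u o + DS v o - DS u v
  have hG : ∀ u v, (G u v).1 = 2 * ((X (u, 0) - X (o, 0)) * (X (v, 0) - X (o, 0)) +
      (X (u, 1) - X (o, 1)) * (X (v, 1) - X (o, 1))) := by
    intro u v
    show D u o + D v o - D u v = _
    unfold D
    ring
  have hdetS : ∀ a b c d e f, G a d * (G b e * G c f - G b f * G c e) -
      G a e * (G b d * G c f - G b f * G c d) + G a f * (G b d * G c e - G b e * G c d) = 0 := by
    intro a b c d e f
    apply Subtype.ext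
    show (G a d).1 * ((G b e).1 * (G c f).1 - (G b f).1 * (G c e).1) -
      (G a e).1 * ((G b d).1 * (G c f).1 - (G b f).1 * (G c d).1) +
      (G a f).1 * ((G b d).1 * (G c e).1 - (G b e).1 * (G c d).1) = 0
    simp only [hG]
    ring
  have hsS : ∀ u v, G u v = G v u := by
    intro u v
    apply Subtype.ext
    rw [hG, hG]
    ring
  obtain ⟨x, hx⟩ := GramTwo.gram (fun u v => χ (G u v)) (fun u v => by rw [hsS u v]) (by
    intro a b c d e f
    have h1 := congrArg χ (hdetS a b c d e f)
    simpa only [map_add, map_sub, map_mul, map_zero] using h1)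
  obtain ⟨c, hc2⟩ := GramTwo.exists_sq 2
  have hc0 : c ≠ 0 := by
    rintro rfl
    norm_num at hc2
  refine ⟨fun v k => x v k / c, ?_⟩
  apply hom_ext_SS
  intro u v
  rw [evS_DS]
  have h1 := hx u u
  have h2 := hx v v
  have h3 := hx u v
  simp only [G, map_sub, map_add] at h1 h2 h3
  have h4 : χ (DS u u) = 0 := by
    have : (DS u u : SS V) = 0 := by
      apply Subtype.ext
      show D u u = 0
      unfold D
      ring
    rw [this, map_zero]
  have h5 : χ (DS v v) = 0 := by
    have : (DS v v : SS V) = 0 := by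
      apply Subtype.ext
      show D v v = 0
      unfold D
      ring
    rw [this, map_zero]
  rw [h4] at h1
  rw [h5] at h2
  have h6 : 2 * χ (DS u v) = (x u 0 - x v 0) ^ 2 + (x u 1 - x v 1) ^ 2 := by
    linear_combination h1 + h2 - 2 * h3
  unfold dist2
  rw [Fin.sum_univ_two]
  have h7 : c ^ 2 * ((x u 0 / c - x v 0 / c) ^ 2 + (x u 1 / c - x v 1 / c) ^ 2) =
      c ^ 2 * χ (DS u v) := by
    rw [hc2, h6, ← hc2]
    field_simp
  exact mul_left_cancel₀ (pow_ne_zero 2 hc0) h7

/-! ### The algebra of the squared edge lengths -/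

/-- the squared length of an edge -/
noncomputable def De : Sym2 V → Co V := Sym2.lift ⟨D, D_symm⟩

theorem De_mk (u v : V) : De s(u, v) = D u v := rfl

/-- the algebra of the squared edge lengths -/
noncomputable def RR (G : SimpleGraph V) : Subalgebra ℚ (Co V) :=
  Algebra.adjoin ℚ (Set.range fun e : G.edgeSet => De e.1)

theorem De_mem_SS (e : Sym2 V) : De e ∈ SS V := by
  induction e using Sym2.ind with
  | _ u v => exact D_mem u v

theorem RR_le (G : SimpleGraph V) : RR G ≤ SS V := by
  apply Algebra.adjoin_le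
  rintro _ ⟨e, rfl⟩
  exact De_mem_SS e.1

noncomputable instance algRS (G : SimpleGraph V) : Algebra (RR G) (SS V) :=
  (Subalgebra.inclusion (RR_le G)).toRingHom.toAlgebra

theorem algebraMap_eq (G : SimpleGraph V) :
    algebraMap (RR G) (SS V) = (Subalgebra.inclusion (RR_le G)).toRingHom :=
  RingHom.algebraMap_toAlgebra _

theorem algebraMap_val (G : SimpleGraph V) (x : RR G) :
    ((algebraMap (RR G) (SS V) x : SS V) : Co V) = x.1 := by
  rw [algebraMap_eq]
  exact Subalgebra.coe_inclusion (RR_le G) x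

instance towerQRS (G : SimpleGraph V) : IsScalarTower ℚ (RR G) (SS V) :=
  IsScalarTower.of_algebraMap_eq fun _ => rfl

instance towerRSA (G : SimpleGraph V) : IsScalarTower (RR G) (SS V) (Co V) :=
  IsScalarTower.of_algebraMap_eq fun _ => rfl

theorem algebraMap_inj (G : SimpleGraph V) : Function.Injective (algebraMap (RR G) (SS V)) := by
  intro x y h
  apply Subtype.ext
  rw [← algebraMap_val G x, ← algebraMap_val G y, h]

theorem D_mem_RR (G : SimpleGraph V) {u v : V} (h : G.Adj u v) : D u v ∈ RR G :=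
  Algebra.subset_adjoin ⟨⟨s(u, v), h⟩, rfl⟩

theorem mem_fibreHoms_iff (G : SimpleGraph V) (r q : V → Fin 2 → ℂ) :
    evS r ∈ fibreHoms (RR G) (evS q) ↔ ∀ u v, G.Adj u v → dist2 r u v = dist2 q u v := by
  constructor
  · intro h u v huv
    have h1 := h ⟨D u v, D_mem_RR G huv⟩
    rw [← evS_DS, ← evS_DS]
    exact h1
  · intro h x
    have h1 : (evS r).comp (algebraMap (RR G) (SS V)) = (evS q).comp (algebraMap (RR G) (SS V)) := by
      apply hom_ext_of_adjoin
      rintro _ ⟨⟨e, he⟩, rfl⟩
      induction e using Sym2.ind with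
      | _ u v =>
        have h2 : G.Adj u v := he
        have h3 := h u v h2
        rw [← evS_DS, ← evS_DS] at h3
        exact h3
    exact congrArg (fun f : RR G →+* ℂ => f x) h1

instance finiteTypeSS [Finite V] : Algebra.FiniteType ℚ (SS V) := by
  rw [← Subalgebra.fg_iff_finiteType, Subalgebra.fg_def]
  exact ⟨_, Set.finite_range _, rfl⟩

instance finiteTypeRS [Finite V] (G : SimpleGraph V) : Algebra.FiniteType (RR G) (SS V) :=
  Algebra.FiniteType.of_restrictScalars_finiteType ℚ (RR G) (SS V)

/-! ### Transcendence degree -/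

theorem D_ne_zero {o w : V} (h : o ≠ w) : D o w ≠ 0 := by
  classical
  intro h0
  have h1 := congrArg (MvPolynomial.eval (fun x : V × Fin 2 => if x = (o, 0) then (1 : ℚ) else 0)) h0
  unfold D at h1
  simp [h.symm] at h1

/-- If all squared distances are algebraic over the squared edge lengths and there are `2n - 3`
edges then the squared edge lengths are algebraically independent. -/
theorem algebraicIndependent [Fintype V] (G : SimpleGraph V)
    (hE : Nat.card G.edgeSet + 3 = 2 * Fintype.card V)
    (hS : Algebra.IsAlgebraic (RR G) (SS V)) :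
    AlgebraicIndependent ℚ (fun e : G.edgeSet => De e.1) := by
  classical
  have hcard : 1 < Fintype.card V := by omega
  obtain ⟨o, w, how⟩ := Fintype.one_lt_card_iff.1 hcard
  let x : G.edgeSet ⊕ Fin 3 → Co V :=
    Sum.elim (fun e : G.edgeSet => De e.1) ![X (o, 0), X (o, 1), X (w, 0)]
  let B := Algebra.adjoin ℚ (Set.range x)
  have hRB : RR G ≤ B := by
    apply Algebra.adjoin_mono
    rintro _ ⟨e, rfl⟩
    exact ⟨Sum.inl e, rfl⟩
  let _ : Algebra (RR G) B := (Subalgebra.inclusion hRB).toRingHom.toAlgebra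
  have : IsScalarTower (RR G) B (Co V) := IsScalarTower.of_algebraMap_eq fun _ => rfl
  have hinj : Function.Injective (algebraMap (RR G) B) := by
    intro a b h
    apply Subtype.ext
    exact congrArg (fun z : B => (z : Co V)) h
  have hD : ∀ u v : V, IsAlgebraic B (D u v) := by
    intro u v
    have h1 : IsAlgebraic (RR G) (DS u v) := hS.isAlgebraic _
    have h2 : IsAlgebraic (RR G) (algebraMap (SS V) (Co V) (DS u v)) := h1.algebraMap
    exact h2.extendScalars hinj
  have hx : ∀ i, IsAlgebraic B (x i) := by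
    intro i
    have hi : x i ∈ B := Algebra.subset_adjoin ⟨i, rfl⟩
    exact isAlgebraic_algebraMap (R := B) (A := Co V) ⟨x i, hi⟩
  have ho0 : IsAlgebraic B (X (o, 0) : Co V) := hx (Sum.inr 0)
  have ho1 : IsAlgebraic B (X (o, 1) : Co V) := hx (Sum.inr 1)
  have hw0 : IsAlgebraic B (X (w, 0) : Co V) := hx (Sum.inr 2)
  have ha : IsAlgebraic B ((X (w, 0) - X (o, 0) : Co V)) := hw0.sub ho0
  have hb : IsAlgebraic B ((X (w, 1) - X (o, 1) : Co V)) := by
    apply IsAlgebraic.of_pow (n := 2) two_pos
    have h1 : (X (w, 1) - X (o, 1) : Co V) ^ 2 = D o w - (X (w, 0) - X (o, 0)) ^ 2 := by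
      unfold D
      ring
    rw [h1]
    exact (hD o w).sub (ha.pow 2)
  have hpt : ∀ v : V, IsAlgebraic B (X (v, 0) : Co V) ∧ IsAlgebraic B (X (v, 1) : Co V) := by
    intro v
    let g : Co V := (X (w, 0) - X (o, 0)) * (X (v, 0) - X (o, 0)) +
      (X (w, 1) - X (o, 1)) * (X (v, 1) - X (o, 1))
    let h : Co V := (X (w, 0) - X (o, 0)) * (X (v, 1) - X (o, 1)) -
      (X (w, 1) - X (o, 1)) * (X (v, 0) - X (o, 0))
    have h2 : IsAlgebraic B (2 : Co V) := by
      have h3 := isAlgebraic_algebraMap (R := B) (A := Co V) (2 : B)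
      rwa [map_ofNat] at h3
    have hg : IsAlgebraic B g := by
      have h3 : (2 : Co V) * g = D o v + D o w - D w v := by
        simp only [g]
        unfold D
        ring
      refine IsAlgebraic.of_mul (mem_nonZeroDivisors_of_ne_zero two_ne_zero) h2 ?_
      rw [h3]
      exact ((hD o v).add (hD o w)).sub (hD w v)
    have hh : IsAlgebraic B h := by
      apply IsAlgebraic.of_pow (n := 2) two_pos
      have h3 : h ^ 2 = D o w * D o v - g ^ 2 := by
        simp only [g, h]
        unfold D
        ring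
      rw [h3]
      exact ((hD o w).mul (hD o v)).sub (hg.pow 2)
    have hx0 : IsAlgebraic B (X (v, 0) - X (o, 0) : Co V) := by
      refine IsAlgebraic.of_mul (mem_nonZeroDivisors_of_ne_zero (D_ne_zero how)) (hD o w) ?_
      have h3 : D o w * (X (v, 0) - X (o, 0)) = (X (w, 0) - X (o, 0)) * g -
          (X (w, 1) - X (o, 1)) * h := by
        simp only [g, h]
        unfold D
        ring
      rw [h3]
      exact (ha.mul hg).sub (hb.mul hh)
    have hx1 : IsAlgebraic B (X (v, 1) - X (o, 1) : Co V) := by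
      refine IsAlgebraic.of_mul (mem_nonZeroDivisors_of_ne_zero (D_ne_zero how)) (hD o w) ?_
      have h3 : D o w * (X (v, 1) - X (o, 1)) = (X (w, 1) - X (o, 1)) * g +
          (X (w, 0) - X (o, 0)) * h := by
        simp only [g, h]
        unfold D
        ring
      rw [h3]
      exact (hb.mul hg).add (ha.mul hh)
    constructor
    · have := hx0.add ho0
      simpa using this
    · have := hx1.add ho1
      simpa using this
  have hXb : IsTranscendenceBasis ℚ (MvPolynomial.X : V × Fin 2 → Co V) :=
    IsTranscendenceBasis.mvPolynomial _ _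
  have hBA : Algebra.IsAlgebraic B (Co V) := by
    rw [hXb.isAlgebraic_iff]
    rintro ⟨v, k⟩
    fin_cases k
    · exact (hpt v).1
    · exact (hpt v).2
  have htr : Algebra.trdeg ℚ (Co V) = Cardinal.mk (V × Fin 2) := by
    rw [MvPolynomial.trdeg_of_isDomain, Cardinal.lift_id]
  have hle : Cardinal.mk (G.edgeSet ⊕ Fin 3) ≤ Algebra.trdeg ℚ (Co V) := by
    rw [htr, Cardinal.mk_fintype, Cardinal.mk_fintype]
    norm_cast
    rw [Fintype.card_sum, Fintype.card_prod, Fintype.card_fin, Fintype.card_fin,
      ← Nat.card_eq_fintype_card]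
    omega
  have hbasis := Algebra.IsAlgebraic.isTranscendenceBasis_of_le_trdeg_of_finite ℚ x hle
  exact hbasis.1.comp Sum.inl Sum.inl_injective

theorem isIntegrallyClosed_RR [Fintype V] (G : SimpleGraph V)
    (h : AlgebraicIndependent ℚ (fun e : G.edgeSet => De e.1)) : IsIntegrallyClosed (RR G) :=
  IsIntegrallyClosed.of_equiv h.aevalEquiv.toRingEquiv

end Pool.Agent.V11158.Frameworks
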