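import Mathlib

open Matrix Polynomial

namespace Pool.Agent.V11158

/-- axis vector -/
def ax (x : ℝ × ℝ) : Fin 3 → ℝ := ![x.1, x.2, 1]

lemma ax_dot (x : ℝ × ℝ) : ax x ⬝ᵥ ax x = x.1 ^ 2 + x.2 ^ 2 + 1 := by
  simp [ax, dotProduct, Fin.sum_univ_three]; ring

lemma ax_dot_pos (x : ℝ × ℝ) : 0 < ax x ⬝ᵥ ax x := by
  rw [ax_dot]; positivity

/-- reflection matrix -/
noncomputable def rm (x : ℝ × ℝ) : Matrix (Fin 3) (Fin 3) ℝ :=
  1 - (2 / (ax x ⬝ᵥ ax x)) • vecMulVec (ax x) (ax x)

lemma rm_transpose (x : ℝ × ℝ) : (rm x)ᵀ = rm x := by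
  unfold rm
  rw [transpose_sub, transpose_smul, transpose_one, transpose_vecMulVec]

lemma rm_mulVec (x : ℝ × ℝ) (y : Fin 3 → ℝ) :
    (rm x).mulVec y = y - (2 * (ax x ⬝ᵥ y) / (ax x ⬝ᵥ ax x)) • ax x := by
  unfold rm
  rw [sub_mulVec, one_mulVec, smul_mulVec, vecMulVec_mulVec]
  congr 1
  funext k
  simp only [Pi.smul_apply, smul_eq_mul, MulOpposite.smul_eq_mul_unop, MulOpposite.unop_op]
  ring

lemma rm_mul_self (x : ℝ × ℝ) : rm x * rm x = 1 := by
  have hpos := (ax_dot_pos x).ne'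
  apply Matrix.ext_of_mulVec_single
  intro i
  rw [← mulVec_mulVec, rm_mulVec, rm_mulVec, one_mulVec]
  rw [dotProduct_sub, dotProduct_smul, smul_eq_mul]
  set y : Fin 3 → ℝ := Pi.single i 1
  set d := ax x ⬝ᵥ ax x
  set e := ax x ⬝ᵥ y
  funext k
  simp only [Pi.sub_apply, Pi.smul_apply, smul_eq_mul]
  field_simp
  ring

/-- product of the reflection matrices along a word -/
noncomputable def mat {I : Type*} (v : I → ℝ × ℝ) (l : List I) : Matrix (Fin 3) (Fin 3) ℝ :=
  (l.map (fun j => rm (v j))).prod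

@[simp] lemma mat_nil {I : Type*} (v : I → ℝ × ℝ) : mat v [] = 1 := rfl

@[simp] lemma mat_cons {I : Type*} (v : I → ℝ × ℝ) (j : I) (l : List I) :
    mat v (j :: l) = rm (v j) * mat v l := by simp [mat]

lemma mat_append {I : Type*} (v : I → ℝ × ℝ) (l l' : List I) :
    mat v (l ++ l') = mat v l * mat v l' := by simp [mat]

lemma mat_congr {I : Type*} {v w : I → ℝ × ℝ} {l : List I} (h : ∀ j ∈ l, v j = w j) :
    mat v l = mat w l := by
  unfold mat
  congr 1
  apply List.map_congr_left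
  intro j hj
  rw [h j hj]

lemma mat_orth {I : Type*} (v : I → ℝ × ℝ) (l : List I) : (mat v l)ᵀ * mat v l = 1 := by
  induction l with
  | nil => simp
  | cons j l ih =>
    rw [mat_cons, transpose_mul, Matrix.mul_assoc, ← Matrix.mul_assoc (rm (v j))ᵀ, rm_transpose,
      rm_mul_self, Matrix.one_mul, ih]

/-- isotropic complex vector -/
noncomputable def cv (s : ℝ) : Fin 3 → ℂ := ![(s : ℂ), Complex.I * (Real.sqrt (1 + s ^ 2) : ℝ), 1]

lemma cv_dot (s : ℝ) : cv s ⬝ᵥ cv s = 0 := by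
  have h : ((Real.sqrt (1 + s ^ 2) : ℝ) : ℂ) ^ 2 = 1 + (s : ℂ) ^ 2 := by
    rw [← Complex.ofReal_pow, Real.sq_sqrt (by positivity)]
    push_cast; ring
  simp only [cv, dotProduct, Fin.sum_univ_three, Matrix.cons_val_zero, Matrix.cons_val_one,
    Matrix.cons_val]
  have : Complex.I * ((Real.sqrt (1 + s ^ 2) : ℝ) : ℂ) * (Complex.I * ((Real.sqrt (1 + s ^ 2) : ℝ) : ℂ))
      = Complex.I ^ 2 * ((Real.sqrt (1 + s ^ 2) : ℝ) : ℂ) ^ 2 := by ring
  rw [this, h, Complex.I_sq]
  ring

/-- complexification of a matrix -/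
noncomputable def cm (g : Matrix (Fin 3) (Fin 3) ℝ) : Matrix (Fin 3) (Fin 3) ℂ :=
  g.map (fun r => (r : ℂ))

lemma cm_mul (g h : Matrix (Fin 3) (Fin 3) ℝ) : cm (g * h) = cm g * cm h := by
  unfold cm
  exact Matrix.map_mul (f := Complex.ofRealHom)

lemma cm_one : cm 1 = 1 := by
  unfold cm
  exact Matrix.map_one _ Complex.ofReal_zero Complex.ofReal_one

lemma cm_transpose (g : Matrix (Fin 3) (Fin 3) ℝ) : cm gᵀ = (cm g)ᵀ := rfl

lemma orth_scalar {g : Matrix (Fin 3) (Fin 3) ℝ} (hg : gᵀ * g = 1)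
    (h00 : g 0 0 = g 1 1) (h22 : g 2 2 = g 1 1) (h02 : g 0 2 + g 2 0 = 0)
    (h01 : g 0 1 + g 1 0 = 0) (h12 : g 1 2 + g 2 1 = 0) : g = 1 ∨ g = -1 := by
  have e : ∀ i j, ∑ k, g k i * g k j = (1 : Matrix (Fin 3) (Fin 3) ℝ) i j := by
    intro i j
    have := congrFun (congrFun hg i) j
    simpa [Matrix.mul_apply] using this
  have e00 := e 0 0
  have e11 := e 1 1
  have e22 := e 2 2
  have e01 := e 0 1
  have e02 := e 0 2
  have e12 := e 1 2
  simp only [Fin.sum_univ_three, Matrix.one_apply_eq] at e00 e11 e22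
  rw [Matrix.one_apply_ne (by decide)] at e01 e02 e12
  simp only [Fin.sum_univ_three] at e01 e02 e12
  have a10 : g 1 0 = - g 0 1 := by linarith
  have a20 : g 2 0 = - g 0 2 := by linarith
  have a21 : g 2 1 = - g 1 2 := by linarith
  rw [a10, a20, h00] at e00
  rw [a21] at e11
  rw [h22] at e22
  rw [a10, a20, a21, h00] at e01
  rw [a10, a20, h22, h00] at e02
  rw [a21, h22] at e12
  -- names
  have b1 : g 0 2 * g 1 2 = 0 := by nlinarith
  have b2 : g 0 1 * g 1 2 = 0 := by nlinarith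
  have b3 : g 0 1 * g 0 2 = 0 := by nlinarith
  have z01 : g 0 1 = 0 := by
    by_contra hne
    have c1 : g 1 2 = 0 := by
      rcases mul_eq_zero.mp b2 with h | h
      · exact absurd h hne
      · exact h
    have c2 : g 0 2 = 0 := by
      rcases mul_eq_zero.mp b3 with h | h
      · exact absurd h hne
      · exact h
    rw [c1] at e11 e22
    rw [c2] at e00 e22
    have : g 0 1 * g 0 1 = 0 := by nlinarith
    exact hne (mul_self_eq_zero.mp this)
  have z02 : g 0 2 = 0 := by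
    by_contra hne
    have c1 : g 1 2 = 0 := by
      rcases mul_eq_zero.mp b1 with h | h
      · exact absurd h hne
      · exact h
    rw [c1] at e11 e22
    rw [z01] at e00 e11
    have : g 0 2 * g 0 2 = 0 := by nlinarith
    exact hne (mul_self_eq_zero.mp this)
  have z12 : g 1 2 = 0 := by
    rw [z01] at e00 e11
    rw [z02] at e00 e22
    have : g 1 2 * g 1 2 = 0 := by nlinarith
    exact mul_self_eq_zero.mp this
  rw [z01, z02] at e00
  have hl : g 1 1 = 1 ∨ g 1 1 = -1 := by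
    have : g 1 1 * g 1 1 = 1 := by nlinarith
    exact mul_self_eq_one_iff.mp this
  rcases hl with hl | hl
  · left
    ext i j
    fin_cases i <;> fin_cases j <;> simp [h00, h22, a10, a20, a21, z01, z02, z12, hl]
  · right
    ext i j
    fin_cases i <;> fin_cases j <;> simp [h00, h22, a10, a20, a21, z01, z02, z12, hl]

lemma finite_roots {P : ℝ[X]} (hP : P ≠ 0) : {s : ℝ | P.eval s = 0}.Finite := by
  refine (P.roots.toFinset.finite_toSet).subset ?_
  intro s hs
  simp only [Finset.mem_coe, Multiset.mem_toFinset]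
  rw [mem_roots hP]
  exact hs

lemma bad1_finite {g : Matrix (Fin 3) (Fin 3) ℝ} (hg : gᵀ * g = 1) (h1 : g ≠ 1) (h2 : g ≠ -1) :
    {s : ℝ | cv s ⬝ᵥ (cm g).mulVec (cv s) = 0}.Finite := by
  set P1 : ℝ[X] := C (g 0 0 - g 1 1) * X ^ 2 + C (g 0 2 + g 2 0) * X + C (g 2 2 - g 1 1) with hP1
  set P2 : ℝ[X] := C (g 0 1 + g 1 0) * X + C (g 1 2 + g 2 1) with hP2
  have key : ∀ s : ℝ, cv s ⬝ᵥ (cm g).mulVec (cv s) = 0 → P1.eval s = 0 ∧ P2.eval s = 0 := by
    intro s hs
    set ρ := Real.sqrt (1 + s ^ 2) with hρ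
    have hρpos : 0 < ρ := Real.sqrt_pos.mpr (by positivity)
    have hρ2 : ρ ^ 2 = 1 + s ^ 2 := Real.sq_sqrt (by positivity)
    have expand : cv s ⬝ᵥ (cm g).mulVec (cv s)
        = ((P1.eval s : ℝ) : ℂ) + Complex.I * ((ρ * P2.eval s : ℝ) : ℂ) := by
      have hρ2c : ((ρ : ℝ) : ℂ) ^ 2 = 1 + (s : ℂ) ^ 2 := by
        rw [← Complex.ofReal_pow, hρ2]; push_cast; ring
      simp only [cv, dotProduct, mulVec, cm, Fin.sum_univ_three, Matrix.cons_val_zero,
        Matrix.cons_val_one, Matrix.cons_val, Matrix.map_apply, hP1, hP2, ← hρ]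
      simp only [eval_add, eval_mul, eval_C, eval_pow, eval_X]
      push_cast
      linear_combination (Complex.I ^ 2 * (g 1 1 : ℂ)) * hρ2c + (g 1 1 : ℂ) * (1 + (s : ℂ) ^ 2) * Complex.I_sq
    rw [expand] at hs
    have hre := congrArg Complex.re hs
    have him := congrArg Complex.im hs
    simp at hre him
    refine ⟨hre, ?_⟩
    rcases him with h | h
    · exact absurd h hρpos.ne'
    · exact h
  by_cases hne1 : P1 = 0
  · by_cases hne2 : P2 = 0
    · exfalso
      have c2 := congrArg (fun P => Polynomial.eval (-1) P) hne1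
      have c1 := congrArg (fun P => Polynomial.eval 1 P) hne1
      have c0 := congrArg (fun P => Polynomial.eval 0 P) hne1
      have d1 := congrArg (fun P => Polynomial.eval 1 P) hne2
      have d0 := congrArg (fun P => Polynomial.eval 0 P) hne2
      simp only [hP1, hP2, eval_add, eval_mul, eval_C, eval_pow, eval_X, eval_zero]
        at c2 c1 c0 d1 d0
      rcases orth_scalar hg (by linarith) (by linarith) (by linarith) (by linarith)
        (by linarith) with h | h
      · exact h1 h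
      · exact h2 h
    · exact (finite_roots hne2).subset (fun s hs => (key s hs).2)
  · exact (finite_roots hne1).subset (fun s hs => (key s hs).1)

lemma bad2_finite {v : Fin 3 → ℝ} (hv : v ≠ 0) :
    {s : ℝ | cv s ⬝ᵥ (fun i => (v i : ℂ)) = 0}.Finite := by
  have key : ∀ s : ℝ, cv s ⬝ᵥ (fun i => (v i : ℂ)) = 0 → v 0 * s + v 2 = 0 ∧ v 1 = 0 := by
    intro s hs
    have hρpos : 0 < Real.sqrt (1 + s ^ 2) := Real.sqrt_pos.mpr (by positivity)
    simp only [cv, dotProduct, Fin.sum_univ_three, Matrix.cons_val_zero,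
        Matrix.cons_val_one, Matrix.cons_val] at hs
    have hre := congrArg Complex.re hs
    have him := congrArg Complex.im hs
    simp at hre him
    constructor
    · linarith
    · rcases him with h | h
      · exact absurd h hρpos.ne'
      · exact h
  by_cases hP : (C (v 0) * X + C (v 2) : ℝ[X]) = 0
  · have c1 := congrArg (fun P => Polynomial.coeff P 1) hP
    have c0 := congrArg (fun P => Polynomial.coeff P 0) hP
    simp [coeff_X, coeff_C] at c1 c0
    have : {s : ℝ | cv s ⬝ᵥ (fun i => (v i : ℂ)) = 0} = ∅ := by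
      ext s
      simp only [Set.mem_ofPred_eq, Set.mem_empty_iff_false, iff_false]
      intro hs
      apply hv
      funext i
      fin_cases i
      · exact c1
      · exact (key s hs).2
      · exact c0
    rw [this]
    exact Set.finite_empty
  · refine (finite_roots hP).subset (fun s hs => ?_)
    simp only [Set.mem_ofPred_eq, eval_add, eval_mul, eval_C, eval_X]
    exact (key s hs).1

/-! ### polynomial words -/

section poly

variable {I : Type} [LinearOrder I]

/-- axis with polynomial second coordinate -/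
noncomputable def pax (s : ℝ) : Fin 3 → ℝ[X] := ![C s, X, 1]

/-- polynomial vector of a word, the letter `i` having axis `(s, X, 1)` -/
noncomputable def pv (v : I → ℝ × ℝ) (i : I) (s : ℝ) (p : Fin 3 → ℝ) : List I → (Fin 3 → ℝ[X])
  | [] => fun k => C (p k)
  | j :: l =>
    if j = i then (pax s ⬝ᵥ pax s) • pv v i s p l - (2 * (pax s ⬝ᵥ pv v i s p l)) • pax s
    else ((rm (v j)).map C).mulVec (pv v i s p l)

lemma pax_eval (s t : ℝ) (k : Fin 3) : (pax s k).eval t = ax (s, t) k := by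
  fin_cases k <;> simp [pax, ax]

lemma pax_dot_eval (s t : ℝ) (q : Fin 3 → ℝ[X]) :
    (pax s ⬝ᵥ q).eval t = ax (s, t) ⬝ᵥ (fun k => (q k).eval t) := by
  simp only [dotProduct, eval_finsetSum, eval_mul, pax_eval]

lemma pv_eval (v : I → ℝ × ℝ) (i : I) (s : ℝ) (p : Fin 3 → ℝ) (t : ℝ) (l : List I) :
    (fun k => (pv v i s p l k).eval t) =
      (ax (s, t) ⬝ᵥ ax (s, t)) ^ (l.count i) •
        (mat (Function.update v i (s, t)) l).mulVec p := by
  induction l with
  | nil => funext k; simp [pv]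
  | cons j l ih =>
    by_cases hj : j = i
    · subst hj
      have hpos := (ax_dot_pos (s, t)).ne'
      rw [mat_cons, ← mulVec_mulVec, Function.update_self, rm_mulVec, List.count_cons_self]
      set y := (mat (Function.update v j (s, t)) l).mulVec p with hy
      set d := ax (s, t) ⬝ᵥ ax (s, t) with hd
      have h1 : (fun k => (pv v j s p (j :: l) k).eval t) =
          d • (d ^ l.count j • y) - (2 * (ax (s, t) ⬝ᵥ (d ^ l.count j • y))) • ax (s, t) := by
        rw [← ih]
        funext k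
        simp only [pv, if_true, Pi.sub_apply, Pi.smul_apply, smul_eq_mul, eval_sub, eval_mul,
          pax_dot_eval, pax_eval, hd, eval_ofNat]
      rw [h1, dotProduct_smul, smul_eq_mul]
      funext k
      simp only [Pi.sub_apply, Pi.smul_apply, smul_eq_mul]
      field_simp
      ring
    · rw [mat_cons, ← mulVec_mulVec, Function.update_of_ne hj, List.count_cons_of_ne hj]
      have h1 : (fun k => (pv v i s p (j :: l) k).eval t) =
          (rm (v j)).mulVec (fun k => (pv v i s p l k).eval t) := by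
        funext k
        simp only [pv, if_neg hj, mulVec, dotProduct, eval_finsetSum, eval_mul,
          Matrix.map_apply, eval_C]
      rw [h1, ih, mulVec_smul]

/-- the complex root -/
noncomputable def rt (s : ℝ) : ℂ := Complex.I * (Real.sqrt (1 + s ^ 2) : ℝ)

/-- evaluation at the complex root -/
noncomputable def vc (v : I → ℝ × ℝ) (i : I) (s : ℝ) (p : Fin 3 → ℝ) (l : List I) : Fin 3 → ℂ :=
  fun k => aeval (rt s) (pv v i s p l k)

lemma pax_aeval (s : ℝ) (k : Fin 3) : aeval (rt s) (pax s k) = cv s k := by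
  fin_cases k <;> simp [pax, cv, rt]

lemma pax_dot_aeval (s : ℝ) (q : Fin 3 → ℝ[X]) :
    aeval (rt s) (pax s ⬝ᵥ q) = cv s ⬝ᵥ (fun k => aeval (rt s) (q k)) := by
  simp only [dotProduct, map_sum, map_mul, pax_aeval]

lemma vc_nil (v : I → ℝ × ℝ) (i : I) (s : ℝ) (p : Fin 3 → ℝ) :
    vc v i s p [] = fun k => (p k : ℂ) := by
  funext k
  simp [vc, pv]

lemma vc_cons_self (v : I → ℝ × ℝ) (i : I) (s : ℝ) (p : Fin 3 → ℝ) (l : List I) :
    vc v i s p (i :: l) = (-(2 * (cv s ⬝ᵥ vc v i s p l))) • cv s := by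
  have h0 : aeval (rt s) (pax s ⬝ᵥ pax s) = 0 := by
    rw [pax_dot_aeval]
    simp only [pax_aeval]
    exact cv_dot s
  have hv : vc v i s p l = fun k => aeval (rt s) (pv v i s p l k) := rfl
  rw [hv]
  funext k
  simp only [vc, pv, if_true, Pi.sub_apply, Pi.smul_apply, smul_eq_mul, map_sub, map_mul, h0,
    zero_mul, zero_sub, pax_dot_aeval, pax_aeval, map_ofNat]
  ring

lemma vc_cons_ne (v : I → ℝ × ℝ) (i : I) (s : ℝ) (p : Fin 3 → ℝ) (j : I) (l : List I)
    (hj : j ≠ i) :
    vc v i s p (j :: l) = (cm (rm (v j))).mulVec (vc v i s p l) := by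
  funext k
  simp only [vc, pv, if_neg hj, mulVec, dotProduct, map_sum, map_mul, cm, Matrix.map_apply,
    aeval_C]
  rfl

lemma cm_mulVec_ofReal (g : Matrix (Fin 3) (Fin 3) ℝ) (y : Fin 3 → ℝ) :
    (cm g).mulVec (fun k => (y k : ℂ)) = fun k => ((g.mulVec y k : ℝ) : ℂ) := by
  funext k
  simp [cm, mulVec, dotProduct]

omit [LinearOrder I] in
lemma mat_mulVec_ne_zero (v : I → ℝ × ℝ) (l : List I) {p : Fin 3 → ℝ} (hp : p ≠ 0) :
    (mat v l).mulVec p ≠ 0 := by
  intro h
  apply hp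
  have : ((mat v l)ᵀ * mat v l).mulVec p = 0 := by
    rw [← mulVec_mulVec, h, mulVec_zero]
  rwa [mat_orth, one_mulVec] at this

lemma cv_ne_zero (s : ℝ) : cv s ≠ 0 := by
  intro h
  have := congrFun h 2
  simp [cv] at this

omit [LinearOrder I] in
lemma cm_mat_cv_ne_zero (v : I → ℝ × ℝ) (l : List I) (s : ℝ) :
    (cm (mat v l)).mulVec (cv s) ≠ 0 := by
  intro h
  apply cv_ne_zero s
  have h1 : ((cm (mat v l)ᵀ) * cm (mat v l)).mulVec (cv s) = 0 := by
    rw [← mulVec_mulVec, h, mulVec_zero]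
  rwa [← cm_mul, mat_orth, cm_one, one_mulVec] at h1

/-- The invariant. -/
lemma vc_inv (v : I → ℝ × ℝ) (i : I) (s : ℝ) (p : Fin 3 → ℝ)
    (h1 : ∀ l : List I, l ≠ [] → l.IsChain (· ≠ ·) → (∀ j ∈ l, j < i) →
      cv s ⬝ᵥ (cm (mat v l)).mulVec (cv s) ≠ 0)
    (h2 : ∀ l : List I, (∀ j ∈ l, j < i) →
      cv s ⬝ᵥ (fun k => (((mat v l).mulVec p k : ℝ) : ℂ)) ≠ 0)
    (l : List I) (hc : l.IsChain (· ≠ ·)) (hl : ∀ j ∈ l, j ≤ i) :
    (i ∉ l ∧ vc v i s p l = fun k => (((mat v l).mulVec p k : ℝ) : ℂ)) ∨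
    (i ∈ l ∧ ∃ c : ℂ, c ≠ 0 ∧ ∃ l' : List I, (∀ j ∈ l', j < i) ∧ (∃ r, l = l' ++ i :: r) ∧
      vc v i s p l = c • (cm (mat v l')).mulVec (cv s)) := by
  induction l with
  | nil =>
    left
    refine ⟨by simp, ?_⟩
    rw [vc_nil]; simp
  | cons j l ih =>
    have hc' : l.IsChain (· ≠ ·) := hc.tail
    have ih' := ih hc' (fun j hj => hl j (List.mem_cons_of_mem _ hj))
    by_cases hj : j = i
    · subst hj
      right
      refine ⟨List.mem_cons_self, ?_⟩
      have hne : cv s ⬝ᵥ vc v j s p l ≠ 0 := by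
        rcases ih' with ⟨hnot, hv⟩ | ⟨hmem, c, hc0, l', hl', ⟨r, hr⟩, hv⟩
        · rw [hv]
          apply h2
          intro k hk
          exact lt_of_le_of_ne (hl k (List.mem_cons_of_mem _ hk)) (fun h => hnot (h ▸ hk))
        · rw [hv, dotProduct_smul, smul_eq_mul]
          apply mul_ne_zero hc0
          apply h1 l' _ _ hl'
          · intro hnil
            rw [hnil, List.nil_append] at hr
            rw [hr] at hc
            exact (List.isChain_cons_cons.mp hc).1 rfl
          · rw [hr] at hc'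
            exact (List.isChain_append.mp hc').1
      refine ⟨-(2 * (cv s ⬝ᵥ vc v j s p l)), ?_, [], by simp, ⟨l, rfl⟩, ?_⟩
      · exact neg_ne_zero.mpr (mul_ne_zero two_ne_zero hne)
      · rw [vc_cons_self, mat_nil, cm_one, one_mulVec]
    · have hlt : j < i := lt_of_le_of_ne (hl j List.mem_cons_self) hj
      rcases ih' with ⟨hnot, hv⟩ | ⟨hmem, c, hc0, l', hl', ⟨r, hr⟩, hv⟩
      · left
        refine ⟨?_, ?_⟩
        · intro h
          rcases List.mem_cons.mp h with h | h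
          · exact hj h.symm
          · exact hnot h
        · rw [vc_cons_ne _ _ _ _ _ _ hj, hv, cm_mulVec_ofReal, mat_cons, ← mulVec_mulVec]
      · right
        refine ⟨List.mem_cons_of_mem _ hmem, c, hc0, j :: l', ?_, ⟨r, ?_⟩, ?_⟩
        · intro k hk
          rcases List.mem_cons.mp hk with h | h
          · rw [h]; exact hlt
          · exact hl' k h
        · rw [hr]; rfl
        · rw [vc_cons_ne _ _ _ _ _ _ hj, hv, mulVec_smul, mat_cons, cm_mul, mulVec_mulVec]

lemma bad3_finite (v : I → ℝ × ℝ) (i : I) (s : ℝ) (p p' : Fin 3 → ℝ)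
    (h1 : ∀ l : List I, l ≠ [] → l.IsChain (· ≠ ·) → (∀ j ∈ l, j < i) →
      cv s ⬝ᵥ (cm (mat v l)).mulVec (cv s) ≠ 0)
    (h2 : ∀ l : List I, (∀ j ∈ l, j < i) →
      cv s ⬝ᵥ (fun k => (((mat v l).mulVec p k : ℝ) : ℂ)) ≠ 0)
    (l : List I) (hc : l.IsChain (· ≠ ·)) (hl : ∀ j ∈ l, j ≤ i) (hi : i ∈ l) :
    {t : ℝ | (mat (Function.update v i (s, t)) l).mulVec p = p'}.Finite := by
  rcases vc_inv v i s p h1 h2 l hc hl with ⟨hnot, -⟩ | ⟨-, c, hc0, l', hl', -, hv⟩
  · exact absurd hi hnot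
  · have hvne : vc v i s p l ≠ 0 := by
      rw [hv]
      exact smul_ne_zero hc0 (cm_mat_cv_ne_zero v l' s)
    obtain ⟨k, hk⟩ := Function.ne_iff.mp hvne
    set Q : ℝ[X] := pv v i s p l k - (pax s ⬝ᵥ pax s) ^ (l.count i) * C (p' k) with hQ
    have hcount : l.count i ≠ 0 := by
      rw [Ne, List.count_eq_zero]
      exact fun h => h hi
    have hQ0 : Q ≠ 0 := by
      intro h
      have h3 := congrArg (fun P => aeval (rt s) P) h
      have h0 : aeval (rt s) (pax s ⬝ᵥ pax s) = 0 := by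
        rw [pax_dot_aeval]
        simp only [pax_aeval]
        exact cv_dot s
      simp only [hQ, map_sub, map_mul, map_pow, h0, zero_pow hcount, zero_mul, sub_zero,
        map_zero] at h3
      exact hk h3
    refine (finite_roots hQ0).subset (fun t ht => ?_)
    rw [Set.mem_ofPred_eq] at ht ⊢
    have h4 := congrFun (pv_eval v i s p t l) k
    simp only [Pi.smul_apply, smul_eq_mul] at h4
    rw [hQ, eval_sub, h4, ht, eval_mul, eval_pow, pax_dot_eval, eval_C]
    simp only [pax_eval]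
    ring

end poly

/-! ### the recursive choice -/

open Cardinal

lemma avoid {α : Type} (hα : #α < 𝔠) (B : α → Set ℝ) (hB : ∀ a, (B a).Finite) :
    ∃ t : ℝ, ∀ a, t ∉ B a := by
  by_contra hcon
  push Not at hcon
  have huniv : (⋃ a, B a) = Set.univ := by
    ext t
    simpa using hcon t
  have h1 : #(⋃ a, B a : Set ℝ) = 𝔠 := by
    rw [huniv, Cardinal.mk_univ, Cardinal.mk_real]
  have h2 : #(⋃ a, B a : Set ℝ) ≤ #α * ℵ₀ := by
    refine (Cardinal.mk_iUnion_le _).trans ?_
    apply mul_le_mul_right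
    apply ciSup_le'
    intro a
    exact (Cardinal.lt_aleph0_iff_set_finite.mpr (hB a)).le
  have h3 : #α * ℵ₀ < 𝔠 := by
    refine lt_of_le_of_lt (Cardinal.mul_le_max _ _) ?_
    simp only [max_lt_iff]
    exact ⟨⟨hα, Cardinal.aleph0_lt_continuum⟩, Cardinal.aleph0_lt_continuum⟩
  rw [h1] at h2
  exact absurd (lt_of_le_of_lt h2 h3) (lt_irrefl _)

section rec

variable {I : Type} [LinearOrder I]

/-- the requirement on the axis chosen at stage `i` -/
def Good (P : Set (Fin 3 → ℝ)) (i : I) (v : I → ℝ × ℝ) (x : ℝ × ℝ) : Prop :=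
  (∀ l : List I, (∀ j ∈ l, j < i) →
    {s : ℝ | cv s ⬝ᵥ (cm (mat v l)).mulVec (cv s) = 0}.Finite →
    cv x.1 ⬝ᵥ (cm (mat v l)).mulVec (cv x.1) ≠ 0) ∧
  (∀ l : List I, (∀ j ∈ l, j < i) → ∀ p ∈ P,
    {s : ℝ | cv s ⬝ᵥ (fun k => (((mat v l).mulVec p k : ℝ) : ℂ)) = 0}.Finite →
    cv x.1 ⬝ᵥ (fun k => (((mat v l).mulVec p k : ℝ) : ℂ)) ≠ 0) ∧
  (∀ l : List I, (∀ j ∈ l, j ≤ i) → ∀ p ∈ P, ∀ p' ∈ P,
    {t : ℝ | (mat (Function.update v i (x.1, t)) l).mulVec p = p'}.Finite →
    (mat (Function.update v i x) l).mulVec p ≠ p')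

lemma good_congr (P : Set (Fin 3 → ℝ)) (i : I) (v w : I → ℝ × ℝ) (x : ℝ × ℝ)
    (h : ∀ j, j < i → v j = w j) (hg : Good P i v x) : Good P i w x := by
  obtain ⟨h1, h2, h3⟩ := hg
  have hu : ∀ y : ℝ × ℝ, ∀ l : List I, (∀ j ∈ l, j ≤ i) →
      mat (Function.update v i y) l = mat (Function.update w i y) l := by
    intro y l hl
    apply mat_congr
    intro j hj
    by_cases hji : j = i
    · subst hji; simp
    · rw [Function.update_of_ne hji, Function.update_of_ne hji]
      exact h j (lt_of_le_of_ne (hl j hj) hji)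
  refine ⟨?_, ?_, ?_⟩
  · intro l hl
    rw [← mat_congr (fun j hj => h j (hl j hj))]
    exact h1 l hl
  · intro l hl
    rw [← mat_congr (fun j hj => h j (hl j hj))]
    exact h2 l hl
  · intro l hl p hp p' hp' hfin
    rw [← hu x l hl]
    apply h3 l hl p hp p' hp'
    have : {t : ℝ | (mat (Function.update v i (x.1, t)) l).mulVec p = p'} =
        {t : ℝ | (mat (Function.update w i (x.1, t)) l).mulVec p = p'} := by
      ext t
      simp only [Set.mem_ofPred_eq]
      rw [hu (x.1, t) l hl]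
    rw [this]
    exact hfin

lemma exists_good (P : Set (Fin 3 → ℝ)) (i : I) (v : I → ℝ × ℝ) (hi : #(Set.Iio i) < 𝔠)
    (hP : #P < 𝔠) : ∃ x, Good P i v x := by
  classical
  have hlist : #(List (Set.Iio i)) < 𝔠 := by
    refine lt_of_le_of_lt (Cardinal.mk_list_le_max _) ?_
    exact max_lt Cardinal.aleph0_lt_continuum hi
  have hIic : #(Set.Iic i) < 𝔠 := by
    have : Set.Iic i = insert i (Set.Iio i) := by
      ext j; simp [le_iff_eq_or_lt]
    rw [this]
    refine lt_of_le_of_lt (Cardinal.mk_insert_le) ?_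
    exact Cardinal.add_lt_of_lt Cardinal.aleph0_le_continuum hi
      (lt_of_lt_of_le Cardinal.one_lt_aleph0 Cardinal.aleph0_le_continuum)
  have hlist' : #(List (Set.Iic i)) < 𝔠 := by
    refine lt_of_le_of_lt (Cardinal.mk_list_le_max _) ?_
    exact max_lt Cardinal.aleph0_lt_continuum hIic
  -- choice of the first coordinate
  obtain ⟨s, hs⟩ : ∃ s : ℝ, ∀ a : (List (Set.Iio i)) ⊕ (List (Set.Iio i) × P),
      s ∉ (match a with
        | Sum.inl l => if ({s : ℝ | cv s ⬝ᵥ (cm (mat v (l.map Subtype.val))).mulVec (cv s) = 0}.Finite) then {s : ℝ | cv s ⬝ᵥ (cm (mat v (l.map Subtype.val))).mulVec (cv s) = 0} else (∅ : Set ℝ)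
        | Sum.inr (l, p) => if ({s : ℝ | cv s ⬝ᵥ (fun k => (((mat v (l.map Subtype.val)).mulVec p.1 k : ℝ) : ℂ)) = 0}.Finite) then {s : ℝ | cv s ⬝ᵥ (fun k => (((mat v (l.map Subtype.val)).mulVec p.1 k : ℝ) : ℂ)) = 0} else (∅ : Set ℝ)) := by
    apply avoid
    · rw [Cardinal.mk_sum, Cardinal.mk_prod]
      simp only [Cardinal.lift_id]
      apply Cardinal.add_lt_of_lt Cardinal.aleph0_le_continuum hlist
      exact Cardinal.mul_lt_of_lt Cardinal.aleph0_le_continuum hlist hP
    · rintro (l | ⟨l, p⟩)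
      · dsimp only
        split_ifs with h
        · exact h
        · exact Set.finite_empty
      · dsimp only
        split_ifs with h
        · exact h
        · exact Set.finite_empty
  obtain ⟨t, ht⟩ : ∃ t : ℝ, ∀ a : (List (Set.Iic i) × P × P),
      t ∉ (if ({t : ℝ | (mat (Function.update v i (s, t)) (a.1.map Subtype.val)).mulVec a.2.1.1 = a.2.2.1}.Finite) then {t : ℝ | (mat (Function.update v i (s, t)) (a.1.map Subtype.val)).mulVec a.2.1.1 = a.2.2.1} else (∅ : Set ℝ)) := by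
    apply avoid
    · rw [Cardinal.mk_prod, Cardinal.mk_prod]
      simp only [Cardinal.lift_id]
      apply Cardinal.mul_lt_of_lt Cardinal.aleph0_le_continuum hlist'
      exact Cardinal.mul_lt_of_lt Cardinal.aleph0_le_continuum hP hP
    · intro a
      split_ifs with h
      · exact h
      · exact Set.finite_empty
  refine ⟨(s, t), ?_, ?_, ?_⟩
  · intro l hl hfin hz
    lift l to List (Set.Iio i) using hl
    have := hs (Sum.inl l)
    dsimp only at this
    rw [if_pos hfin] at this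
    exact this hz
  · intro l hl p hp hfin hz
    lift l to List (Set.Iio i) using hl
    have := hs (Sum.inr (l, ⟨p, hp⟩))
    dsimp only at this
    rw [if_pos hfin] at this
    exact this hz
  · intro l hl p hp p' hp' hfin hz
    lift l to List (Set.Iic i) using hl
    have := ht (l, ⟨p, hp⟩, ⟨p', hp'⟩)
    dsimp only at this
    rw [if_pos hfin] at this
    exact this hz

variable [WellFoundedLT I]

/-- the recursively chosen axes -/
lemma exists_axes (P : I → Set (Fin 3 → ℝ)) (hI : ∀ i : I, #(Set.Iio i) < 𝔠)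
    (hP : ∀ i, #(P i) < 𝔠) : ∃ v : I → ℝ × ℝ, ∀ i, Good (P i) i v (v i) := by
  classical
  have H : ∀ (i : I) (v : I → ℝ × ℝ), ∃ x, Good (P i) i v x := fun i v =>
    exists_good (P i) i v (hI i) (hP i)
  let F : ∀ i : I, (∀ j : I, j < i → ℝ × ℝ) → ℝ × ℝ := fun i prev =>
    Classical.choose (H i (fun j => if h : j < i then prev j h else 0))
  let v : I → ℝ × ℝ := (wellFounded_lt (α := I)).fix F
  refine ⟨v, fun i => ?_⟩
  have hv : v i = F i (fun j _ => v j) := WellFounded.fix_eq _ _ _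
  have hg := Classical.choose_spec (H i (fun j => if h : j < i then v j else 0))
  rw [hv]
  refine good_congr (P i) i _ v _ ?_ hg
  intro j hj
  simp [hj]

/-- **Generic reflections.** -/
theorem generic (P : I → Set (Fin 3 → ℝ)) (hI : ∀ i : I, #(Set.Iio i) < 𝔠)
    (hP : ∀ i, #(P i) < 𝔠) (hne : ∀ i, (P i).Nonempty) (h0 : ∀ i, ∀ p ∈ P i, p ≠ 0)
    (hneg : ∀ i, ∀ p ∈ P i, -p ∈ P i) :
    ∃ v : I → ℝ × ℝ, ∀ i : I, ∀ l : List I, l.IsChain (· ≠ ·) → i ∈ l → (∀ j ∈ l, j ≤ i) →
      ∀ p ∈ P i, ∀ p' ∈ P i, (mat v l).mulVec p ≠ p' := by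
  obtain ⟨v, hv⟩ := exists_axes P hI hP
  refine ⟨v, ?_⟩
  intro i
  induction i using WellFoundedLT.induction with
  | ind i ih =>
    intro l hc hi hl p hp p' hp'
    obtain ⟨g1, g2, g3⟩ := hv i
    have h1 : ∀ l : List I, l ≠ [] → l.IsChain (· ≠ ·) → (∀ j ∈ l, j < i) →
        cv (v i).1 ⬝ᵥ (cm (mat v l)).mulVec (cv (v i).1) ≠ 0 := by
      intro l hnil hc hl
      apply g1 l hl
      -- the maximal letter
      obtain ⟨m, hm, hmax⟩ : ∃ m ∈ l, ∀ j ∈ l, j ≤ m := by
        have hne' : l.toFinset.Nonempty := by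
          rw [List.toFinset_nonempty_iff]; exact hnil
        refine ⟨l.toFinset.max' hne', ?_, ?_⟩
        · exact List.mem_toFinset.mp (Finset.max'_mem _ _)
        · intro j hj
          exact Finset.le_max' _ _ (List.mem_toFinset.mpr hj)
      obtain ⟨q, hq⟩ := hne m
      apply bad1_finite (mat_orth v l)
      · intro h
        apply ih m (hl m hm) l hc hm hmax q hq q hq
        rw [h, one_mulVec]
      · intro h
        apply ih m (hl m hm) l hc hm hmax q hq (-q) (hneg m q hq)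
        rw [h, neg_mulVec, one_mulVec]
    have h2 : ∀ l : List I, (∀ j ∈ l, j < i) →
        cv (v i).1 ⬝ᵥ (fun k => (((mat v l).mulVec p k : ℝ) : ℂ)) ≠ 0 := by
      intro l hl
      apply g2 l hl p hp
      exact bad2_finite (mat_mulVec_ne_zero v l (h0 i p hp))
    have h3 := g3 l hl p hp p' hp' (bad3_finite v i (v i).1 p p' h1 h2 l hc hl hi)
    rw [Function.update_eq_self] at h3
    exact h3

end rec

end Pool.Agent.V11158
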